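import Pool.Agent.P.MP_6277db_ag.KEW.L1.Loc

/-!
The localisation of the category of complexes at `WG G` and its triangulated structure.
-/

set_option backward.isDefEq.respectTransparency false

noncomputable section

open CategoryTheory Limits Pretriangulated ZeroObject

namespace Pool.Agent.KEW

variable {C : Type 1} [Category.{0} C] {L : Type 1} [CommRing L]

/-- The category of complexes of presheaves localised at the class `WG G`. -/
def DM (G : Ch C L → Prop) : Type 2 := (WG G).Localization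

variable (G : Ch C L → Prop)

instance : Category.{2} (DM G) := inferInstanceAs (Category (WG G).Localization)

/-- The localisation functor. -/
def QM : Ch C L ⥤ DM G := (WG G).Q

instance : (QM G).IsLocalization (WG G) := inferInstanceAs ((WG G).Q.IsLocalization (WG G))

variable {G}

lemma WG.isIso {X Y : Ch C L} {f : X ⟶ Y} (h : WG G f) : IsIso ((QM G).map f) :=
  Localization.inverts (QM G) (WG G) f h

instance {X Y : Ch C L} (f : X ⟶ Y) [QuasiIso f] : IsIso ((QM G).map f) :=
  (WG.of_quasiIso f).isIso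

lemma homotopyEquivalences_le_wg :
    HomologicalComplex.homotopyEquivalences (PSh C L) (ComplexShape.up ℤ) ≤ WG G := by
  rintro X Y f ⟨e, rfl⟩
  exact WG.of_quasiIso _

lemma QM_map_eq_of_homotopy {X Y : Ch C L} {f g : X ⟶ Y} (h : Homotopy f g) :
    (QM G).map f = (QM G).map g :=
  h.map_eq_of_inverts_homotopyEquivalences (fun j => ⟨j - 1, by simp⟩) _
    (MorphismProperty.IsInvertedBy.of_le _ _ _ (Localization.inverts (QM G) (WG G))
      homotopyEquivalences_le_wg)

variable (G)

/-- The localisation functor on the homotopy category. -/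
def QH : HK C L ⥤ DM G :=
  CategoryTheory.Quotient.lift _ (QM G) (by
    intro K K' f g ⟨h⟩
    exact QM_map_eq_of_homotopy h)

lemma quo_comp_QH : quo C L ⋙ QH G = QM G := rfl

lemma QH_obj (X : Ch C L) : (QH G).obj ((quo C L).obj X) = (QM G).obj X := rfl

lemma QH_map {X Y : Ch C L} (f : X ⟶ Y) : (QH G).map ((quo C L).map f) = (QM G).map f := rfl

instance : (quo C L ⋙ QH G).IsLocalization (WG G) :=
  inferInstanceAs ((QM G).IsLocalization (WG G))

lemma trW_eq_map : (NK G).trW = (WG G).map (quo C L) := by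
  ext ⟨K⟩ ⟨K'⟩ f
  obtain ⟨f, rfl⟩ := (quo C L).map_surjective f
  constructor
  · intro hf
    exact MorphismProperty.map_mem_map _ _ _ ((trW_quo_iff f).1 hf)
  · rintro ⟨K₁, K₂, g, h, ⟨e⟩⟩
    rw [← trW_quo_iff] at h
    exact ((NK G).trW.arrow_mk_iso_iff e).1 h

instance : (QH G).IsLocalization (NK G).trW :=
  Functor.IsLocalization.of_comp (quo C L) (QH G)
    (HomologicalComplex.homotopyEquivalences _ _) (NK G).trW (WG G)
    homotopyEquivalences_le_wg (trW_eq_map G)

instance : Preadditive (DM G) := Localization.preadditive (QH G) (NK G).trW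

instance : (QH G).Additive := Localization.functor_additive (QH G) (NK G).trW

instance : (QM G).Additive := inferInstanceAs (quo C L ⋙ QH G).Additive

instance : HasZeroObject (DM G) := (QM G).hasZeroObject_of_additive

instance : HasShift (DM G) ℤ := HasShift.localized (QH G) (NK G).trW ℤ

instance : (QH G).CommShift ℤ := Functor.CommShift.localized (QH G) (NK G).trW ℤ

instance : (QM G).CommShift ℤ := inferInstanceAs ((quo C L ⋙ QH G).CommShift ℤ)

instance (n : ℤ) : (shiftFunctor (DM G) n).Additive := by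
  rw [Localization.functor_additive_iff (QH G) (NK G).trW]
  exact Functor.additive_of_iso ((QH G).commShiftIso n)

instance : Pretriangulated (DM G) :=
  Triangulated.Localization.pretriangulated (QH G) (NK G).trW

instance : (QH G).IsTriangulated :=
  Triangulated.Localization.isTriangulated_functor (QH G) (NK G).trW

instance : IsTriangulated (DM G) :=
  Triangulated.Localization.isTriangulated (QH G) (NK G).trW

lemma QM_obj_surjective (X : DM G) : ∃ K : Ch C L, (QM G).obj K = X := ⟨X.as.obj, rfl⟩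

instance : (QM G).EssSurj := Localization.essSurj _ (WG G)

variable {G}

/-- The connecting morphism of a mapping cone. -/
def coneδ {X Y : Ch C L} (f : X ⟶ Y) : CochainComplex.mappingCone f ⟶ X⟦(1 : ℤ)⟧ :=
  (CochainComplex.mappingCone.triangle f).mor₃

/-- The triangle of a mapping cone in `DM G`. -/
def coneTriangle (G : Ch C L → Prop) {X Y : Ch C L} (f : X ⟶ Y) : Triangle (DM G) :=
  Triangle.mk ((QM G).map f) ((QM G).map (CochainComplex.mappingCone.inr f))
    ((QM G).map (coneδ f) ≫ ((QM G).commShiftIso (1 : ℤ)).hom.app X)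

/-- The triangle of a mapping cone is distinguished in `DM G`. -/
lemma coneTriangle_distinguished {X Y : Ch C L} (f : X ⟶ Y) :
    coneTriangle G f ∈ distTriang (DM G) :=
  isomorphic_distinguished _ ((QH G).map_distinguished _
    (HomotopyCategory.mappingCone_triangleh_distinguished f)) _
    ((Functor.mapTriangleCompIso (quo C L) (QH G)).app (CochainComplex.mappingCone.triangle f))

@[reassoc]
lemma coneδ_naturality {X Y X' Y' : Ch C L} (f : X ⟶ Y) (f' : X' ⟶ Y') (a : X ⟶ X')
    (b : Y ⟶ Y') (h : f ≫ b = a ≫ f') :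
    coneδ f ≫ a⟦(1 : ℤ)⟧' = CochainComplex.mappingCone.map f f' a b h ≫ coneδ f' :=
  (CochainComplex.mappingCone.triangleMap f f' a b h).comm₃

@[reassoc]
lemma inr_cone_map {X Y X' Y' : Ch C L} (f : X ⟶ Y) (f' : X' ⟶ Y') (a : X ⟶ X')
    (b : Y ⟶ Y') (h : f ≫ b = a ≫ f') :
    CochainComplex.mappingCone.inr f ≫ CochainComplex.mappingCone.map f f' a b h =
      b ≫ CochainComplex.mappingCone.inr f' :=
  (CochainComplex.mappingCone.triangleMap f f' a b h).comm₂

/-- Every morphism of `DM G` is a fraction `s⁻¹ ≫ g`. -/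
lemma right_fac {X Y : Ch C L} (f : (QM G).obj X ⟶ (QM G).obj Y) :
    ∃ (X' : Ch C L) (s : X' ⟶ X) (g : X' ⟶ Y), WG G s ∧ (QM G).map s ≫ f = (QM G).map g := by
  obtain ⟨φ, hφ⟩ := Localization.exists_rightFraction (QH G) (NK G).trW
    (X := (quo C L).obj X) (Y := (quo C L).obj Y) f
  obtain ⟨s, hs, g⟩ := φ
  rename_i X'
  obtain ⟨X', rfl⟩ := HomotopyCategory.quotient_obj_surjective X'
  obtain ⟨s, rfl⟩ := (quo C L).map_surjective s
  obtain ⟨g, rfl⟩ := (quo C L).map_surjective g
  refine ⟨X', s, g, (trW_quo_iff s).1 hs, ?_⟩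
  rw [hφ]
  exact MorphismProperty.RightFraction.map_s_comp_map
    (⟨(quo C L).map s, hs, (quo C L).map g⟩ : (NK G).trW.RightFraction _ _) (QH G) _

/-- Every morphism of `DM G` is a fraction `g ≫ s⁻¹`. -/
lemma left_fac {X Y : Ch C L} (f : (QM G).obj X ⟶ (QM G).obj Y) :
    ∃ (Y' : Ch C L) (s : Y ⟶ Y') (g : X ⟶ Y'), WG G s ∧ f ≫ (QM G).map s = (QM G).map g := by
  obtain ⟨φ, hφ⟩ := Localization.exists_leftFraction (QH G) (NK G).trW
    (X := (quo C L).obj X) (Y := (quo C L).obj Y) f
  obtain ⟨g, s, hs⟩ := φ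
  rename_i Y'
  obtain ⟨Y', rfl⟩ := HomotopyCategory.quotient_obj_surjective Y'
  obtain ⟨s, rfl⟩ := (quo C L).map_surjective s
  obtain ⟨g, rfl⟩ := (quo C L).map_surjective g
  refine ⟨Y', s, g, (trW_quo_iff s).1 hs, ?_⟩
  rw [hφ]
  exact MorphismProperty.LeftFraction.map_comp_map_s
    (⟨(quo C L).map g, (quo C L).map s, hs⟩ : (NK G).trW.LeftFraction _ _) (QH G) _

lemma map_eq_iff_precomp {X Y : Ch C L} (f g : X ⟶ Y) :
    (QM G).map f = (QM G).map g ↔
      ∃ (X' : Ch C L) (s : X' ⟶ X), WG G s ∧ Nonempty (Homotopy (s ≫ f) (s ≫ g)) := by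
  constructor
  · intro h
    obtain ⟨X', s, hs, e⟩ := (MorphismProperty.map_eq_iff_precomp (QH G) (NK G).trW
      ((quo C L).map f) ((quo C L).map g)).1 h
    obtain ⟨X', rfl⟩ := HomotopyCategory.quotient_obj_surjective X'
    obtain ⟨s, rfl⟩ := (quo C L).map_surjective s
    refine ⟨X', s, (trW_quo_iff s).1 hs, ⟨HomotopyCategory.homotopyOfEq _ _ ?_⟩⟩
    simpa using e
  · rintro ⟨X', s, hs, ⟨h⟩⟩
    have := hs.isIso
    rw [← cancel_epi ((QM G).map s), ← Functor.map_comp, ← Functor.map_comp]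
    exact QM_map_eq_of_homotopy h

lemma map_eq_iff_postcomp {X Y : Ch C L} (f g : X ⟶ Y) :
    (QM G).map f = (QM G).map g ↔
      ∃ (Y' : Ch C L) (s : Y ⟶ Y'), WG G s ∧ Nonempty (Homotopy (f ≫ s) (g ≫ s)) := by
  constructor
  · intro h
    obtain ⟨Y', s, hs, e⟩ := (MorphismProperty.map_eq_iff_postcomp (QH G) (NK G).trW
      ((quo C L).map f) ((quo C L).map g)).1 h
    obtain ⟨Y', rfl⟩ := HomotopyCategory.quotient_obj_surjective Y'
    obtain ⟨s, rfl⟩ := (quo C L).map_surjective s
    refine ⟨Y', s, (trW_quo_iff s).1 hs, ⟨HomotopyCategory.homotopyOfEq _ _ ?_⟩⟩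
    simpa using e
  · rintro ⟨Y', s, hs, ⟨h⟩⟩
    have := hs.isIso
    rw [← cancel_mono ((QM G).map s), ← Functor.map_comp, ← Functor.map_comp]
    exact QM_map_eq_of_homotopy h

lemma Loc.isZero {K : Ch C L} (h : Loc G K) : IsZero ((QM G).obj K) := by
  have := (WG.of_loc (0 : K ⟶ 0) h Loc.zero).isIso
  exact IsZero.of_iso ((QM G).map_isZero (isZero_zero _)) (asIso ((QM G).map (0 : K ⟶ 0)))

/-- The connecting morphism of a short exact sequence of complexes. -/
def sesδ (G : Ch C L → Prop) {S : ShortComplex (Ch C L)} (hS : S.ShortExact) :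
    (QM G).obj S.X₃ ⟶ (QM G).obj (S.X₁⟦(1 : ℤ)⟧) :=
  have := CochainComplex.mappingCone.quasiIso_descShortComplex hS
  inv ((QM G).map (CochainComplex.mappingCone.descShortComplex S)) ≫
    (QM G).map (coneδ S.f)

lemma desc_sesδ {S : ShortComplex (Ch C L)} (hS : S.ShortExact) :
    (QM G).map (CochainComplex.mappingCone.descShortComplex S) ≫ sesδ G hS =
      (QM G).map (coneδ S.f) := by
  simp [sesδ]

@[reassoc]
lemma sesδ_naturality {S₁ S₂ : ShortComplex (Ch C L)} (hS₁ : S₁.ShortExact)
    (hS₂ : S₂.ShortExact) (φ : S₁ ⟶ S₂) :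
    sesδ G hS₁ ≫ (QM G).map (φ.τ₁⟦(1 : ℤ)⟧') = (QM G).map φ.τ₃ ≫ sesδ G hS₂ := by
  have := CochainComplex.mappingCone.quasiIso_descShortComplex hS₁
  rw [← cancel_epi ((QM G).map (CochainComplex.mappingCone.descShortComplex S₁)),
    ← Category.assoc, desc_sesδ, ← Functor.map_comp_assoc,
    ← CochainComplex.mappingCone.descShortComplex_naturality φ, Functor.map_comp, Category.assoc,
    desc_sesδ, ← Functor.map_comp, ← Functor.map_comp]
  congr 1
  exact coneδ_naturality S₁.f S₂.f φ.τ₁ φ.τ₂ φ.comm₁₂.symm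

/-- The triangle attached to a short exact sequence of complexes. -/
def sesTriangle (G : Ch C L → Prop) {S : ShortComplex (Ch C L)} (hS : S.ShortExact) :
    Triangle (DM G) :=
  Triangle.mk ((QM G).map S.f) ((QM G).map S.g)
    (sesδ G hS ≫ ((QM G).commShiftIso (1 : ℤ)).hom.app S.X₁)

lemma sesTriangle_distinguished {S : ShortComplex (Ch C L)} (hS : S.ShortExact) :
    sesTriangle G hS ∈ distTriang (DM G) := by
  have := CochainComplex.mappingCone.quasiIso_descShortComplex hS
  refine isomorphic_distinguished _ (coneTriangle_distinguished S.f) _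
    (Iso.symm (Triangle.isoMk _ _ (Iso.refl _) (Iso.refl _)
    (asIso ((QM G).map (CochainComplex.mappingCone.descShortComplex S))) ?_ ?_ ?_))
  · simp [sesTriangle, coneTriangle]
  · simp [sesTriangle, coneTriangle, ← Functor.map_comp]
  · simp [sesTriangle, coneTriangle, reassoc_of% (desc_sesδ (G := G) hS)]

end Pool.Agent.KEW
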