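import Pool.Agent.P.MP_6277db_ag.KEW.L1.Repl
import Pool.Agent.P.MP_6277db_ag.KEW.TensW

/-!
Affine lines in a site and local replacements.
-/

set_option backward.isDefEq.respectTransparency false

noncomputable section

open CategoryTheory Limits AlgebraicGeometry Opposite MonoidalCategory Pretriangulated

namespace Pool.Agent.KEW

variable {C : Type 1} [Category.{0} C] {L : Type 1} [CommRing L] {u : C ⥤ Scheme.{0}}

namespace Cyl

variable {U : C} (c : Cyl u U)

/-- The point of the affine line over `x` with coordinate `a`. -/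
def pt {V : C} (x : V ⟶ U) (a : Γ(u.obj V, ⊤)) : V ⟶ c.I := ((c.bij V).2 (x, a)).choose

@[reassoc (attr := simp)]
lemma pt_p {V : C} (x : V ⟶ U) (a : Γ(u.obj V, ⊤)) : c.pt x a ≫ c.p = x :=
  congrArg Prod.fst ((c.bij V).2 (x, a)).choose_spec

@[simp]
lemma pt_t {V : C} (x : V ⟶ U) (a : Γ(u.obj V, ⊤)) : (u.map (c.pt x a)).appTop c.t = a :=
  congrArg Prod.snd ((c.bij V).2 (x, a)).choose_spec

lemma hom_ext {V : C} {φ ψ : V ⟶ c.I} (h : φ ≫ c.p = ψ ≫ c.p)
    (h' : (u.map φ).appTop c.t = (u.map ψ).appTop c.t) : φ = ψ :=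
  (c.bij V).1 (Prod.ext h h')

lemma comp_pt {V W : C} (ψ : W ⟶ V) (x : V ⟶ U) (a : Γ(u.obj V, ⊤)) :
    ψ ≫ c.pt x a = c.pt (ψ ≫ x) ((u.map ψ).appTop a) :=
  c.hom_ext (by simp) (by simp)

lemma pt_p_t : c.pt c.p c.t = 𝟙 c.I := c.hom_ext (by simp) (by simp)

/-- The section of a cylinder with coordinate `a`. -/
def sec (a : Γ(u.obj U, ⊤)) : U ⟶ c.I := c.pt (𝟙 U) a

@[reassoc (attr := simp)]
lemma sec_p (a : Γ(u.obj U, ⊤)) : c.sec a ≫ c.p = 𝟙 U := c.pt_p _ _

@[simp]
lemma sec_t (a : Γ(u.obj U, ⊤)) : (u.map (c.sec a)).appTop c.t = a := c.pt_t _ _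

lemma comp_sec_zero {V : C} (x : V ⟶ U) : x ≫ c.sec 0 = c.pt x 0 := by
  rw [sec, comp_pt, Category.comp_id, map_zero]

end Cyl

variable (u L) in
/-- The class of a function in the reduced affine line. -/
def lineEl {V : C} (a : Γ(u.obj V, ⊤)) : (u.op ⋙ line L).obj (op V) :=
  (Submodule.Quotient.mk (Finsupp.single a 1) :
    (Γ(u.obj V, ⊤) →₀ L) ⧸ Finsupp.supported L L ({0} : Set Γ(u.obj V, ⊤)))

lemma lineEl_zero (V : C) : lineEl L u (0 : Γ(u.obj V, ⊤)) = 0 :=
  (Submodule.Quotient.mk_eq_zero _).2 (Finsupp.single_mem_supported L _ rfl)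

lemma map_lineEl {V W : C} (ψ : W ⟶ V) (a : Γ(u.obj V, ⊤)) :
    (u.op ⋙ line L).map ψ.op (lineEl L u a) = lineEl L u ((u.map ψ).appTop a) :=
  congrArg Submodule.Quotient.mk (Finsupp.mapDomain_single (f := (u.map ψ).appTop))

/-- Linear maps out of `rep U (V) ⊗ line (V)` are determined by their values on generators. -/
lemma rep_tensor_line_ext {U V : C} {M : Type 1} [AddCommGroup M] [Module L M]
    {f g : ((rep C L).obj U ⊗ (u.op ⋙ line L)).obj (op V) →ₗ[L] M}
    (h : ∀ (x : V ⟶ U) (a : Γ(u.obj V, ⊤)),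
      f (repEl L x ⊗ₜ[L] lineEl L u a) = g (repEl L x ⊗ₜ[L] lineEl L u a)) : f = g := by
  refine TensorProduct.ext (Finsupp.lhom_ext' fun x => LinearMap.ext_ring ?_)
  refine Submodule.linearMap_qext _ (Finsupp.lhom_ext' fun a => LinearMap.ext_ring ?_)
  exact h x.down a

namespace Cyl

variable {U : C} (c : Cyl u U)

variable (L) in
/-- The projection `rep (A^1_U) ⟶ rep U ⊗ line`. -/
def π : (rep C L).obj c.I ⟶ (rep C L).obj U ⊗ (u.op ⋙ line L) :=
  (repEquiv c.I _).symm (repEl L c.p ⊗ₜ[L] lineEl L u c.t)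

lemma π_pt {V : C} (x : V ⟶ U) (a : Γ(u.obj V, ⊤)) :
    (c.π L).app (op V) (repEl L (c.pt x a)) = repEl L x ⊗ₜ[L] lineEl L u a := by
  have e : repSec (c.π L) = repEl L c.p ⊗ₜ[L] lineEl L u c.t :=
    (repEquiv c.I _).apply_symm_apply _
  rw [app_repEl, e]
  change ((rep C L).obj U).map (c.pt x a).op (repEl L c.p) ⊗ₜ[L]
    (u.op ⋙ line L).map (c.pt x a).op (lineEl L u c.t) = _
  rw [map_repEl, map_lineEl, pt_p, pt_t]

variable (L) in
/-- The bilinear map `(x, a) ↦ [(x, a)] - [(x, 0)]`. -/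
def sLin (V : C) : ((rep C L).obj U).obj (op V) →ₗ[L] (u.op ⋙ line L).obj (op V) →ₗ[L]
    ((rep C L).obj c.I).obj (op V) :=
  Finsupp.linearCombination L fun x : ULift.{1} (V ⟶ U) => Submodule.liftQ _
    (Finsupp.linearCombination L fun a => repEl L (c.pt x.down a) - repEl L (c.pt x.down 0)) (by
      rw [Finsupp.supported_eq_span_single, Submodule.span_le]
      rintro _ ⟨a, rfl, rfl⟩
      simp)

lemma sLin_apply {V : C} (x : V ⟶ U) (a : Γ(u.obj V, ⊤)) :
    c.sLin L V (repEl L x) (lineEl L u a) = repEl L (c.pt x a) - repEl L (c.pt x 0) := by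
  rw [sLin, repEl]
  erw [Finsupp.linearCombination_single]
  rw [one_smul, lineEl]
  erw [Submodule.liftQ_apply, Finsupp.linearCombination_single]
  rw [one_smul]

variable (L) in
/-- The section of `π`. -/
def s : (rep C L).obj U ⊗ (u.op ⋙ line L) ⟶ (rep C L).obj c.I where
  app V := ModuleCat.ofHom (TensorProduct.lift (c.sLin L V.unop))
  naturality V W ψ := by
    refine ModuleCat.hom_ext (rep_tensor_line_ext fun x a => ?_)
    change c.sLin L W.unop (((rep C L).obj U).map ψ.unop.op (repEl L x))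
      ((u.op ⋙ line L).map ψ.unop.op (lineEl L u a)) =
      ((rep C L).obj c.I).map ψ.unop.op (c.sLin L V.unop (repEl L x) (lineEl L u a))
    rw [map_repEl, map_lineEl, sLin_apply, sLin_apply, map_sub, map_repEl, map_repEl, comp_pt,
      comp_pt, map_zero]

lemma s_apply {V : C} (x : V ⟶ U) (a : Γ(u.obj V, ⊤)) :
    (c.s L).app (op V) (repEl L x ⊗ₜ[L] lineEl L u a) =
      repEl L (c.pt x a) - repEl L (c.pt x 0) :=
  c.sLin_apply x a

lemma sec_π : (rep C L).map (c.sec 0) ≫ c.π L = 0 :=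
  (repSec_bijective U _).1 (by
    rw [repSec_comp, repSec, rep_map_repEl, comp_sec_zero, π_pt, lineEl_zero,
      TensorProduct.tmul_zero, repSec_zero])

variable (L) in
/-- The sequence `rep U ⟶ rep (A^1_U) ⟶ rep U ⊗ line`. -/
def ses : ShortComplex (PSh C L) := ShortComplex.mk _ _ c.sec_π

variable (L) in
/-- The sequence `rep U ⟶ rep (A^1_U) ⟶ rep U ⊗ line` splits. -/
def splitting : (c.ses L).Splitting where
  r := (rep C L).map c.p
  s := c.s L
  f_r := by
    change (rep C L).map (c.sec 0) ≫ (rep C L).map c.p = 𝟙 _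
    rw [← Functor.map_comp, sec_p, CategoryTheory.Functor.map_id]
  s_g := by
    ext V : 2
    refine ModuleCat.hom_ext (rep_tensor_line_ext fun x a => ?_)
    change (c.π L).app V ((c.s L).app (op V.unop) (repEl L x ⊗ₜ[L] lineEl L u a)) = _
    rw [s_apply, map_sub, π_pt, π_pt, lineEl_zero, TensorProduct.tmul_zero, sub_zero]
    rfl
  id := (repSec_bijective c.I _).1 (by
    change ((rep C L).map (c.sec 0)).app _ (((rep C L).map c.p).app _ (repEl L (𝟙 c.I))) +
      (c.s L).app _ ((c.π L).app _ (repEl L (𝟙 c.I))) = repEl L (𝟙 c.I)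
    rw [rep_map_repEl, rep_map_repEl, Category.id_comp, comp_sec_zero, ← pt_p_t, π_pt, s_apply]
    abel)

lemma shortExact : (c.ses L).ShortExact := (c.splitting L).shortExact

/-- The cokernel of the zero section on representables is `rep U ⊗ line`. -/
theorem exists_shortExact :
    ∃ (π : (rep C L).obj c.I ⟶ (rep C L).obj U ⊗ (u.op ⋙ line L))
      (w : (rep C L).map (c.sec 0) ≫ π = 0), (ShortComplex.mk _ _ w).ShortExact :=
  ⟨c.π L, c.sec_π, c.shortExact⟩

end Cyl

lemma isExact_tensor_line : IsExact (tensorRight (u.op ⋙ line L) : PSh C L ⥤ _) :=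
  isExact_tensorRight _ fun _ => flat_line _

lemma loc_sgl_tensor_line (F : PSh C L) (q : ℤ) :
    Loc (NGen u) ((sgl q).obj (F ⊗ (u.op ⋙ line L))) :=
  Loc.of_iso ((HomologicalComplex.singleMapHomologicalComplex
    (tensorRight (u.op ⋙ line L)) _ q).app F) (Loc.gen _ (Or.inr ⟨_, rfl⟩))

lemma Cyl.wg_sec_zero {U : C} (c : Cyl u U) (q : ℤ) :
    WG (NGen u) ((sgl q).map ((rep C L).map (c.sec 0))) :=
  (wg_f_iff (shortExact_sgl c.shortExact q)).2 (loc_sgl_tensor_line _ q)

lemma Cyl.wg_p {U : C} (c : Cyl u U) (q : ℤ) :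
    WG (NGen u) ((sgl q).map ((rep C L).map c.p)) := by
  refine WG.of_precomp (c.wg_sec_zero q) ?_
  rw [← Functor.map_comp, ← Functor.map_comp, c.sec_p]
  exact WG.of_isIso _

lemma Cyl.wg_sec {U : C} (c : Cyl u U) (a : Γ(u.obj U, ⊤)) (q : ℤ) :
    WG (NGen u) ((sgl q).map ((rep C L).map (c.sec a))) := by
  refine WG.of_postcomp (c.wg_p q) ?_
  rw [← Functor.map_comp, ← Functor.map_comp, c.sec_p]
  exact WG.of_isIso _

/-- The homology of a local complex is invariant under affine lines. -/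
lemma IsLocal.bijective_cyl {X : Ch C L} (h : IsLocal (NGen u) X) {U : C} (c : Cyl u U) (q : ℤ) :
    Function.Bijective ((X.homology q).map c.p.op) :=
  (h.orth_cone_rep_iff 0 c.p).1 (Orth.of_loc_left (c.wg_p 0) X) q

/-- A complex with invariant homology is orthogonal to all complexes `K ⊗ line`. -/
theorem orth_tens_line {X : Ch C L}
    (h' : ∀ U : C, ∃ c : Cyl u U, ∀ q : ℤ, Function.Bijective ((X.homology q).map c.p.op))
    (K : Ch C L) : Orth (G0 C L) ((tens (u.op ⋙ line L)).obj K) X := by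
  have := isExact_tensor_line (u := u) (L := L)
  refine orth_map_of_rep (tensorRight (u.op ⋙ line L)) (fun U => ?_) K
  obtain ⟨c, hc⟩ := h' U
  have := CochainComplex.mappingCone.quasiIso_descShortComplex
    (shortExact_sgl (c.shortExact (L := L)) 0)
  refine (Orth.iff_of_wg_left (WG.of_quasiIso (h := this) _)).1
    (((isLocal_G0 X).orth_cone_rep_iff 0 (c.sec 0)).2 fun q => ?_)
  refine Function.Bijective.of_comp_iff _ (hc q) |>.1 ?_
  have e : ((X.homology q).map (c.sec 0).op : _ → _) ∘ (X.homology q).map c.p.op = id := by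
    funext a
    rw [Function.comp_apply, ← Site_res, c.sec_p, Site_id, id]
  rw [e]
  exact Function.bijective_id

/-- A Nisnevich local complex with invariant homology is local. -/
theorem IsLocal.of_nis_of_cyl {X : Ch C L} (h : IsLocal (NisGen u) X)
    (h' : ∀ U : C, ∃ c : Cyl u U, ∀ q : ℤ, Function.Bijective ((X.homology q).map c.p.op)) :
    IsLocal (NGen u) X := by
  rintro K (hK | ⟨K, rfl⟩)
  · exact h K hK
  · exact orth_tens_line h' K

/-- Local replacement. -/
theorem IsSite.exists_replacement (hu : IsSite u) (hc : HasCyl u) (X : Ch C L) :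
    ∃ (X' : Ch C L) (j : X ⟶ X'), Mono j ∧ WG (NGen u) j ∧ IsLocal (NGen u) X' := by
  let c : ∀ U, Cyl u U := fun U => (hc U).some
  obtain ⟨X', j, hj, hW, h, h'⟩ := exists_test_replacement_rep (u := u) (fun U => (c U).p) X
  refine ⟨X', j, hj, hW.trans ?_, ((hu.isLocal_nis_iff _).2 h).of_nis_of_cyl fun U =>
    ⟨c U, ((isLocal_G0 X').orth_cone_rep_iff 0 _).1 (h' U)⟩⟩
  rintro K (h | ⟨U, rfl⟩)
  · exact (hu.locExact_rep.loc_of_test K h).of_nis
  · exact (c U).wg_p 0

end Pool.Agent.KEW
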