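import Pool.Agent.P.MP_6277db_ag.KEW.L1.Sat

/-!
Sequential colimits and bounded above complexes.
-/

set_option backward.isDefEq.respectTransparency false

noncomputable section

open CategoryTheory Limits Pretriangulated ZeroObject

namespace Pool.Agent.KEW

variable {C : Type 1} [Category.{0} C] {L : Type 1} [CommRing L] {G : Ch C L → Prop}

/-- The projections of a direct sum of modules are jointly monomorphic. -/
lemma Seq_mod {ι : Type 1} {M : ι → ModuleCat.{1} L} {c : Cofan M} (hc : IsColimit c)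
    (p : ∀ i, c.pt ⟶ M i) (h1 : ∀ i, c.inj i ≫ p i = 𝟙 _)
    (h0 : ∀ i j, i ≠ j → c.inj i ≫ p j = 0) {A : ModuleCat.{1} L} (x : A ⟶ c.pt)
    (h : ∀ i, x ≫ p i = 0) : x = 0 := by
  classical
  let φ : c.pt ⟶ ModuleCat.of L (DirectSum ι fun i => M i) :=
    Cofan.IsColimit.desc hc fun i => ModuleCat.ofHom (DirectSum.lof L ι (fun i => M i) i)
  let ψ : ModuleCat.of L (DirectSum ι fun i => M i) ⟶ c.pt :=
    ModuleCat.ofHom (DirectSum.toModule L ι c.pt fun i => (c.inj i).hom)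
  have hφ : ∀ i, c.inj i ≫ φ = ModuleCat.ofHom (DirectSum.lof L ι (fun i => M i) i) :=
    fun i => Cofan.IsColimit.fac hc _ i
  have e1 : φ ≫ ψ = 𝟙 _ := by
    refine Cofan.IsColimit.hom_ext hc _ _ fun i => ?_
    rw [← Category.assoc, hφ, Category.comp_id]
    ext a
    simp [ψ]
  have e2 : ∀ j, φ ≫ ModuleCat.ofHom (DirectSum.component L ι (fun i => M i) j) = p j := by
    intro j
    refine Cofan.IsColimit.hom_ext hc _ _ fun i => ?_
    rw [← Category.assoc, hφ]
    by_cases hij : i = j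
    · subst hij
      rw [h1]
      ext a
      simp
    · rw [h0 i j hij]
      ext a
      simp [DirectSum.component.of, hij]
  have e3 : x ≫ φ = 0 := by
    ext a j
    have := congrArg (fun g => g.hom a) ((congrArg (x ≫ ·) (e2 j)).trans (h j))
    exact this
  rw [← Category.comp_id x, ← e1, ← Category.assoc, e3, zero_comp]

/-- The projections of a direct sum of complexes are jointly monomorphic. -/
lemma Seq_joint {ι : Type 1} [DecidableEq ι] (K : ι → Ch C L) {A : Ch C L} (x : A ⟶ ∐ K)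
    (h : ∀ i, x ≫ Sigma.π K i = 0) : x = 0 := by
  ext n : 1
  refine NatTrans.ext (funext fun U => ?_)
  let F : Ch C L ⥤ ModuleCat.{1} L :=
    HomologicalComplex.eval _ _ n ⋙ (evaluation _ _).obj U
  have hc := isColimitOfHasCoproductOfPreservesColimit F K
  exact Seq_mod hc (fun i => F.map (Sigma.π K i))
    (fun i => by
      change F.map _ ≫ F.map _ = _
      rw [← F.map_comp, Sigma.ι_π_eq_id, F.map_id])
    (fun i j hij => by
      change F.map _ ≫ F.map _ = _
      rw [← F.map_comp, Sigma.ι_π_of_ne K hij, F.map_zero])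
    (F.map x) fun i => by
      change F.map _ ≫ F.map _ = _
      rw [← F.map_comp, h, F.map_zero]

/-- The terms of a sequence, indexed by a type in the right universe. -/
abbrev Seq_fam (K : ℕ ⥤ Ch C L) : ULift.{1} ℕ → Ch C L := fun i => K.obj i.down

/-- The shift on the direct sum of the terms. -/
def Seq_sh (K : ℕ ⥤ Ch C L) : ∐ Seq_fam K ⟶ ∐ Seq_fam K :=
  Sigma.desc fun i => K.map (homOfLE (Nat.le_succ i.down)) ≫ Sigma.ι (Seq_fam K) ⟨i.down + 1⟩

@[reassoc]
lemma Seq_ι_sh (K : ℕ ⥤ Ch C L) (n : ℕ) : Sigma.ι (Seq_fam K) ⟨n⟩ ≫ Seq_sh K =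
    K.map (homOfLE (Nat.le_succ n)) ≫ Sigma.ι (Seq_fam K) ⟨n + 1⟩ := Sigma.ι_desc _ _

/-- The map from the direct sum to the colimit. -/
def Seq_pr {K : ℕ ⥤ Ch C L} (c : Cocone K) : ∐ Seq_fam K ⟶ c.pt :=
  Sigma.desc fun i => c.ι.app i.down

@[reassoc]
lemma Seq_ι_pr {K : ℕ ⥤ Ch C L} (c : Cocone K) (n : ℕ) :
    Sigma.ι (Seq_fam K) ⟨n⟩ ≫ Seq_pr c = c.ι.app n := Sigma.ι_desc _ _

/-- The telescope. -/
def Seq_tel {K : ℕ ⥤ Ch C L} (c : Cocone K) : ShortComplex (Ch C L) :=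
  ShortComplex.mk (𝟙 _ - Seq_sh K) (Seq_pr c) (by
    refine Sigma.hom_ext _ _ fun ⟨n⟩ => ?_
    simp [Preadditive.sub_comp, Seq_ι_sh_assoc, Seq_ι_pr])

lemma Seq_mono (K : ℕ ⥤ Ch C L) : Mono (𝟙 _ - Seq_sh K) := by
  rw [Preadditive.mono_iff_cancel_zero]
  intro A x hx
  have hx' : x = x ≫ Seq_sh K := by
    rw [Preadditive.comp_sub, Category.comp_id, sub_eq_zero] at hx
    exact hx
  have s0 : Seq_sh K ≫ Sigma.π (Seq_fam K) ⟨0⟩ = 0 := by
    refine Sigma.hom_ext _ _ fun ⟨n⟩ => ?_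
    rw [Seq_ι_sh_assoc, Sigma.ι_π_of_ne _ (by simp), comp_zero, comp_zero]
  have s1 : ∀ m : ℕ, Seq_sh K ≫ Sigma.π (Seq_fam K) ⟨m + 1⟩ =
      Sigma.π (Seq_fam K) ⟨m⟩ ≫ K.map (homOfLE (Nat.le_succ m)) := by
    intro m
    refine Sigma.hom_ext _ _ fun ⟨n⟩ => ?_
    rw [Seq_ι_sh_assoc]
    by_cases hnm : n = m
    · subst hnm
      rw [Sigma.ι_π_eq_id, Sigma.ι_π_eq_id_assoc, Category.comp_id]
    · rw [Sigma.ι_π_of_ne _ (by simpa using hnm), Sigma.ι_π_of_ne_assoc _ (by simpa using hnm),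
        comp_zero, zero_comp]
  refine Seq_joint _ x fun ⟨n⟩ => ?_
  induction n with
  | zero => rw [hx', Category.assoc, s0, comp_zero]
  | succ n ih => rw [hx', Category.assoc, s1, ← Category.assoc, ih, zero_comp]

lemma Seq_tel_shortExact {K : ℕ ⥤ Ch C L} {c : Cocone K} (hc : IsColimit c) :
    (Seq_tel c).ShortExact := by
  have hepi : Epi (Seq_tel c).g := ⟨fun g g' h => hc.hom_ext fun n => by
    have := congrArg (Sigma.ι (Seq_fam K) ⟨n⟩ ≫ ·) h
    simpa [Seq_tel, Seq_ι_pr_assoc] using this⟩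
  refine ShortComplex.ShortExact.mk' ?_ (Seq_mono K) hepi
  refine ShortComplex.exact_of_g_is_cokernel _ (CokernelCofork.IsColimit.ofπ' _ _ fun {A} k hk => ?_)
  let s : Cocone K := ⟨A, NatTrans.ofSequence (fun n => Sigma.ι (Seq_fam K) ⟨n⟩ ≫ k) fun n => by
    have := congrArg (Sigma.ι (Seq_fam K) ⟨n⟩ ≫ ·) hk
    simp only [Seq_tel, Preadditive.sub_comp, Category.id_comp, Preadditive.comp_sub,
      Seq_ι_sh_assoc, comp_zero, sub_eq_zero] at this
    simpa using this.symm⟩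
  refine ⟨hc.desc s, Sigma.hom_ext _ _ fun ⟨n⟩ => ?_⟩
  exact (Seq_ι_pr_assoc c n _).trans (hc.fac s n)

/-- `Loc G` is closed under sequential colimits. -/
lemma Loc.of_seq {K : ℕ ⥤ Ch C L} {c : Cocone K} (hc : IsColimit c) (h : ∀ n, Loc G (K.obj n)) :
    Loc G c.pt :=
  Loc.right _ (Seq_tel_shortExact hc) (Loc.sum _ (Seq_fam K) fun i => h i.down)
    (Loc.sum _ (Seq_fam K) fun i => h i.down)

/-- `W` is closed under sequential colimits. -/
lemma WG.of_seq {K K' : ℕ ⥤ Ch C L} {c : Cocone K} (hc : IsColimit c) {c' : Cocone K'}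
    (hc' : IsColimit c') (τ : K ⟶ K') (f : c.pt ⟶ c'.pt)
    (hf : ∀ n, c.ι.app n ≫ f = τ.app n ≫ c'.ι.app n) (h : ∀ n, WG G (τ.app n)) : WG G f := by
  let σ : ∐ Seq_fam K ⟶ ∐ Seq_fam K' := Limits.Sigma.map fun i => τ.app i.down
  have hσ : WG G σ := WG.sigma _ fun i => h i.down
  let φ : Seq_tel c ⟶ Seq_tel c' :=
    { τ₁ := σ
      τ₂ := σ
      τ₃ := f
      comm₁₂ := by
        refine Sigma.hom_ext _ _ fun ⟨n⟩ => ?_
        simp [Seq_tel, σ, Preadditive.sub_comp, Preadditive.comp_sub, Seq_ι_sh_assoc, Seq_ι_sh]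
      comm₂₃ := by
        refine Sigma.hom_ext _ _ fun ⟨n⟩ => ?_
        simp [Seq_tel, σ, hf, Seq_ι_pr_assoc, Seq_ι_pr] }
  exact wg_τ₃ (Seq_tel_shortExact hc) (Seq_tel_shortExact hc') φ hσ hσ

/-- A countable composition of `W`-morphisms is a `W`-morphism. -/
lemma WG.of_seq_comp {K : ℕ ⥤ Ch C L} {c : Cocone K} (hc : IsColimit c)
    (h : ∀ n, WG G (K.map (homOfLE (Nat.le_succ n)))) : WG G (c.ι.app 0) := by
  let τ : (Functor.const ℕ).obj (K.obj 0) ⟶ K :=
    { app := fun n => K.map (homOfLE (Nat.zero_le n))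
      naturality := fun n m g => by
        change 𝟙 _ ≫ K.map _ = K.map _ ≫ K.map _
        rw [Category.id_comp, ← K.map_comp]
        rfl }
  refine WG.of_seq (isColimitConstCocone ℕ (K.obj 0)) hc τ (c.ι.app 0) (fun n => by simp [τ])
    fun n => ?_
  change WG G (K.map (homOfLE (Nat.zero_le n)))
  induction n with
  | zero =>
    have : IsIso (K.map (homOfLE (Nat.zero_le 0))) := inferInstanceAs (IsIso (K.map (𝟙 0)))
    exact WG.of_isIso _
  | succ n ih =>
    have := ih.comp (h n)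
    rwa [← K.map_comp] at this

lemma loc_sgl_iff (F : PSh C L) (p q : ℤ) : Loc G ((sgl p).obj F) ↔ Loc G ((sgl q).obj F) := by
  rw [← loc_shift_iff ((sgl q).obj F) (q - p)]
  exact loc_iff_of_iso
    (((CochainComplex.singleFunctors (PSh C L)).shiftIso (q - p) p q (by ring)).app F).symm

lemma Seq_wg_sgl {F F' : PSh C L} (f : F ⟶ F') (p : ℤ) (h : WG G ((sgl 0).map f)) :
    WG G ((sgl p).map f) := by
  let e := (CochainComplex.singleFunctors (PSh C L)).shiftIso (-p) p 0 (by ring)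
  exact (wg_iff_of_sq (e.hom.naturality f) (WG.of_isIso _) (WG.of_isIso _)).1
    ((wg_shift_iff _ (-p)).2 h)

/-- An object or zero, depending on a proposition. -/
structure Seq_Cut (P : Prop) (X : PSh C L) where
  Y : PSh C L
  ι : Y ⟶ X
  r : X ⟶ Y
  ι_r : ι ≫ r = 𝟙 Y
  pos : P → r ≫ ι = 𝟙 X
  neg : ¬ P → IsZero Y

open Classical in
/-- The choice of such an object. -/
def Seq_cut (P : Prop) (X : PSh C L) : Seq_Cut P X :=
  if h : P then ⟨X, 𝟙 X, 𝟙 X, Category.id_comp _, fun _ => Category.id_comp _, fun h' => absurd h h'⟩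
  else ⟨0, 0, 0, (isZero_zero _).eq_of_src _ _, fun h' => absurd h' h, fun _ => isZero_zero _⟩

lemma Seq_Cut.isIso_ι {P : Prop} {X : PSh C L} (c : Seq_Cut P X) (h : P) : IsIso c.ι :=
  ⟨c.r, c.ι_r, c.pos h⟩

lemma Seq_Cut.isIso_r {P : Prop} {X : PSh C L} (c : Seq_Cut P X) (h : P) : IsIso c.r :=
  ⟨c.ι, c.pos h, c.ι_r⟩

@[reassoc]
lemma Seq_Cut.r_ι {P : Prop} {X : PSh C L} (c : Seq_Cut P X) (h : P) : c.r ≫ c.ι = 𝟙 X := c.pos h

/-- The terms of the brutal truncation. -/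
abbrev Seq_c (K : Ch C L) (a n : ℤ) : Seq_Cut (a ≤ n) (K.X n) := Seq_cut _ _

/-- The brutal truncation in degrees at least `a`. -/
def Seq_tr (K : Ch C L) (a : ℤ) : Ch C L where
  X n := (Seq_c K a n).Y
  d i j := (Seq_c K a i).ι ≫ K.d i j ≫ (Seq_c K a j).r
  shape i j h := by rw [K.shape i j h, zero_comp, comp_zero]
  d_comp_d' i j k _ _ := by
    by_cases hj : a ≤ j
    · simp [Seq_Cut.r_ι_assoc _ hj]
    · rw [((Seq_c K a j).neg hj).eq_of_src ((Seq_c K a j).ι ≫ _) 0, comp_zero]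

/-- Its functoriality. -/
def Seq_map {K K' : Ch C L} (f : K ⟶ K') {a a' : ℤ} (h : a' ≤ a) : Seq_tr K a ⟶ Seq_tr K' a' where
  f n := (Seq_c K a n).ι ≫ f.f n ≫ (Seq_c K' a' n).r
  comm' i j hij := by
    have hij' : i + 1 = j := hij
    by_cases hi : a ≤ i
    · simp [Seq_tr, Seq_Cut.r_ι_assoc _ (h.trans hi), Seq_Cut.r_ι_assoc _ (show a ≤ j by omega)]
    · exact ((Seq_c K a i).neg hi).eq_of_src _ _

/-- The inclusion. -/
def Seq_inc (K : Ch C L) (a : ℤ) : Seq_tr K a ⟶ K where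
  f n := (Seq_c K a n).ι
  comm' i j hij := by
    have hij' : i + 1 = j := hij
    by_cases hi : a ≤ i
    · simp [Seq_tr, Seq_Cut.r_ι _ (show a ≤ j by omega)]
    · exact ((Seq_c K a i).neg hi).eq_of_src _ _

lemma Seq_map_id (K : Ch C L) (a : ℤ) : Seq_map (𝟙 K) (le_refl a) = 𝟙 _ := by
  ext n : 1
  simp [Seq_map, Seq_Cut.ι_r, Seq_tr]

lemma Seq_map_comp {K K' K'' : Ch C L} (f : K ⟶ K') (g : K' ⟶ K'') {a a' a'' : ℤ} (h : a' ≤ a)
    (h' : a'' ≤ a') : Seq_map f h ≫ Seq_map g h' = Seq_map (f ≫ g) (h'.trans h) := by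
  ext n : 1
  by_cases hn : a ≤ n
  · simp [Seq_map, Seq_Cut.r_ι_assoc _ (h.trans hn)]
  · exact ((Seq_c K a n).neg hn).eq_of_src _ _

lemma Seq_map_inc {K K' : Ch C L} (f : K ⟶ K') {a a' : ℤ} (h : a' ≤ a) :
    Seq_map f h ≫ Seq_inc K' a' = Seq_inc K a ≫ f := by
  ext n : 1
  by_cases hn : a ≤ n
  · simp [Seq_map, Seq_inc, Seq_Cut.r_ι _ (h.trans hn)]
  · exact ((Seq_c K a n).neg hn).eq_of_src _ _

/-- The projection to the lowest term. -/
def Seq_low (K : Ch C L) (a : ℤ) : Seq_tr K a ⟶ (sgl a).obj (K.X a) :=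
  HomologicalComplex.mkHomToSingle (Seq_c K a a).ι fun i hi => by
    have hi' : i + 1 = a := hi
    exact ((Seq_c K a i).neg (by omega)).eq_of_src _ _

lemma Seq_low_f (K : Ch C L) (a : ℤ) : (Seq_low K a).f a =
    (Seq_c K a a).ι ≫ (HomologicalComplex.singleObjXSelf _ a (K.X a)).inv :=
  HomologicalComplex.mkHomToSingle_f _ _

/-- One step of the brutal filtration. -/
def Seq_step (K : Ch C L) {a a' : ℤ} (h : a' + 1 = a) : ShortComplex (Ch C L) :=
  ShortComplex.mk (Seq_map (𝟙 K) (show a' ≤ a by omega)) (Seq_low K a')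
    (HomologicalComplex.to_single_hom_ext (((Seq_c K a a').neg (by omega)).eq_of_src _ _))

lemma Seq_step_shortExact (K : Ch C L) {a a' : ℤ} (h : a' + 1 = a) : (Seq_step K h).ShortExact := by
  refine HomologicalComplex.shortExact_of_degreewise_shortExact _ fun n => ?_
  by_cases hn : n = a'
  · subst hn
    refine (ShortComplex.Splitting.ofIsZeroOfIsIso _ ((Seq_c K a n).neg (by omega)) ?_).shortExact
    change IsIso ((Seq_low K n).f n)
    have := (Seq_c K n n).isIso_ι le_rfl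
    rw [Seq_low_f]
    infer_instance
  · refine (ShortComplex.Splitting.ofIsIsoOfIsZero _ ?_
      (HomologicalComplex.isZero_single_obj_X (ComplexShape.up ℤ) a' (K.X a') n hn)).shortExact
    change IsIso ((Seq_c K a n).ι ≫ 𝟙 _ ≫ (Seq_c K a' n).r)
    by_cases ha : a ≤ n
    · have := (Seq_c K a n).isIso_ι ha
      have := (Seq_c K a' n).isIso_r (by omega)
      infer_instance
    · exact isIso_of_source_target_iso_zero _ ((Seq_c K a n).neg ha).isoZero
        ((Seq_c K a' n).neg (by omega)).isoZero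

lemma Seq_wg_step {K K' : Ch C L} (f : K ⟶ K') {a a' : ℤ} (h : a' + 1 = a)
    (h1 : WG G (Seq_map f (le_refl a))) (h2 : WG G ((sgl a').map (f.f a'))) :
    WG G (Seq_map f (le_refl a')) := by
  let φ : Seq_step K h ⟶ Seq_step K' h :=
    { τ₁ := Seq_map f (le_refl a)
      τ₂ := Seq_map f (le_refl a')
      τ₃ := (sgl a').map (f.f a')
      comm₁₂ := by simp [Seq_step, Seq_map_comp]
      comm₂₃ := by
        refine HomologicalComplex.to_single_hom_ext ?_
        simp [Seq_step, Seq_low_f, Seq_map, Seq_Cut.r_ι_assoc _ (le_refl a'),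
          HomologicalComplex.single_map_f_self] }
  exact wg_τ₂ (Seq_step_shortExact K h) (Seq_step_shortExact K' h) φ h1 h2

/-- The brutal filtration. -/
def Seq_fil (K : Ch C L) (b : ℤ) : ℕ ⥤ Ch C L where
  obj n := Seq_tr K (b - n)
  map {n m} g := Seq_map (𝟙 K) (by have := leOfHom g; omega)
  map_id _ := Seq_map_id _ _
  map_comp _ _ := by rw [Seq_map_comp, Category.id_comp]

/-- The complex as a cocone on its brutal filtration. -/
def Seq_cocone (K : Ch C L) (b : ℤ) : Cocone (Seq_fil K b) where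
  pt := K
  ι := { app := fun n => Seq_inc K (b - n)
         naturality := fun _ _ _ => by simp [Seq_fil, Seq_map_inc] }

/-- It is a colimit. -/
def Seq_isColimit (K : Ch C L) (b : ℤ) : IsColimit (Seq_cocone K b) :=
  HomologicalComplex.isColimitOfEval _ _ fun i => by
    have hev : (Seq_fil K b ⋙ HomologicalComplex.eval _ _ i).IsEventuallyConstantFrom
        (b - i).toNat := fun m g => by
      have := leOfHom g
      have := (Seq_c K (b - ((b - i).toNat : ℕ)) i).isIso_ι (by omega)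
      have := (Seq_c K (b - m) i).isIso_r (by omega)
      exact inferInstanceAs (IsIso ((Seq_c K (b - ((b - i).toNat : ℕ)) i).ι ≫ 𝟙 _ ≫
        (Seq_c K (b - m) i).r))
    have : IsIso (((HomologicalComplex.eval _ _ i).mapCocone (Seq_cocone K b)).ι.app
        (b - i).toNat) := (Seq_c K (b - ((b - i).toNat : ℕ)) i).isIso_ι (by omega)
    exact hev.isColimitOfIsIso _

lemma Seq_isZero {K : Ch C L} {b : ℤ} (hb : ∀ n, b < n → IsZero (K.X n)) {a : ℤ} (ha : b < a) :
    IsZero (Seq_tr K a) := by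
  rw [IsZero.iff_id_eq_zero]
  ext n : 1
  by_cases hn : a ≤ n
  · have := (Seq_c K a n).isIso_ι hn
    exact ((hb n (by omega)).of_iso (asIso (Seq_c K a n).ι)).eq_of_src _ _
  · exact ((Seq_c K a n).neg hn).eq_of_src _ _

lemma Seq_wg_terms {K K' : Ch C L} (f : K ⟶ K') (b : ℤ) (hb : ∀ n, b < n → IsZero (K.X n))
    (hb' : ∀ n, b < n → IsZero (K'.X n)) (h : ∀ n, WG G ((sgl 0).map (f.f n))) : WG G f := by
  let τ : Seq_fil K (b + 1) ⟶ Seq_fil K' (b + 1) :=
    { app := fun n => Seq_map f (le_refl _)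
      naturality := fun _ _ _ => by simp [Seq_fil, Seq_map_comp] }
  refine WG.of_seq (Seq_isColimit K (b + 1)) (Seq_isColimit K' (b + 1)) τ f
    (fun n => (Seq_map_inc f (le_refl _)).symm) fun n => ?_
  change WG G (Seq_map f (le_refl (b + 1 - n)))
  induction n with
  | zero =>
    exact WG.of_loc _ (Loc.of_isZero (Seq_isZero hb (by omega)))
      (Loc.of_isZero (Seq_isZero hb' (by omega)))
  | succ n ih => exact Seq_wg_step f (by omega) ih (Seq_wg_sgl _ _ (h _))

/-- A bounded above complex whose terms are in `Loc G` is in `Loc G`. -/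
lemma Loc.of_terms {K : Ch C L} (b : ℤ) (hb : ∀ n, b < n → IsZero (K.X n))
    (h : ∀ n, Loc G ((sgl 0).obj (K.X n))) : Loc G K := by
  have hz : ∀ n, IsZero ((0 : Ch C L).X n) := fun n =>
    (HomologicalComplex.eval _ _ n).map_isZero (isZero_zero _)
  exact (Seq_wg_terms (0 : K ⟶ 0) b hb (fun n _ => hz n) fun n =>
    WG.of_loc _ (h n) (Loc.of_isZero ((sgl 0).map_isZero (hz n)))).loc_iff.2 Loc.zero

/-- A morphism of bounded above complexes which is termwise in `W` is in `W`. -/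
lemma WG.of_terms {K K' : Ch C L} (f : K ⟶ K') (b : ℤ) (hb : ∀ n, b < n → IsZero (K.X n))
    (hb' : ∀ n, b < n → IsZero (K'.X n)) (h : ∀ n, WG G ((sgl 0).map (f.f n))) : WG G f :=
  Seq_wg_terms f b hb hb' h

end Pool.Agent.KEW
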