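import Pool.Agent.P.MP_6277db_ag.KEW.L1.Rep
import Pool.Agent.P.MP_6277db_ag.KEW.L1.Seq

/-!
The small object argument for complexes of presheaves, in a form which keeps track of transfers.
-/

set_option backward.isDefEq.respectTransparency false

noncomputable section

open CategoryTheory Limits Pretriangulated ZeroObject Opposite

namespace Pool.Agent.KEW

variable {C : Type 1} [Category.{0} C] {C' : Type 1} [Category.{0} C'] {L : Type 1} [CommRing L]

/-- A class of presheaves closed under direct sums and sequential colimits. -/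
structure ClosedCl (P : PSh C' L → Prop) : Prop where
  sum : ∀ {ι : Type 1} (F : ι → PSh C' L) (c : Cofan F), IsColimit c → (∀ i, P (F i)) → P c.pt
  seq : ∀ (F : ℕ ⥤ PSh C' L) (c : Cocone F), IsColimit c → (∀ n, P (F.obj n)) → P c.pt

lemma ClosedCl.of_iso {P : PSh C' L → Prop} (h : ClosedCl P) {F F' : PSh C' L} (e : F ≅ F')
    (hF : P F) : P F' :=
  h.sum (fun _ : PUnit.{2} => F) (Cofan.mk F' fun _ => e.hom)
    (Cofan.IsColimit.mk _ (fun t => e.inv ≫ t.inj PUnit.unit) (fun t j => by simp)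
      (fun t m hm => by simp [← hm])) fun _ => hF

lemma ClosedCl.of_isZero {P : PSh C' L → Prop} (h : ClosedCl P) {F : PSh C' L} (hF : IsZero F) :
    P F :=
  h.sum (fun _ : PEmpty.{2} => F) (Cofan.mk F fun _ => 𝟙 F)
    (Cofan.IsColimit.mk _ (fun _ => 0) (fun _ j => j.elim) (fun _ _ _ => hF.eq_of_src _ _))
    fun i => i.elim

lemma ClosedCl.biprod {P : PSh C' L → Prop} (h : ClosedCl P) {F F' : PSh C' L} (hF : P F)
    (hF' : P F') : P (F ⊞ F') := by
  let X : ULift.{1} Bool → PSh C' L := fun b => match b with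
    | ⟨true⟩ => F
    | ⟨false⟩ => F'
  let ι : ∀ b, X b ⟶ F ⊞ F' := fun b => match b with
    | ⟨true⟩ => Limits.biprod.inl
    | ⟨false⟩ => Limits.biprod.inr
  refine h.sum X (Cofan.mk (F ⊞ F') ι)
    (Cofan.IsColimit.mk _ (fun t => Limits.biprod.desc (t.inj ⟨true⟩) (t.inj ⟨false⟩)) ?_ ?_) ?_
  · rintro t ⟨_ | _⟩
    · exact Limits.biprod.inr_desc _ _
    · exact Limits.biprod.inl_desc _ _
  · intro t m hm
    refine Limits.biprod.hom_ext' _ _ ?_ ?_
    · exact (hm ⟨true⟩).trans (Limits.biprod.inl_desc _ _).symm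
    · exact (hm ⟨false⟩).trans (Limits.biprod.inr_desc _ _).symm
  · rintro ⟨_ | _⟩
    · exact hF'
    · exact hF

lemma closedCl_top : ClosedCl fun _ : PSh C' L => True := ⟨by simp, by simp⟩

lemma additive_of_isColimit [Preadditive C'] {J : Type*} [Category J]
    [HasColimitsOfShape J (ModuleCat.{1} L)] {F : J ⥤ PSh C' L} {c : Cocone F} (hc : IsColimit c)
    (h : ∀ j, (F.obj j).Additive) : c.pt.Additive where
  map_add {U V f g} := by
    refine (isColimitOfPreserves ((evaluation _ _).obj U) hc).hom_ext fun j => ?_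
    have := h j
    have e := (c.ι.app j).naturality
    dsimp at e ⊢
    rw [Preadditive.comp_add, ← e, ← e, ← e, Functor.map_add, Preadditive.add_comp]

/-- Additive presheaves on a preadditive category form a closed class. -/
lemma closedCl_additive [Preadditive C'] : ClosedCl fun F : PSh C' L => F.Additive :=
  ⟨fun _ _ hc h => additive_of_isColimit hc fun j => h j.as,
    fun _ _ hc h => additive_of_isColimit hc h⟩

instance (R : PSh C' L ⥤ PSh C L) [IsExact R] : PreservesColimitsOfSize.{1, 1} R :=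
  preservesColimits_of_preservesCoequalizers_and_coproducts R

instance (R : PSh C' L ⥤ PSh C L) [IsExact R] : PreservesColimitsOfSize.{0, 0} R :=
  preservesColimitsOfSize_shrink R

variable (R : PSh C' L ⥤ PSh C L) (P : PSh C' L → Prop)

/-- The map `η : A ⟶ R A'` is universal among maps to images of objects of `P`, and `A` is
projective and compact. -/
structure GoodTerm {A : PSh C L} {A' : PSh C' L} (η : A ⟶ R.obj A') : Prop where
  mem : P A'
  univ : ∀ F, P F → Function.Bijective fun a : A' ⟶ F => η ≫ R.map a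
  proj : Projective A
  cpt : ∀ (F : ℕ ⥤ PSh C L) (c : Cocone F), IsColimit c → ∀ a : A ⟶ c.pt,
    ∃ (n : ℕ) (b : A ⟶ F.obj n), b ≫ c.ι.app n = a

variable {R P} in
lemma GoodTerm.of_iso (hP : ClosedCl P) {A B : PSh C L} {A' B' : PSh C' L} {η : A ⟶ R.obj A'}
    (h : GoodTerm R P η) (e : B ≅ A) (e' : A' ≅ B') {η' : B ⟶ R.obj B'}
    (w : η' = e.hom ≫ η ≫ R.map e'.hom) : GoodTerm R P η' where
  mem := hP.of_iso e' h.mem
  univ F hF := by
    constructor
    · intro a b hab
      dsimp at hab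
      simp only [w, Category.assoc, cancel_epi, ← R.map_comp] at hab
      simpa [cancel_epi] using (h.univ F hF).1 hab
    · intro φ
      obtain ⟨a, ha⟩ := (h.univ F hF).2 (e.inv ≫ φ)
      refine ⟨e'.inv ≫ a, ?_⟩
      dsimp at ha ⊢
      rw [w, Category.assoc, Category.assoc, ← R.map_comp, Iso.hom_inv_id_assoc, ha,
        Iso.hom_inv_id_assoc]
  proj := by
    have := h.proj
    exact Projective.of_iso e.symm this
  cpt F c hc a := by
    obtain ⟨n, b, hb⟩ := h.cpt F c hc (e.inv ≫ a)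
    exact ⟨n, e.hom ≫ b, by rw [Category.assoc, hb, Iso.hom_inv_id_assoc]⟩

variable {R P} in
lemma GoodTerm.of_isZero (hP : ClosedCl P) {A : PSh C L} {A' : PSh C' L} (η : A ⟶ R.obj A')
    (hA : IsZero A) (hA' : IsZero A') : GoodTerm R P η where
  mem := hP.of_isZero hA'
  univ _ _ := ⟨fun _ _ _ => hA'.eq_of_src _ _, fun _ => ⟨0, hA.eq_of_src _ _⟩⟩
  proj := hA.projective
  cpt _ _ _ _ := ⟨0, 0, hA.eq_of_src _ _⟩

variable {R P} in
lemma GoodTerm.of_sum (hP : ClosedCl P) {A A₁ A₂ : PSh C L} {A' A₁' A₂' : PSh C' L}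
    {η₁ : A₁ ⟶ R.obj A₁'} {η₂ : A₂ ⟶ R.obj A₂'} (h₁ : GoodTerm R P η₁) (h₂ : GoodTerm R P η₂)
    (e : A ≅ A₁ ⊞ A₂) (e' : A' ≅ A₁' ⊞ A₂') {η : A ⟶ R.obj A'}
    (w₁ : biprod.inl ≫ e.inv ≫ η = η₁ ≫ R.map (biprod.inl ≫ e'.inv))
    (w₂ : biprod.inr ≫ e.inv ≫ η = η₂ ≫ R.map (biprod.inr ≫ e'.inv)) : GoodTerm R P η where
  mem := hP.of_iso e'.symm (hP.biprod h₁.mem h₂.mem)
  univ F hF := by
    constructor
    · intro a b hab
      dsimp at hab
      rw [← cancel_epi e'.inv]
      refine biprod.hom_ext' _ _ ((h₁.univ F hF).1 ?_) ((h₂.univ F hF).1 ?_)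
      · dsimp
        rw [← Category.assoc biprod.inl, ← Category.assoc biprod.inl, R.map_comp _ a,
          R.map_comp _ b, ← reassoc_of% w₁, ← reassoc_of% w₁, hab]
      · dsimp
        rw [← Category.assoc biprod.inr, ← Category.assoc biprod.inr, R.map_comp _ a,
          R.map_comp _ b, ← reassoc_of% w₂, ← reassoc_of% w₂, hab]
    · intro φ
      obtain ⟨a₁, ha₁⟩ := (h₁.univ F hF).2 (biprod.inl ≫ e.inv ≫ φ)
      obtain ⟨a₂, ha₂⟩ := (h₂.univ F hF).2 (biprod.inr ≫ e.inv ≫ φ)
      refine ⟨e'.hom ≫ biprod.desc a₁ a₂, ?_⟩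
      dsimp at ha₁ ha₂ ⊢
      rw [← cancel_epi e.inv]
      refine biprod.hom_ext' _ _ ?_ ?_
      · rw [reassoc_of% w₁, ← R.map_comp, ← ha₁]
        simp
      · rw [reassoc_of% w₂, ← R.map_comp, ← ha₂]
        simp
  proj := by
    have := h₁.proj
    have := h₂.proj
    exact Projective.of_iso e.symm inferInstance
  cpt F c hc a := by
    obtain ⟨n₁, b₁, hb₁⟩ := h₁.cpt F c hc (biprod.inl ≫ e.inv ≫ a)
    obtain ⟨n₂, b₂, hb₂⟩ := h₂.cpt F c hc (biprod.inr ≫ e.inv ≫ a)
    refine ⟨max n₁ n₂, e.hom ≫ biprod.desc (b₁ ≫ F.map (homOfLE (le_max_left _ _)))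
      (b₂ ≫ F.map (homOfLE (le_max_right _ _))), ?_⟩
    rw [← cancel_epi e.inv]
    refine biprod.hom_ext' _ _ ?_ ?_
    · simp [← hb₁]
    · simp [← hb₂]

variable [IsExact R]

/-- A finite cell complex `T` together with its universal lift `T'` along `R`. -/
structure FinCell (T : Ch C L) where
  /-- The lifted complex. -/
  T' : Ch C' L
  /-- The universal map. -/
  η : T ⟶ (mapC R).obj T'
  good : ∀ n, GoodTerm R P (η.f n)
  bdd : ∃ s : Finset ℤ, ∀ n ∉ s, IsZero (T.X n)

variable {R P}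

/-- The map of single complexes attached to a map `A ⟶ R A'`. -/
def sglLift {A : PSh C L} {A' : PSh C' L} (η : A ⟶ R.obj A') (q : ℤ) :
    (sgl q).obj A ⟶ (mapC R).obj ((sgl q).obj A') :=
  (sgl q).map η ≫ (HomologicalComplex.singleMapHomologicalComplex R _ q).inv.app A'

/-- A good term placed in one degree is a finite cell complex. -/
def FinCell.single (hP : ClosedCl P) {A : PSh C L} {A' : PSh C' L} {η : A ⟶ R.obj A'}
    (h : GoodTerm R P η) (q : ℤ) : FinCell R P ((sgl q).obj A) where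
  T' := (sgl q).obj A'
  η := sglLift η q
  good n := by
    by_cases hn : n = q
    · subst hn
      refine h.of_iso hP (HomologicalComplex.singleObjXSelf _ n A)
        (HomologicalComplex.singleObjXSelf _ n A').symm ?_
      simp [sglLift, HomologicalComplex.single_map_f_self]
    · exact GoodTerm.of_isZero hP _ (HomologicalComplex.isZero_single_obj_X _ _ _ _ hn)
        (HomologicalComplex.isZero_single_obj_X _ _ _ _ hn)
  bdd := ⟨{q}, fun n hn => HomologicalComplex.isZero_single_obj_X _ _ _ _ (by simpa using hn)⟩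

/-- The terms of a mapping cone. -/
def coneXIso {T₁ T₂ : Ch C L} (f : T₁ ⟶ T₂) (n : ℤ) :
    (CochainComplex.mappingCone f).X n ≅ T₁.X (n + 1) ⊞ T₂.X n where
  hom := biprod.lift ((CochainComplex.mappingCone.fst f).1.v n (n + 1) rfl)
    ((CochainComplex.mappingCone.snd f).v n n (add_zero n))
  inv := biprod.desc ((CochainComplex.mappingCone.inl f).v (n + 1) n (by simp))
    ((CochainComplex.mappingCone.inr f).f n)
  hom_inv_id := by
    rw [biprod.lift_desc]
    exact CochainComplex.mappingCone.id_X f n (n + 1) rfl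
  inv_hom_id := by
    refine biprod.hom_ext' _ _ (biprod.hom_ext _ _ ?_ ?_) (biprod.hom_ext _ _ ?_ ?_)
    all_goals simp

/-- The cone of a map of finite cell complexes is a finite cell complex. -/
def FinCell.cone (hP : ClosedCl P) {T₁ T₂ : Ch C L} (c₁ : FinCell R P T₁) (c₂ : FinCell R P T₂)
    (f : T₁ ⟶ T₂) (f' : c₁.T' ⟶ c₂.T') (w : f ≫ c₂.η = c₁.η ≫ (mapC R).map f') :
    FinCell R P (CochainComplex.mappingCone f) where
  T' := CochainComplex.mappingCone f'
  η := CochainComplex.mappingCone.map f ((mapC R).map f') c₁.η c₂.η w ≫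
    (CochainComplex.mappingCone.mapHomologicalComplexIso f' R).inv
  good n := by
    refine (c₁.good (n + 1)).of_sum hP (c₂.good n) (coneXIso f n) (coneXIso f' n) ?_ ?_
    all_goals
      simp [coneXIso, CochainComplex.mappingCone.map,
        CochainComplex.mappingCone.mapHomologicalComplexIso,
        CochainComplex.mappingCone.mapHomologicalComplexXIso]
  bdd := by
    obtain ⟨s₁, h₁⟩ := c₁.bdd
    obtain ⟨s₂, h₂⟩ := c₂.bdd
    refine ⟨s₁.image (· - 1) ∪ s₂, fun n hn => ?_⟩
    rw [CochainComplex.mappingCone.isZero_X_iff]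
    simp only [Finset.mem_union, Finset.mem_image, not_or, not_exists, not_and] at hn
    exact ⟨h₁ _ fun h => hn.1 _ h (by simp), h₂ _ hn.2⟩

/-- The shift of a finite cell complex is a finite cell complex. -/
def FinCell.shift {T : Ch C L} (c : FinCell R P T) (n : ℤ) : FinCell R P (T⟦n⟧) where
  T' := c.T'⟦n⟧
  η := c.η⟦n⟧' ≫ ((mapC R).commShiftIso n).inv.app c.T'
  good k := by
    have e : (c.η⟦n⟧' ≫ ((mapC R).commShiftIso n).inv.app c.T').f k = c.η.f (k + n) := by
      simp
    rw [e]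
    exact c.good (k + n)
  bdd := by
    obtain ⟨s, h⟩ := c.bdd
    refine ⟨s.image (· - n), fun k hk => h (k + n) fun h' => hk ?_⟩
    exact Finset.mem_image.2 ⟨_, h', by simp⟩

lemma FinCell.isKProjective {T : Ch C L} (c : FinCell R P T) : T.IsKProjective := by
  obtain ⟨s, h⟩ := c.bdd
  obtain ⟨d, hd⟩ := s.bddAbove
  have : T.IsStrictlyLE d := by
    rw [CochainComplex.isStrictlyLE_iff]
    exact fun i hi => h i fun hs => absurd (hd hs) (not_le.2 hi)
  have : ∀ n, Projective (T.X n) := fun n => (c.good n).proj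
  exact CochainComplex.isKProjective_of_projective T d

lemma FinCell.exists_lift {T : Ch C L} (c : FinCell R P T) {X : Ch C' L} (hX : ∀ n, P (X.X n))
    (φ : T ⟶ (mapC R).obj X) : ∃ φ' : c.T' ⟶ X, c.η ≫ (mapC R).map φ' = φ := by
  choose a ha using fun n => ((c.good n).univ _ (hX n)).2 (φ.f n)
  refine ⟨{ f := a, comm' := fun i j _ => ((c.good i).univ _ (hX j)).1 ?_ }, ?_⟩
  · have e : c.η.f i ≫ R.map (c.T'.d i j) = T.d i j ≫ c.η.f j := c.η.comm i j
    have e' : φ.f i ≫ R.map (X.d i j) = T.d i j ≫ φ.f j := φ.comm i j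
    dsimp at ha ⊢
    rw [R.map_comp, R.map_comp, reassoc_of% (ha i), reassoc_of% e, ha, e']
  · ext n : 1
    exact ha n

lemma FinCell.compact {T : Ch C L} (c : FinCell R P T) {K : ℕ ⥤ Ch C L} {s : Cocone K}
    (hs : IsColimit s) (hm : ∀ n, Mono (s.ι.app n)) (φ : T ⟶ s.pt) :
    ∃ (n : ℕ) (ψ : T ⟶ K.obj n), ψ ≫ s.ι.app n = φ := by
  obtain ⟨t, ht⟩ := c.bdd
  choose N b hb using fun k => (c.good k).cpt (K ⋙ HomologicalComplex.eval _ _ k) _
    (isColimitOfPreserves (HomologicalComplex.eval _ _ k) hs) (φ.f k)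
  have key : ∀ k, ∃ b' : T.X k ⟶ (K.obj (t.sup N)).X k, b' ≫ (s.ι.app (t.sup N)).f k = φ.f k := by
    intro k
    by_cases hk : k ∈ t
    · refine ⟨b k ≫ (K.map (homOfLE (Finset.le_sup hk))).f k, ?_⟩
      rw [Category.assoc, ← HomologicalComplex.comp_f, s.w]
      exact hb k
    · exact ⟨0, (ht k hk).eq_of_src _ _⟩
  choose b' hb' using key
  refine ⟨t.sup N, { f := b', comm' := fun i j _ => ?_ }, ?_⟩
  · have := hm (t.sup N)
    rw [← cancel_mono ((s.ι.app (t.sup N)).f j), Category.assoc, Category.assoc, hb',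
      ← HomologicalComplex.Hom.comm, ← Category.assoc, hb']
    exact φ.comm i j
  · ext n : 1
    exact hb' n

section small

variable {J : Type 1} (T : J → Ch C' L)

/-- The map attaching all cells to `Y`. -/
def cellMap (Y : Ch C' L) : (∐ fun x : Σ j : J, (T j ⟶ Y) => T x.1) ⟶ Y :=
  Sigma.desc fun x => x.2

/-- The sequence of complexes obtained by attaching cells. -/
def cellSeq (X : Ch C' L) : ℕ → Ch C' L
  | 0 => X
  | n + 1 => CochainComplex.mappingCone (cellMap T (cellSeq X n))

/-- The functor attached to `cellSeq`. -/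
def cellFun (X : Ch C' L) : ℕ ⥤ Ch C' L :=
  Functor.ofSequence (X := cellSeq T X) fun n =>
    CochainComplex.mappingCone.inr (cellMap T (cellSeq T X n))

lemma cellFun_map_succ (X : Ch C' L) (n : ℕ) :
    (cellFun T X).map (homOfLE (Nat.le_succ n)) =
      CochainComplex.mappingCone.inr (cellMap T (cellSeq T X n)) :=
  Functor.ofSequence_map_homOfLE_succ _ n

lemma mono_inr {X Y : Ch C' L} (f : X ⟶ Y) : Mono (CochainComplex.mappingCone.inr f) :=
  (cone_shortExact f).mono_f

lemma mono_cellFun_map (X : Ch C' L) (i j : ℕ) (φ : i ⟶ j) : Mono ((cellFun T X).map φ) := by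
  suffices h : ∀ (j : ℕ) (h : i ≤ j), Mono ((cellFun T X).map (homOfLE h)) from h j (leOfHom φ)
  intro j h
  induction j, h using Nat.le_induction with
  | base =>
    have e : homOfLE (le_refl i) = 𝟙 i := rfl
    rw [e, CategoryTheory.Functor.map_id]
    infer_instance
  | succ j hij ih =>
    rw [← homOfLE_comp hij (Nat.le_succ j), Functor.map_comp, cellFun_map_succ]
    have := mono_inr (cellMap T (cellSeq T X j))
    exact mono_comp _ _

lemma mono_cell_ι (X : Ch C' L) (n : ℕ) : Mono (colimit.ι (cellFun T X) n) :=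
  have := mono_cellFun_map T X
  have : AB5OfSize.{0, 0} (ModuleCat.{1} L) := AB5OfSize_shrink _
  have : HasExactColimitsOfShape (Under n) (Ch C' L) := inferInstance
  (colimit.isColimit (cellFun T X)).mono_ι_app_of_isFiltered n

omit [IsExact R] in
lemma cellSeq_mem (hP : ClosedCl P) (hT : ∀ j n, P ((T j).X n)) {X : Ch C' L}
    (hX : ∀ n, P (X.X n)) (k : ℕ) : ∀ n, P ((cellSeq T X k).X n) := by
  induction k with
  | zero => exact hX
  | succ k ih =>
    intro n
    refine hP.of_iso (coneXIso _ n).symm (hP.biprod ?_ (ih n))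
    exact hP.sum _ _ (isColimitCofanMkObjOfIsColimit (HomologicalComplex.eval _ _ (n + 1)) _ _
      (coproductIsCoproduct _)) fun x => hT x.1 _

lemma wg_cell_ι {G : Ch C' L → Prop} (hT : ∀ j, Loc G (T j)) (X : Ch C' L) :
    WG G (colimit.ι (cellFun T X) 0) := by
  refine WG.of_seq_comp (colimit.isColimit (cellFun T X)) fun n => ?_
  rw [cellFun_map_succ]
  exact (wg_f_iff (cone_shortExact (cellMap T (cellSeq T X n)))).2
    ((Loc.sum _ (fun x : Σ j : J, (T j ⟶ cellSeq T X n) => T x.1) fun x => hT x.1).shift 1)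

lemma cell_homotopy (X : Ch C' L) (n : ℕ) (j : J) (φ : T j ⟶ (cellFun T X).obj n) :
    Nonempty (Homotopy (φ ≫ (cellFun T X).map (homOfLE (Nat.le_succ n))) 0) := by
  rw [cellFun_map_succ]
  have e : φ = Sigma.ι (fun x : Σ j : J, (T j ⟶ cellSeq T X n) => T x.1) ⟨j, φ⟩ ≫
      cellMap T (cellSeq T X n) := by simp [cellMap]
  refine ⟨(Homotopy.ofEq ?_).trans (((HomologicalComplex.homotopyCofiber.inrCompHomotopy
    (cellMap T (cellSeq T X n)) fun j => ⟨j - 1, by simp⟩).compLeft
      (Sigma.ι (fun x : Σ j : J, (T j ⟶ cellSeq T X n) => T x.1) ⟨j, φ⟩)).trans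
      (Homotopy.ofEq (by simp)))⟩
  rw [← Category.assoc, ← e]
  rfl

end small

/-- The small object argument. -/
theorem exists_replacement (hP : ClosedCl P) {ι : Type 1} {T : ι → Ch C L}
    (c : ∀ i, FinCell R P (T i)) (X : Ch C' L) (hX : ∀ n, P (X.X n)) :
    ∃ (X' : Ch C' L) (j : X ⟶ X'), Mono j ∧ (∀ n, P (X'.X n)) ∧
      WG (fun K => ∃ i, K = (c i).T') j ∧ ∀ i, Orth (G0 C L) (T i) ((mapC R).obj X') := by
  let T' : ι × ℤ → Ch C' L := fun j => ((c j.1).shift j.2).T'
  have hT' : ∀ j n, P ((T' j).X n) := fun j n => (((c j.1).shift j.2).good n).mem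
  have hs := cellSeq_mem T' hP hT' hX
  refine ⟨colimit (cellFun T' X), colimit.ι (cellFun T' X) 0, mono_cell_ι T' X 0, fun n => ?_,
    wg_cell_ι T' (fun j => Loc.shift (Loc.gen _ ⟨j.1, rfl⟩) j.2) X, fun i => ?_⟩
  · exact hP.seq (cellFun T' X ⋙ HomologicalComplex.eval _ _ n) _
      (isColimitOfPreserves (HomologicalComplex.eval _ _ n) (colimit.isColimit _))
      fun k => hs k n
  · have := (c i).isKProjective
    rw [orth_G0_iff]
    intro n g
    obtain ⟨m, ψ, rfl⟩ := ((c i).shift n).compact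
      (isColimitOfPreserves (mapC R) (colimit.isColimit (cellFun T' X)))
      (fun k => by
        have := mono_cell_ι T' X k
        exact inferInstanceAs (Mono ((mapC R).map (colimit.ι (cellFun T' X) k)))) g
    obtain ⟨φ, rfl⟩ := ((c i).shift n).exists_lift (hs m) ψ
    obtain ⟨h⟩ := cell_homotopy T' X m (i, n) φ
    refine ⟨(Homotopy.ofEq ?_).trans ((((R.mapHomotopy h).compRight
      ((mapC R).map (colimit.ι (cellFun T' X) (m + 1)))).compLeft ((c i).shift n).η).trans
      (Homotopy.ofEq (by simp)))⟩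
    rw [← Functor.map_comp, Category.assoc, Category.assoc, colimit.w, Functor.map_comp]
    rfl

/-- Data describing presheaves with transfers: a functor `γ`, a class `P` of presheaves on the
target, and objects `ρ U` of `P` representing the sections over `γ U`. -/
structure TrData (L : Type 1) [CommRing L] (γ : C ⥤ C') where
  /-- The class of admissible presheaves. -/
  P : PSh C' L → Prop
  closed : ClosedCl P
  /-- The representing objects. -/
  ρ : C ⥤ PSh C' L
  mem : ∀ U, P (ρ.obj U)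
  /-- The universal sections. -/
  e : ∀ U, (ρ.obj U).obj (op (γ.obj U))
  e_nat : ∀ {U V : C} (φ : V ⟶ U),
    (ρ.map φ).app (op (γ.obj V)) (e V) = (ρ.obj U).map (γ.map φ).op (e U)
  yoneda : ∀ (U : C) (F : PSh C' L), P F →
    Function.Bijective fun a : ρ.obj U ⟶ F => a.app (op (γ.obj U)) (e U)

/-- The natural map from representables to the restriction of the representing objects. -/
def TrData.unit {γ : C ⥤ C'} (d : TrData L γ) : rep C L ⟶ d.ρ ⋙ rs L γ where
  app U := (repEquiv U ((rs L γ).obj (d.ρ.obj U))).symm (d.e U)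
  naturality V U φ := (repSec_bijective V _).1 (by
    have e : ∀ U, repSec ((repEquiv U ((rs L γ).obj (d.ρ.obj U))).symm (d.e U)) = d.e U :=
      fun U => (repEquiv U ((rs L γ).obj (d.ρ.obj U))).apply_symm_apply _
    rw [repSec_map_comp, repSec_comp, e, e]
    exact (d.e_nat φ).symm)

lemma TrData.repSec_unit {γ : C ⥤ C'} (d : TrData L γ) (U : C) :
    repSec (d.unit.app U) = d.e U :=
  (repEquiv U ((rs L γ).obj (d.ρ.obj U))).apply_symm_apply _

lemma rep_compact (U : C) (F : ℕ ⥤ PSh C L) (c : Cocone F) (hc : IsColimit c)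
    (a : (rep C L).obj U ⟶ c.pt) : ∃ (n : ℕ) (b : (rep C L).obj U ⟶ F.obj n),
      b ≫ c.ι.app n = a := by
  have : PreservesFilteredColimitsOfSize.{0, 0} (forget (ModuleCat.{1} L)) :=
    preservesFilteredColimitsOfSize_shrink _
  obtain ⟨n, x, hx⟩ := Types.jointly_surjective_of_isColimit
    (isColimitOfPreserves ((evaluation _ _).obj (op U) ⋙ forget (ModuleCat.{1} L)) hc) (repSec a)
  obtain ⟨b, rfl⟩ := (repSec_bijective U (F.obj n)).2 x
  exact ⟨n, b, (repSec_bijective U _).1 hx⟩

lemma TrData.goodTerm {γ : C ⥤ C'} (d : TrData L γ) (U : C) :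
    GoodTerm (rs L γ) d.P (A' := d.ρ.obj U) (d.unit.app U) where
  mem := d.mem U
  univ F hF := by
    rw [← Function.Bijective.of_comp_iff' (repSec_bijective U ((rs L γ).obj F))]
    have e : (repSec ∘ fun a : d.ρ.obj U ⟶ F => d.unit.app U ≫ (rs L γ).map a) =
        fun a : d.ρ.obj U ⟶ F => a.app (op (γ.obj U)) (d.e U) := by
      funext a
      rw [Function.comp_apply, repSec_comp, d.repSec_unit]
      rfl
    rw [e]
    exact d.yoneda U F hF
  proj := inferInstance
  cpt := rep_compact U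

lemma goodTerm_rep (U : C) :
    GoodTerm (𝟭 (PSh C L)) (fun _ => True) (A' := (rep C L).obj U) (𝟙 ((rep C L).obj U)) where
  mem := trivial
  univ F _ := by
    simp only [Functor.id_map, Category.id_comp]
    exact Function.bijective_id
  proj := inferInstance
  cpt := rep_compact U

/-- The class of representable presheaves of objects satisfying `S`, placed in degree `0`. -/
def RepGen (L : Type 1) [CommRing L] (S : C → Prop) : Ch C L → Prop :=
  fun K => ∃ U, S U ∧ K = (sgl 0).obj ((rep C L).obj U)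

/-- Every complex embeds, with cokernel built from representables of objects in `S`, in a complex
which is acyclic on all objects in `S`. -/
theorem exists_rep_replacement (S : C → Prop) (X : Ch C L) :
    ∃ (X' : Ch C L) (j : X ⟶ X'), Mono j ∧ WG (RepGen L S) j ∧
      ∀ U, S U → ∀ (q : ℤ) (a : (X'.homology q).obj (op U)), a = 0 := by
  obtain ⟨X', j, hj, -, hW, h⟩ := exists_replacement (R := 𝟭 (PSh C L)) closedCl_top
    (ι := {U // S U}) (fun U => FinCell.single closedCl_top (goodTerm_rep U.1) 0) X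
    fun _ => trivial
  refine ⟨X', j, hj, hW.trans ?_, fun U hU => ?_⟩
  · rintro _ ⟨U, rfl⟩
    exact Loc.gen _ ⟨U.1, U.2, rfl⟩
  · exact ((isLocal_G0 X').orth_rep_iff 0 U).1 (h ⟨U, hU⟩)

/-- Every complex is built from representables. -/
theorem loc_rep (K : Ch C L) : Loc (RepGen L fun _ => True) K := by
  obtain ⟨X', j, -, hW, h⟩ := exists_rep_replacement (fun _ => True) K
  exact hW.loc_iff.2 (Loc.acyclic _ ((acyclic_iff_sections X').2 fun q U => h U trivial q))

/-- An exact functor which kills the representables kills every complex. -/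
lemma loc_map_of_rep {G' : Ch C' L → Prop} (F : PSh C L ⥤ PSh C' L) [IsExact F]
    (h : ∀ U, Loc G' ((sgl 0).obj (F.obj ((rep C L).obj U)))) (K : Ch C L) :
    Loc G' ((mapC F).obj K) := by
  refine Loc.map F ?_ (loc_rep K)
  rintro _ ⟨U, -, rfl⟩
  exact Loc.of_iso ((HomologicalComplex.singleMapHomologicalComplex F _ 0).app _).symm (h U)

lemma wg_natTrans_of_rep {G' : Ch C' L → Prop} {F F' : PSh C L ⥤ PSh C' L} [IsExact F]
    [IsExact F'] (τ : F ⟶ F') (h : ∀ U, WG G' ((sgl 0).map (τ.app ((rep C L).obj U))))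
    (K : Ch C L) : WG G' ((NatTrans.mapHomologicalComplex τ _).app K) := by
  refine Loc.natTrans τ ?_ (loc_rep K)
  rintro _ ⟨U, -, rfl⟩
  refine (wg_iff_of_sq (a := (HomologicalComplex.singleMapHomologicalComplex F _ 0).hom.app _)
    (b := (HomologicalComplex.singleMapHomologicalComplex F' _ 0).hom.app _) ?_
    (WG.of_isIso _) (WG.of_isIso _)).2 (h U)
  refine HomologicalComplex.to_single_hom_ext ?_
  simp [HomologicalComplex.single_map_f_self]

lemma orth_map_of_rep {G' : Ch C' L → Prop} (F : PSh C L ⥤ PSh C' L) [IsExact F] {X : Ch C' L}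
    (h : ∀ U, Orth G' ((sgl 0).obj (F.obj ((rep C L).obj U))) X) (K : Ch C L) :
    Orth G' ((mapC F).obj K) X :=
  Orth.of_loc (G₁ := fun A => Orth G' A X) (fun _ hA => hA)
    (loc_map_of_rep F (fun U => Loc.gen _ (h U)) K)

end Pool.Agent.KEW
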