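import Pool.Agent.P.MP_6277db_ag.KEW.L1.Sat

/-!
Categories over schemes with enough etale neighbourhoods, elementary Nisnevich squares, and
Nisnevich local properties of presheaves.
-/

set_option backward.isDefEq.respectTransparency false

noncomputable section

open CategoryTheory Limits AlgebraicGeometry Opposite

namespace Pool.Agent.KEW

variable {C : Type 1} [Category.{0} C] {L : Type 1} [CommRing L] (u : C ⥤ Scheme.{0})

/-- A category over noetherian schemes whose slices are full subcategories of the slices of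
schemes containing all separated quasi-compact etale maps. -/
structure IsSite : Prop where
  faithful : u.Faithful
  lift : ∀ {V A X : C} (φ : V ⟶ X) (ψ : A ⟶ X) (h : u.obj V ⟶ u.obj A),
    h ≫ u.map ψ = u.map φ → ∃ h' : V ⟶ A, u.map h' = h
  etale : ∀ (U : C) (V : Scheme.{0}) (f : V ⟶ u.obj U), Etale f → IsSeparated f →
    QuasiCompact f → ∃ (V' : C) (f' : V' ⟶ U) (e : u.obj V' ≅ V), u.map f' = e.hom ≫ f
  noeth : ∀ U : C, IsNoetherian (u.obj U)

/-- An affine line over `U` in `C`. -/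
structure Cyl (U : C) where
  /-- The affine line. -/
  I : C
  /-- The projection. -/
  p : I ⟶ U
  /-- The coordinate. -/
  t : Γ(u.obj I, ⊤)
  bij : ∀ V : C, Function.Bijective fun φ : V ⟶ I => (φ ≫ p, (u.map φ).appTop t)

/-- Every object has an affine line. -/
def HasCyl : Prop := ∀ U : C, Nonempty (Cyl u U)

/-- `f : V ⟶ U` with the point `y` is an etale neighbourhood of `x` with trivial residue field
extension. -/
def IsNbhd {V U : C} (f : V ⟶ U) (y : u.obj V) (x : u.obj U) : Prop :=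
  Etale (u.map f) ∧ u.map f y = x ∧ IsIso ((u.map f).residueFieldMap y)

/-- The property `p` holds on some etale neighbourhood of `x`. -/
def Locally (U : C) (x : u.obj U) (p : ∀ V : C, (V ⟶ U) → Prop) : Prop :=
  ∃ (V : C) (f : V ⟶ U) (y : u.obj V), IsNbhd u f y x ∧ p V f

/-- The section `a` vanishes near every point. -/
def LocZeroEl {F : PSh C L} {U : C} (a : F.obj (op U)) : Prop :=
  ∀ x : u.obj U, Locally u U x fun _ f => F.map f.op a = 0

/-- Every section killed by `φ` is locally zero. -/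
def LocInj {F F' : PSh C L} (φ : F ⟶ F') : Prop :=
  ∀ (U : C) (a : F.obj (op U)), φ.app (op U) a = 0 → LocZeroEl u a

/-- Every section of the target is locally in the image of `φ`. -/
def LocSurj {F F' : PSh C L} (φ : F ⟶ F') : Prop :=
  ∀ (U : C) (b : F'.obj (op U)) (x : u.obj U),
    Locally u U x fun V f => ∃ a : F.obj (op V), φ.app (op V) a = F'.map f.op b

/-- Complexes with Nisnevich locally zero homology. -/
def NisGen (K : Ch C L) : Prop := ∀ q : ℤ, LocZero u (K.homology q)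

/-- An elementary Nisnevich square. -/
structure NisSq where
  /-- The base. -/
  X : C
  /-- The open part. -/
  A : C
  /-- The etale part. -/
  Y : C
  /-- The intersection. -/
  B : C
  /-- The open immersion. -/
  i : A ⟶ X
  /-- The etale map. -/
  f : Y ⟶ X
  /-- The open immersion into `Y`. -/
  j : B ⟶ Y
  /-- The etale map to `A`. -/
  g : B ⟶ A
  w : j ≫ f = g ≫ i
  open_i : IsOpenImmersion (u.map i)
  etale_f : Etale (u.map f)
  pb : IsPullback (u.map j) (u.map g) (u.map f) (u.map i)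
  uniq : ∀ x : u.obj X, x ∉ Set.range (u.map i) → ∃! y : u.obj Y, u.map f y = x
  res : ∀ y : u.obj Y, u.map f y ∉ Set.range (u.map i) → IsIso ((u.map f).residueFieldMap y)

variable {u}

/-- A morphism of elementary squares. -/
structure NisSq.Hom (S' S : NisSq u) where
  /-- The map of bases. -/
  x : S'.X ⟶ S.X
  /-- The map of open parts. -/
  a : S'.A ⟶ S.A
  /-- The map of etale parts. -/
  y : S'.Y ⟶ S.Y
  /-- The map of intersections. -/
  b : S'.B ⟶ S.B
  wi : S'.i ≫ x = a ≫ S.i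
  wf : S'.f ≫ x = y ≫ S.f
  wj : S'.j ≫ y = b ≫ S.j
  wg : S'.g ≫ a = b ≫ S.g

variable (u)

/-- The functor `r` sends the empty scheme to a locally zero presheaf and elementary squares to
locally exact sequences `0 → r B → r A ⊕ r Y → r X → 0`. -/
structure LocExact (r : C ⥤ PSh C L) : Prop where
  empty : ∀ U : C, IsEmpty (u.obj U) → LocZero u (r.obj U)
  inj : ∀ S : NisSq u, LocInj u (r.map S.j)
  inj' : ∀ S : NisSq u, LocInj u (r.map S.i)
  mid : ∀ (S : NisSq u) (V : C) (a : (r.obj S.A).obj (op V)) (y : (r.obj S.Y).obj (op V)),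
    (r.map S.i).app (op V) a = (r.map S.f).app (op V) y → ∀ x : u.obj V,
      Locally u V x fun V' φ => ∃ b : (r.obj S.B).obj (op V'),
        (r.map S.j).app (op V') b = (r.obj S.Y).map φ.op y
  surj : ∀ (S : NisSq u) (V : C) (z : (r.obj S.X).obj (op V)) (x : u.obj V),
    Locally u V x fun V' φ => ∃ (a : (r.obj S.A).obj (op V')) (y : (r.obj S.Y).obj (op V')),
      (r.map S.i).app (op V') a + (r.map S.f).app (op V') y = (r.obj S.X).map φ.op z

/-- A graded presheaf with the weak Mayer-Vietoris property. -/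
structure MVSys (H : ℤ → PSh C L) : Prop where
  empty : ∀ (q : ℤ) (U : C), IsEmpty (u.obj U) → ∀ a : (H q).obj (op U), a = 0
  mv : ∀ (S : NisSq u) (p q : ℤ), p + 1 = q → ∀ x : (H q).obj (op S.X),
    (H q).map S.i.op x = 0 → (H q).map S.f.op x = 0 →
      ∃ b : (H p).obj (op S.B), ∀ (S' : NisSq u) (φ : S'.Hom S),
        (H p).map φ.b.op b = 0 → (H q).map φ.x.op x = 0

variable {u}

lemma IsNbhd.id {U : C} (x : u.obj U) : IsNbhd u (𝟙 U) x x := by
  have : IsOpenImmersion (u.map (𝟙 U)) := by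
    rw [u.map_id]
    infer_instance
  exact ⟨inferInstance, by simp, inferInstance⟩

lemma IsNbhd.comp {U V W : C} {f : V ⟶ U} {g : W ⟶ V} {x : u.obj U} {y : u.obj V} {z : u.obj W}
    (hg : IsNbhd u g z y) (hf : IsNbhd u f y x) : IsNbhd u (g ≫ f) z x := by
  obtain ⟨h₁, rfl, h₂⟩ := hg
  obtain ⟨h₃, rfl, h₄⟩ := hf
  refine ⟨?_, by simp, ?_⟩
  · rw [u.map_comp]
    infer_instance
  · have h : ∀ φ : u.obj W ⟶ u.obj U, φ = u.map g ≫ u.map f → IsIso (φ.residueFieldMap z) := by
      rintro _ rfl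
      rw [Scheme.residueFieldMap_comp]
      infer_instance
    exact h _ (u.map_comp g f)

lemma IsNbhd.of_isOpenImmersion {U V : C} (f : V ⟶ U) [IsOpenImmersion (u.map f)]
    (y : u.obj V) : IsNbhd u f y (u.map f y) :=
  ⟨inferInstance, rfl, inferInstance⟩

lemma Locally.of_forall {U : C} (x : u.obj U) {p : ∀ V : C, (V ⟶ U) → Prop} (h : p U (𝟙 U)) :
    Locally u U x p :=
  ⟨U, 𝟙 U, x, IsNbhd.id x, h⟩

lemma Locally.mono {U : C} {x : u.obj U} {p p' : ∀ V : C, (V ⟶ U) → Prop} (h : Locally u U x p)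
    (h' : ∀ V f, p V f → p' V f) : Locally u U x p' := by
  obtain ⟨V, f, y, hf, hp⟩ := h
  exact ⟨V, f, y, hf, h' V f hp⟩

/-- Local properties may be checked locally. -/
lemma Locally.bind {U : C} {x : u.obj U} {p p' : ∀ V : C, (V ⟶ U) → Prop} (h : Locally u U x p)
    (h' : ∀ V f, p V f → ∀ y, Locally u V y fun W g => p' W (g ≫ f)) : Locally u U x p' := by
  obtain ⟨V, f, y, hf, hp⟩ := h
  obtain ⟨W, g, z, hg, hp'⟩ := h' V f hp y
  exact ⟨W, g ≫ f, z, hg.comp hf, hp'⟩

lemma Site_nat {F F' : PSh C L} (φ : F ⟶ F') {U V : C} (f : V ⟶ U) (a : F.obj (op U)) :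
    φ.app (op V) (F.map f.op a) = F'.map f.op (φ.app (op U) a) :=
  NatTrans.naturality_apply φ f.op a

lemma Site_res (F : PSh C L) {U V W : C} (g : W ⟶ V) (f : V ⟶ U) (a : F.obj (op U)) :
    F.map (g ≫ f).op a = F.map g.op (F.map f.op a) := by
  simp

lemma Site_id (F : PSh C L) {U : C} (a : F.obj (op U)) : F.map (𝟙 U).op a = a := by
  simp

lemma Site_inj {F F' : PSh C L} (φ : F ⟶ F') [Mono φ] (U : C) :
    Function.Injective (φ.app (op U)) :=
  (ModuleCat.mono_iff_injective _).1 inferInstance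

lemma Site_surj {F F' : PSh C L} (φ : F ⟶ F') [Epi φ] (U : C) :
    Function.Surjective (φ.app (op U)) :=
  (ModuleCat.epi_iff_surjective _).1 inferInstance

lemma Site_exact {S : ShortComplex (PSh C L)} (hS : S.Exact) {U : C} (b : S.X₂.obj (op U))
    (hb : S.g.app (op U) b = 0) : ∃ a : S.X₁.obj (op U), S.f.app (op U) a = b :=
  (ShortComplex.moduleCat_exact_iff _).1 (hS.map ((evaluation _ _).obj (op U))) b hb

lemma Site_zero {F F' F'' : PSh C L} {φ : F ⟶ F'} {ψ : F' ⟶ F''} (h : φ ≫ ψ = 0) {U : C}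
    (a : F.obj (op U)) : ψ.app (op U) (φ.app (op U) a) = 0 :=
  congrArg (fun θ : F ⟶ F'' => θ.app (op U) a) h

lemma locZero_iff (F : PSh C L) : LocZero u F ↔ ∀ (U : C) (a : F.obj (op U)), LocZeroEl u a :=
  ⟨fun h U a x => by
    obtain ⟨V, f, y, h₁, h₂, h₃, h₄⟩ := h U x a
    exact ⟨V, f, y, ⟨h₁, h₂, h₃⟩, h₄⟩, fun h U x a => by
    obtain ⟨V, f, y, ⟨h₁, h₂, h₃⟩, h₄⟩ := h U a x
    exact ⟨V, f, y, h₁, h₂, h₃, h₄⟩⟩

lemma LocZero.el {F : PSh C L} (h : LocZero u F) {U : C} (a : F.obj (op U)) : LocZeroEl u a :=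
  (locZero_iff F).1 h U a

lemma Site_el_zero (F : PSh C L) (U : C) : LocZeroEl u (0 : F.obj (op U)) :=
  fun x => Locally.of_forall x (map_zero _)

lemma LocZeroEl.map {F F' : PSh C L} (φ : F ⟶ F') {U : C} {a : F.obj (op U)}
    (h : LocZeroEl u a) : LocZeroEl u (φ.app (op U) a) :=
  fun x => (h x).mono fun V f hf => by rw [← Site_nat, hf, map_zero]

lemma LocZeroEl.of_map {F F' : PSh C L} {φ : F ⟶ F'} (hφ : LocInj u φ) {U : C} {a : F.obj (op U)}
    (h : LocZeroEl u (φ.app (op U) a)) : LocZeroEl u a :=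
  fun x => (h x).bind fun V f hf y =>
    (hφ V (F.map f.op a) (by rw [Site_nat, hf]) y).mono fun W g hg => by rw [Site_res, hg]

lemma LocZero.of_isZero {F : PSh C L} (h : IsZero F) : LocZero u F := by
  refine (locZero_iff F).2 fun U a => ?_
  have := ModuleCat.subsingleton_of_isZero (h.obj (op U))
  rw [Subsingleton.elim a 0]
  exact Site_el_zero F U

lemma LocZero.of_iso {F F' : PSh C L} (e : F ≅ F') (h : LocZero u F) : LocZero u F' := by
  refine (locZero_iff F').2 fun U a => ?_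
  obtain ⟨b, rfl⟩ := Site_surj e.hom U a
  exact (h.el b).map e.hom

lemma LocZero.of_locInj {F F' : PSh C L} {φ : F ⟶ F'} (hφ : LocInj u φ) (h : LocZero u F') :
    LocZero u F :=
  (locZero_iff F).2 fun _ _ => LocZeroEl.of_map hφ (h.el _)

lemma LocZero.of_locSurj {F F' : PSh C L} {φ : F ⟶ F'} (hφ : LocSurj u φ) (h : LocZero u F) :
    LocZero u F' := by
  refine (locZero_iff F').2 fun U b x => (hφ U b x).bind ?_
  rintro V f ⟨a, ha⟩ y
  exact ((h.el a).map φ y).mono fun W g hg => by rw [Site_res, ← ha, hg]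

lemma LocInj.of_mono {F F' : PSh C L} (φ : F ⟶ F') [Mono φ] : LocInj u φ := by
  intro U a ha
  rw [Site_inj φ U (ha.trans (map_zero _).symm)]
  exact Site_el_zero F U

lemma LocSurj.of_epi {F F' : PSh C L} (φ : F ⟶ F') [Epi φ] : LocSurj u φ :=
  fun U _ x => Locally.of_forall x (Site_surj φ U _)

lemma LocInj.comp {F F' F'' : PSh C L} {φ : F ⟶ F'} {ψ : F' ⟶ F''} (h : LocInj u φ)
    (h' : LocInj u ψ) : LocInj u (φ ≫ ψ) :=
  fun U a ha => LocZeroEl.of_map h (h' U (φ.app (op U) a) ha)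

lemma LocSurj.comp {F F' F'' : PSh C L} {φ : F ⟶ F'} {ψ : F' ⟶ F''} (h : LocSurj u φ)
    (h' : LocSurj u ψ) : LocSurj u (φ ≫ ψ) := by
  refine fun U c x => (h' U c x).bind ?_
  rintro V f ⟨b, hb⟩ y
  refine (h V b y).mono ?_
  rintro W g ⟨a, ha⟩
  refine ⟨a, ?_⟩
  rw [Site_res, ← hb, ← Site_nat, ← ha]
  rfl

lemma Site_of_inj {F F' F'' : PSh C L} {φ : F ⟶ F'} {ψ : F' ⟶ F''} (h : LocInj u φ)
    (h' : LocInj u ψ) (w : φ ≫ ψ = 0) : LocZero u F :=
  (locZero_iff F).2 fun U a => h.comp h' U a (Site_zero w a)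

lemma Site_of_surj {F F' F'' : PSh C L} {φ : F ⟶ F'} {ψ : F' ⟶ F''} (h : LocSurj u φ)
    (h' : LocSurj u ψ) (w : φ ≫ ψ = 0) : LocZero u F'' :=
  (locZero_iff F'').2 fun U c x => (h.comp h' U c x).mono fun _ _ ⟨a, ha⟩ =>
    ha.symm.trans (Site_zero w a)

lemma Site_inj_of_exact {S : ShortComplex (PSh C L)} (hS : S.Exact) (h : LocZero u S.X₁) :
    LocInj u S.g := by
  intro U b hb
  obtain ⟨a, rfl⟩ := Site_exact hS b hb
  exact (h.el a).map S.f

lemma Site_surj_of_exact {S : ShortComplex (PSh C L)} (hS : S.Exact) (h : LocZero u S.X₃) :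
    LocSurj u S.f :=
  fun U b x => (h.el (S.g.app (op U) b) x).mono fun V f hf =>
    Site_exact hS _ (by rw [Site_nat, hf])

lemma locInj_iff_kernel {F F' : PSh C L} (φ : F ⟶ F') : LocInj u φ ↔ LocZero u (kernel φ) :=
  ⟨fun h => Site_of_inj (LocInj.of_mono (kernel.ι φ)) h (kernel.condition φ),
    Site_inj_of_exact (ShortComplex.exact_kernel φ)⟩

lemma locSurj_iff_cokernel {F F' : PSh C L} (φ : F ⟶ F') :
    LocSurj u φ ↔ LocZero u (cokernel φ) :=
  ⟨fun h => Site_of_surj h (LocSurj.of_epi (cokernel.π φ)) (cokernel.condition φ),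
    Site_surj_of_exact (ShortComplex.exact_cokernel φ)⟩

lemma LocZero.of_exact {S : ShortComplex (PSh C L)} (hS : S.Exact) (h₁ : LocZero u S.X₁)
    (h₃ : LocZero u S.X₃) : LocZero u S.X₂ :=
  LocZero.of_locInj (Site_inj_of_exact hS h₁) h₃

/-- A section of a direct sum is a finite sum of sections of the summands. -/
lemma Site_span {D : Type 2} [Category.{1} D] {ι : Type 1} (K : ι → D) [HasCoproduct K]
    (E : D ⥤ ModuleCat.{1} L) [PreservesColimit (Discrete.functor K) E]
    (N : Submodule L (E.obj (∐ K))) (h : ∀ i a, E.map (Sigma.ι K i) a ∈ N) (a : E.obj (∐ K)) :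
    a ∈ N := by
  have h1 : ModuleCat.ofHom N.mkQ = 0 :=
    (isColimitOfPreserves E (coproductIsCoproduct K)).hom_ext fun i => by
      ext b
      exact (Submodule.Quotient.mk_eq_zero N).2 (h i.as b)
  exact (Submodule.Quotient.mk_eq_zero N).1 (congrArg (fun θ => θ.hom a) h1)

/-- Sections which are locally in the image of `φ` after every restriction. -/
def Site_im (u : C ⥤ Scheme.{0}) {F F' : PSh C L} (φ : F ⟶ F') (U : C) :
    Submodule L (F'.obj (op U)) where
  carrier := {b | ∀ (V : C) (f : V ⟶ U) (x : u.obj V), Locally u V x fun W g =>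
    ∃ a : F.obj (op W), φ.app (op W) a = F'.map (g ≫ f).op b}
  zero_mem' := fun _ _ x => Locally.of_forall x ⟨0, by rw [map_zero, map_zero]⟩
  smul_mem' r b hb := fun V f x => (hb V f x).mono fun W g ⟨a, ha⟩ =>
    ⟨r • a, by rw [map_smul, map_smul, ha]⟩
  add_mem' {b b'} hb hb' := fun V f x => (hb V f x).bind fun W g ⟨a, ha⟩ y =>
    (hb' W (g ≫ f) y).mono fun W' g' ⟨a', ha'⟩ => ⟨F.map g'.op a + a', by
      rw [map_add, map_add, Category.assoc, ha', Site_nat, ha, ← Site_res]⟩

lemma Site_im_locally {F F' : PSh C L} {φ : F ⟶ F'} {U : C} {b : F'.obj (op U)}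
    (h : b ∈ Site_im u φ U) (x : u.obj U) :
    Locally u U x fun V f => ∃ a : F.obj (op V), φ.app (op V) a = F'.map f.op b :=
  (h U (𝟙 U) x).mono fun V f hf => by rwa [Category.comp_id] at hf

lemma LocZero.sigma {ι : Type 1} (F : ι → PSh C L) (h : ∀ i, LocZero u (F i)) :
    LocZero u (∐ F) := by
  refine Site_of_surj (φ := (0 : ∐ F ⟶ ∐ F)) (fun U b => Site_im_locally ?_)
    (LocSurj.of_epi (𝟙 _)) zero_comp
  refine Site_span F ((evaluation _ _).obj (op U)) (Site_im u (0 : ∐ F ⟶ ∐ F) U)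
    (fun i a V f x => ?_) b
  refine (((h i).el ((F i).map f.op a)).map (Sigma.ι F i) x).mono fun W g hg => ⟨0, ?_⟩
  rw [map_zero, Site_res]
  rw [Site_nat] at hg
  exact hg.symm

lemma Site_homology_iff (S : ShortComplex (PSh C L)) : LocZero u S.homology ↔
    ∀ (U : C) (b : S.X₂.obj (op U)), S.g.app (op U) b = 0 → ∀ x : u.obj U, Locally u U x
      fun V f => ∃ a : S.X₁.obj (op V), S.f.app (op V) a = S.X₂.map f.op b := by
  have e : ∀ (V : C) (a : S.X₁.obj (op V)),
      S.iCycles.app (op V) (S.toCycles.app (op V) a) = S.f.app (op V) a := fun V a =>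
    congrArg (fun θ : S.X₁ ⟶ S.X₂ => θ.app (op V) a) S.toCycles_i
  constructor
  · intro h U b hb x
    obtain ⟨z, rfl⟩ := Site_exact (ShortComplex.exact_of_f_is_kernel
      (ShortComplex.mk _ _ S.iCycles_g) S.cyclesIsKernel) b hb
    refine (Site_surj_of_exact (ShortComplex.exact_of_g_is_cokernel
      (ShortComplex.mk _ _ S.toCycles_comp_homologyπ) S.homologyIsCokernel) h U z x).mono ?_
    rintro V f ⟨a, ha⟩
    exact ⟨a, by rw [← e, ← Site_nat, ← ha]⟩
  · refine fun h => Site_of_surj (fun U z x => ?_) (LocSurj.of_epi S.homologyπ)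
      S.toCycles_comp_homologyπ
    refine (h U _ (Site_zero S.iCycles_g z) x).mono ?_
    rintro V f ⟨a, ha⟩
    exact ⟨a, Site_inj S.iCycles V (by rw [e, ha, Site_nat])⟩

lemma Site_nisGen_iff (K : Ch C L) : NisGen u K ↔ ∀ (q : ℤ) (U : C) (b : (K.X q).obj (op U)),
    (K.d q ((ComplexShape.up ℤ).next q)).app (op U) b = 0 →
      b ∈ Site_im u (K.d ((ComplexShape.up ℤ).prev q) q) U := by
  refine forall_congr' fun q => (Site_homology_iff (K.sc q)).trans
    ⟨fun h U b hb V f x => ?_, fun h U b hb => Site_im_locally (h U b hb)⟩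
  refine (h V ((K.X q).map f.op b) ?_ x).mono fun W g ⟨a, ha⟩ => ⟨a, ?_⟩
  · exact (Site_nat (K.d q ((ComplexShape.up ℤ).next q)) f b).trans (by rw [hb, map_zero])
  · exact ha.trans (Site_res _ g f b).symm

lemma Site_comm {K K' : Ch C L} (φ : K ⟶ K') (p q : ℤ) {U : C} (a : (K.X p).obj (op U)) :
    (K'.d p q).app (op U) ((φ.f p).app (op U) a) = (φ.f q).app (op U) ((K.d p q).app (op U) a) :=
  congrArg (fun θ : K.X p ⟶ K'.X q => θ.app (op U) a) (φ.comm p q)

lemma Site_sigma {ι : Type 1} (K : ι → Ch C L) (h : ∀ i, NisGen u (K i)) : NisGen u (∐ K) := by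
  classical
  refine (Site_nisGen_iff _).2 fun q U b hb => ?_
  let π : ∀ j, ∐ K ⟶ K j := fun j =>
    Sigma.desc fun i => if e : i = j then eqToHom (congrArg K e) else 0
  let E : Ch C L ⥤ ModuleCat.{1} L :=
    HomologicalComplex.eval _ _ q ⋙ (evaluation _ _).obj (op U)
  let N : Submodule L (E.obj (∐ K)) :=
    { carrier := {b | ∃ s : Finset ι, ∀ t, s ⊆ t →
        b = ∑ j ∈ t, E.map (π j ≫ Sigma.ι K j) b}
      zero_mem' := ⟨∅, fun t _ => by simp⟩
      smul_mem' := fun r b ⟨s, hs⟩ => ⟨s, fun t ht => by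
        simp only [map_smul, ← Finset.smul_sum, ← hs t ht]⟩
      add_mem' := fun {b b'} ⟨s, hs⟩ ⟨s', hs'⟩ => ⟨s ∪ s', fun t ht => by
        simp only [map_add, Finset.sum_add_distrib, ← hs t (Finset.subset_union_left.trans ht),
          ← hs' t (Finset.subset_union_right.trans ht)]⟩ }
  obtain ⟨s, hs⟩ := Site_span K E N (fun i a => ⟨{i}, fun t ht => by
    rw [Finset.sum_eq_single i (fun j _ hj => ?_) fun hi => (hi (ht (by simp))).elim]
    · rw [← ConcreteCategory.comp_apply, ← E.map_comp]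
      simp [π]
    · rw [← ConcreteCategory.comp_apply, ← E.map_comp]
      simp [π, hj.symm]⟩) b
  rw [hs s Finset.Subset.rfl]
  refine Submodule.sum_mem _ fun j _ V f x => ?_
  refine ((Site_nisGen_iff _).1 (h j) q U (((π j).f q).app (op U) b)
    (by rw [Site_comm, hb, map_zero]) V f x).mono fun W g ⟨a, ha⟩ =>
      ⟨((Sigma.ι K j).f _).app (op W) a, ?_⟩
  rw [Site_comm, ha, Site_nat]
  rfl

/-- The complexes with locally zero homology form a localising class. -/
lemma loc_nisGen_iff (K : Ch C L) : Loc (NisGen u) K ↔ NisGen u K := by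
  refine ⟨fun h => ?_, Loc.gen K⟩
  induction h with
  | gen K hK => exact hK
  | acyclic K hK =>
    exact fun q => LocZero.of_isZero ((K.exactAt_iff_isZero_homology q).1 (hK q))
  | left S hS _ _ h₂ h₃ =>
    exact fun q => LocZero.of_exact (hS.homology_exact₁ (q - 1) q (by simp)) (h₃ _) (h₂ _)
  | mid S hS _ _ h₁ h₃ => exact fun q => LocZero.of_exact (hS.homology_exact₂ q) (h₁ _) (h₃ _)
  | right S hS _ _ h₁ h₂ =>
    exact fun q => LocZero.of_exact (hS.homology_exact₃ q (q + 1) (by simp)) (h₂ _) (h₁ _)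
  | sum ι K _ h => exact Site_sigma K h

lemma NisGen.of_terms {K : Ch C L} (h : ∀ n, LocZero u (K.X n)) : NisGen u K :=
  fun q => LocZero.of_locSurj (LocSurj.of_epi (K.homologyπ q))
    (LocZero.of_locInj (LocInj.of_mono (K.iCycles q)) (h q))

lemma nisGen_sgl_iff (F : PSh C L) (q : ℤ) : NisGen u ((sgl q).obj F) ↔ LocZero u F := by
  refine ⟨fun h => (h q).of_iso (HomologicalComplex.singleObjHomologySelfIso _ q F),
    fun h => NisGen.of_terms fun n => ?_⟩
  by_cases e : n = q
  · subst e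
    exact h.of_iso (HomologicalComplex.singleObjXSelf _ n F).symm
  · exact LocZero.of_isZero (HomologicalComplex.isZero_single_obj_X _ q F n e)

lemma NisGen.loc {K : Ch C L} (h : NisGen u K) : Loc (NGen u) K := Loc.gen K (Or.inl h)

lemma Loc.of_nis {K : Ch C L} (h : Loc (NisGen u) K) : Loc (NGen u) K :=
  h.mono fun _ hK => Or.inl hK

lemma WG.of_nis {X Y : Ch C L} {f : X ⟶ Y} (h : WG (NisGen u) f) : WG (NGen u) f := Loc.of_nis h

/-- Nisnevich local equivalences are the local quasi-isomorphisms. -/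
lemma wg_nis_iff {X Y : Ch C L} (f : X ⟶ Y) : WG (NisGen u) f ↔
    ∀ q : ℤ, LocInj u (HomologicalComplex.homologyMap f q) ∧
      LocSurj u (HomologicalComplex.homologyMap f q) := by
  let _ := HasDerivedCategory.standard (PSh C L)
  have hT := DerivedCategory.mappingCone_triangle_distinguished f
  refine (loc_nisGen_iff _).trans ⟨fun h q => ⟨?_, ?_⟩, fun h q => ?_⟩
  · exact Site_inj_of_exact
      (CochainComplex.homologyMap_exact₁_of_distTriang _ hT (q - 1) q (by simp)) (h _)
  · exact Site_surj_of_exact (CochainComplex.homologyMap_exact₂_of_distTriang _ hT q) (h _)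
  · have w₁ := CochainComplex.homologyδOfTriangle_homologyMap _ hT q (q + 1) rfl
    have w₂ := CochainComplex.homologyMap_comp_eq_zero_of_distTriang _ hT q
    have e₃ := CochainComplex.homologyMap_exact₃_of_distTriang _ hT q (q + 1) rfl
    refine Site_of_surj (h q).2 (fun U c x => ?_) w₂
    exact ((h (q + 1)).1 U _ (Site_zero w₁ c) x).mono fun V g hg =>
      Site_exact e₃ _ ((Site_nat _ g c).trans hg)

lemma Site_mono_f {X Y : Ch C L} (f : X ⟶ Y) [Mono f] (n : ℤ) : Mono (f.f n) :=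
  (HomologicalComplex.eval _ _ n).map_mono f

lemma Site_epi_f {X Y : Ch C L} (f : X ⟶ Y) [Epi f] (n : ℤ) : Epi (f.f n) :=
  (HomologicalComplex.eval _ _ n).map_epi f

/-- A termwise locally bijective map of complexes is a Nisnevich local equivalence. -/
lemma wg_nis_of_terms {X Y : Ch C L} (f : X ⟶ Y) (h : ∀ n, LocInj u (f.f n))
    (h' : ∀ n, LocSurj u (f.f n)) : WG (NisGen u) f := by
  obtain ⟨Z, e, m, _, _, rfl⟩ : ∃ (Z : Ch C L) (e : X ⟶ Z) (m : Z ⟶ Y), Epi e ∧ Mono m ∧
      e ≫ m = f := ⟨_, factorThruImage f, image.ι f, inferInstance, inferInstance, image.fac f⟩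
  refine WG.comp ((wg_iff_kernel e).2 (Loc.gen _ (NisGen.of_terms fun n => ?_)))
    ((wg_iff_cokernel m).2 (Loc.gen _ (NisGen.of_terms fun n => ?_)))
  · have := Site_mono_f (kernel.ι e) n
    refine Site_of_inj (LocInj.of_mono ((kernel.ι e).f n)) (h n) ?_
    rw [← HomologicalComplex.comp_f, kernel.condition_assoc, zero_comp, HomologicalComplex.zero_f]
  · have := Site_epi_f (cokernel.π m) n
    refine Site_of_surj (h' n) (LocSurj.of_epi ((cokernel.π m).f n)) ?_
    rw [← HomologicalComplex.comp_f, Category.assoc, cokernel.condition, comp_zero,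
      HomologicalComplex.zero_f]

lemma wg_nis_sgl_iff {F F' : PSh C L} (φ : F ⟶ F') (q : ℤ) :
    WG (NisGen u) ((sgl q).map φ) ↔ LocInj u φ ∧ LocSurj u φ := by
  constructor
  · intro h
    obtain ⟨h₁, h₂⟩ := (wg_nis_iff _).1 h q
    have e : φ = (HomologicalComplex.singleObjHomologySelfIso _ q F).inv ≫
        HomologicalComplex.homologyMap ((sgl q).map φ) q ≫
          (HomologicalComplex.singleObjHomologySelfIso _ q F').hom := by
      rw [HomologicalComplex.singleObjHomologySelfIso_hom_naturality, Iso.inv_hom_id_assoc]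
    rw [e]
    exact ⟨(LocInj.of_mono _).comp (h₁.comp (LocInj.of_mono _)),
      (LocSurj.of_epi _).comp (h₂.comp (LocSurj.of_epi _))⟩
  · rintro ⟨h₁, h₂⟩
    refine wg_nis_of_terms _ (fun n => ?_) fun n => ?_
    · by_cases e : n = q
      · subst e
        rw [HomologicalComplex.single_map_f_self]
        exact (LocInj.of_mono _).comp (h₁.comp (LocInj.of_mono _))
      · have := (HomologicalComplex.isZero_single_obj_X (.up ℤ) q F n e).mono (((sgl q).map φ).f n)
        exact LocInj.of_mono _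
    · by_cases e : n = q
      · subst e
        rw [HomologicalComplex.single_map_f_self]
        exact (LocSurj.of_epi _).comp (h₂.comp (LocSurj.of_epi _))
      · have := (HomologicalComplex.isZero_single_obj_X (.up ℤ) q F' n e).epi (((sgl q).map φ).f n)
        exact LocSurj.of_epi _

end Pool.Agent.KEW
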