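import Pool.Agent.P.MP_6277db_ag.KEW.L1.Sat

/-!
Exact functors between categories of presheaves, and functors induced on the localisations.
-/

set_option backward.isDefEq.respectTransparency false

noncomputable section

open CategoryTheory Limits Pretriangulated ZeroObject

namespace Pool.Agent.KEW

variable {C : Type 1} [Category.{0} C] {C' : Type 1} [Category.{0} C'] {C'' : Type 1}
  [Category.{0} C''] {L : Type 1} [CommRing L]

/-- An additive functor on presheaves which is exact and commutes with direct sums. -/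
class IsExact (F : PSh C L ⥤ PSh C' L) : Prop extends F.Additive where
  lim : PreservesFiniteLimits F
  colim : PreservesFiniteColimits F
  sum : ∀ ι : Type 1, PreservesColimitsOfShape (Discrete ι) F

attribute [instance] IsExact.lim IsExact.colim IsExact.sum

/-- The functor on complexes induced by an additive functor on presheaves. -/
abbrev mapC (F : PSh C L ⥤ PSh C' L) [F.Additive] : Ch C L ⥤ Ch C' L :=
  F.mapHomologicalComplex (ComplexShape.up ℤ)

/-- Restriction of presheaves along a functor. -/
abbrev rs (L : Type 1) [CommRing L] (γ : C ⥤ C') : PSh C' L ⥤ PSh C L :=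
  (Functor.whiskeringLeft _ _ _).obj γ.op

/-- Criterion for exactness: short exact sequences and direct sums are preserved. -/
lemma IsExact.mk' (F : PSh C L ⥤ PSh C' L) [F.Additive]
    (h : ∀ S : ShortComplex (PSh C L), S.ShortExact → (S.map F).ShortExact)
    (h' : ∀ ι : Type 1, PreservesColimitsOfShape (Discrete ι) F) : IsExact F := by
  have h1 : PreservesFiniteLimits F ∧ PreservesFiniteColimits F :=
    ((Functor.exact_tfae F).out 0 3).1 h
  exact { lim := h1.1, colim := h1.2, sum := h' }

instance (γ : C ⥤ C') : IsExact (rs L γ) := by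
  have : (rs L γ).Additive := ⟨by intros; rfl⟩
  exact { lim := inferInstance, colim := inferInstance, sum := fun _ => inferInstance }

instance : IsExact (𝟭 (PSh C L)) := by
  exact { lim := inferInstance, colim := inferInstance, sum := fun _ => inferInstance }

instance (F : PSh C L ⥤ PSh C' L) (F' : PSh C' L ⥤ PSh C'' L) [IsExact F] [IsExact F'] :
    IsExact (F ⋙ F') := by
  have : (F ⋙ F').Additive := inferInstance
  exact { lim := inferInstance, colim := inferInstance, sum := fun _ => inferInstance }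

/-- Tensoring with a sectionwise flat presheaf is exact. -/
lemma isExact_tensorRight (P : PSh C L) (hP : ∀ U, Module.Flat L (P.obj U)) :
    IsExact (MonoidalCategory.tensorRight P) := by
  have : (MonoidalCategory.tensorRight P).Additive := inferInstance
  have hc : ∀ U, PreservesColimitsOfSize.{1, 1} (MonoidalCategory.tensorRight (P.obj U)) :=
    fun U => preservesColimits_of_natIso (BraidedCategory.tensorLeftIsoTensorRight (P.obj U))
  refine { lim := preservesFiniteLimits_of_evaluation _ fun U => ?_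
           colim := preservesFiniteColimits_of_evaluation _ fun U => ?_
           sum := fun ι => preservesColimitsOfShape_of_evaluation _ _ fun U => ?_ }
  · have := hP U
    exact inferInstanceAs (PreservesFiniteLimits
      ((evaluation _ _).obj U ⋙ MonoidalCategory.tensorRight (P.obj U)))
  · exact inferInstanceAs (PreservesFiniteColimits
      ((evaluation _ _).obj U ⋙ MonoidalCategory.tensorRight (P.obj U)))
  · exact inferInstanceAs (PreservesColimitsOfShape (Discrete ι)
      ((evaluation _ _).obj U ⋙ MonoidalCategory.tensorRight (P.obj U)))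

variable {G : Ch C L → Prop} {G' : Ch C' L → Prop} {G'' : Ch C'' L → Prop}

section

variable (F : PSh C L ⥤ PSh C' L) [IsExact F]

lemma shortExact_mapC {S : ShortComplex (Ch C L)} (hS : S.ShortExact) :
    (S.map (mapC F)).ShortExact := by
  exact hS.map_of_exact (mapC F)

lemma acyclic_mapC {K : Ch C L} (h : K.Acyclic) : ((mapC F).obj K).Acyclic := by
  intro n
  exact ShortComplex.Exact.map (h n) F

/-- An exact functor which sends the generators to `Loc G'` sends `Loc G` to `Loc G'`. -/
lemma Loc.map (h : ∀ K, G K → Loc G' ((mapC F).obj K)) {K : Ch C L} (hK : Loc G K) :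
    Loc G' ((mapC F).obj K) := by
  induction hK with
  | gen K hK => exact h K hK
  | acyclic K hK => exact Loc.acyclic _ (acyclic_mapC F hK)
  | left S hS _ _ h₂ h₃ => exact Loc.left _ (shortExact_mapC F hS) h₂ h₃
  | mid S hS _ _ h₁ h₃ => exact Loc.mid _ (shortExact_mapC F hS) h₁ h₃
  | right S hS _ _ h₁ h₂ => exact Loc.right _ (shortExact_mapC F hS) h₁ h₂
  | sum ι K _ h => exact Loc.of_iso (PreservesCoproduct.iso (mapC F) K).symm (Loc.sum ι _ h)

lemma WG.map (h : ∀ K, G K → Loc G' ((mapC F).obj K)) {X Y : Ch C L} {f : X ⟶ Y}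
    (hf : WG G f) : WG G' ((mapC F).map f) := by
  exact Loc.of_iso (CochainComplex.mappingCone.mapHomologicalComplexIso f F) (Loc.map F h hf)

variable {F} in
/-- The complexes on which a natural transformation of exact functors is a `W`-morphism form a
localising class. -/
lemma Loc.natTrans {F' : PSh C L ⥤ PSh C' L} [IsExact F'] (τ : F ⟶ F')
    (h : ∀ K, G K → WG G' ((NatTrans.mapHomologicalComplex τ _).app K)) {K : Ch C L}
    (hK : Loc G K) : WG G' ((NatTrans.mapHomologicalComplex τ _).app K) := by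
  induction hK with
  | gen K hK => exact h K hK
  | acyclic K hK =>
    exact WG.of_loc _ (Loc.acyclic _ (acyclic_mapC F hK)) (Loc.acyclic _ (acyclic_mapC F' hK))
  | left S hS _ _ h₂ h₃ =>
    exact wg_τ₁ (shortExact_mapC F hS) (shortExact_mapC F' hS)
      (S.mapNatTrans (NatTrans.mapHomologicalComplex τ _)) h₂ h₃
  | mid S hS _ _ h₁ h₃ =>
    exact wg_τ₂ (shortExact_mapC F hS) (shortExact_mapC F' hS)
      (S.mapNatTrans (NatTrans.mapHomologicalComplex τ _)) h₁ h₃
  | right S hS _ _ h₁ h₂ =>
    exact wg_τ₃ (shortExact_mapC F hS) (shortExact_mapC F' hS)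
      (S.mapNatTrans (NatTrans.mapHomologicalComplex τ _)) h₁ h₂
  | sum ι K _ h =>
    refine (wg_iff_of_sq (a := sigmaComparison (mapC F) K) (b := sigmaComparison (mapC F') K) ?_
      (WG.of_isIso _) (WG.of_isIso _)).1 (WG.sigma _ h)
    refine Sigma.hom_ext _ _ fun i => ?_
    rw [Limits.Sigma.ι_map_assoc, ι_comp_sigmaComparison,
      ι_comp_sigmaComparison_assoc, NatTrans.naturality]

end

/-- The functor `Φ` sends `W`-morphisms to `W`-morphisms. -/
def PresW (G : Ch C L → Prop) (G' : Ch C' L → Prop) (Φ : Ch C L ⥤ Ch C' L) : Prop :=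
  ∀ ⦃X Y : Ch C L⦄ (f : X ⟶ Y), WG G f → WG G' (Φ.map f)

lemma PresW.of_gen (F : PSh C L ⥤ PSh C' L) [IsExact F]
    (h : ∀ K, G K → Loc G' ((mapC F).obj K)) : PresW G G' (mapC F) :=
  fun _ _ _ hf => WG.map F h hf

lemma PresW.comp {Φ : Ch C L ⥤ Ch C' L} {Ψ : Ch C' L ⥤ Ch C'' L} (h : PresW G G' Φ)
    (h' : PresW G' G'' Ψ) : PresW G G'' (Φ ⋙ Ψ) :=
  fun _ _ f hf => h' _ (h f hf)

lemma PresW.id {G₁ : Ch C L → Prop} (h : ∀ K, G K → Loc G₁ K) : PresW G G₁ (𝟭 _) :=
  fun _ _ _ hf => WG.trans h hf

lemma presW_shift (n : ℤ) : PresW G G (shiftFunctor (Ch C L) n) :=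
  fun _ _ f hf => (wg_shift_iff f n).2 hf

section lift

variable {Φ Φ' : Ch C L ⥤ Ch C' L}

/-- The functor induced on the localisations by a functor preserving `W`. -/
def PresW.lift (h : PresW G G' Φ) : DM G ⥤ DM G' :=
  Localization.Construction.lift (Φ ⋙ QM G') fun _ _ f hf => (h f hf).isIso

lemma PresW.fac (h : PresW G G' Φ) : QM G ⋙ h.lift = Φ ⋙ QM G' :=
  Localization.Construction.fac _ _

/-- The map induced on morphisms of the localisations by a functor preserving `W`. -/
def PresW.homMap (h : PresW G G' Φ) {X Y : Ch C L} (f : (QM G).obj X ⟶ (QM G).obj Y) :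
    (QM G').obj (Φ.obj X) ⟶ (QM G').obj (Φ.obj Y) :=
  h.lift.map f

variable (h : PresW G G' Φ) (h' : PresW G G' Φ') {X Y Z : Ch C L}

@[simp]
lemma PresW.homMap_map (f : X ⟶ Y) : h.homMap ((QM G).map f) = (QM G').map (Φ.map f) := by
  exact (Functor.congr_hom h.fac f).trans (by simp)

@[simp]
lemma PresW.homMap_id : h.homMap (𝟙 ((QM G).obj X)) = 𝟙 _ := h.lift.map_id _

lemma PresW.homMap_comp (f : (QM G).obj X ⟶ (QM G).obj Y) (g : (QM G).obj Y ⟶ (QM G).obj Z) :
    h.homMap (f ≫ g) = h.homMap f ≫ h.homMap g := h.lift.map_comp _ _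

lemma PresW.isIso_homMap (f : (QM G).obj X ⟶ (QM G).obj Y) [IsIso f] : IsIso (h.homMap f) :=
  inferInstanceAs (IsIso (h.lift.map f))

lemma PresW.homMap_add [Φ.Additive] (f g : (QM G).obj X ⟶ (QM G).obj Y) :
    h.homMap (f + g) = h.homMap f + h.homMap g := by
  obtain ⟨X₁, s, a, hs, e⟩ := right_fac f
  obtain ⟨X₂, t, b, ht, e'⟩ := right_fac ((QM G).map s ≫ g)
  have := hs.isIso
  have := ht.isIso
  have := h.isIso_homMap ((QM G).map t ≫ (QM G).map s)
  rw [← cancel_epi (h.homMap ((QM G).map t ≫ (QM G).map s)), Preadditive.comp_add,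
    ← h.homMap_comp, ← h.homMap_comp, ← h.homMap_comp, Preadditive.comp_add, Category.assoc,
    Category.assoc, e, e', ← Functor.map_comp, ← Functor.map_add, h.homMap_map, h.homMap_map,
    h.homMap_map, Functor.map_add, Functor.map_add]

lemma PresW.homMap_zero [Φ.Additive] : h.homMap (0 : (QM G).obj X ⟶ (QM G).obj Y) = 0 := by
  rw [← (QM G).map_zero, h.homMap_map, Functor.map_zero, Functor.map_zero]

lemma PresW.homMap_neg [Φ.Additive] (f : (QM G).obj X ⟶ (QM G).obj Y) :
    h.homMap (-f) = -h.homMap f := by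
  rw [eq_neg_iff_add_eq_zero, ← h.homMap_add, neg_add_cancel, h.homMap_zero]

lemma PresW.homMap_sub [Φ.Additive] (f g : (QM G).obj X ⟶ (QM G).obj Y) :
    h.homMap (f - g) = h.homMap f - h.homMap g := by
  rw [sub_eq_add_neg, h.homMap_add, h.homMap_neg, sub_eq_add_neg]

/-- Natural transformations stay natural on the localisations. -/
@[reassoc]
lemma PresW.homMap_naturality (τ : Φ ⟶ Φ') (f : (QM G).obj X ⟶ (QM G).obj Y) :
    h.homMap f ≫ (QM G').map (τ.app Y) = (QM G').map (τ.app X) ≫ h'.homMap f := by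
  obtain ⟨X₁, s, a, hs, e⟩ := right_fac f
  have := (h s hs).isIso
  rw [← cancel_epi ((QM G').map (Φ.map s)), ← Category.assoc, ← h.homMap_map, ← h.homMap_comp, e,
    h.homMap_map, h.homMap_map, ← Functor.map_comp, ← Functor.map_comp_assoc, τ.naturality,
    τ.naturality, Functor.map_comp, Functor.map_comp, Category.assoc, ← h'.homMap_map s,
    ← h'.homMap_comp, e, h'.homMap_map]

lemma PresW.homMap_homMap {Ψ : Ch C' L ⥤ Ch C'' L} (k : PresW G' G'' Ψ)
    (f : (QM G).obj X ⟶ (QM G).obj Y) : k.homMap (h.homMap f) = (h.comp k).homMap f := by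
  obtain ⟨X₁, s, a, hs, e⟩ := right_fac f
  have := (h.comp k s hs).isIso
  have e₁ := congrArg (fun g => k.homMap (h.homMap g)) e
  have e₂ := congrArg (h.comp k).homMap e
  simp only [PresW.homMap_comp, PresW.homMap_map] at e₁ e₂
  rw [← cancel_epi ((QM G'').map ((Φ ⋙ Ψ).map s))]
  exact e₁.trans e₂.symm

lemma PresW.id_homMap (k : PresW G G (𝟭 _)) (f : (QM G).obj X ⟶ (QM G).obj Y) :
    k.homMap f = f := by
  obtain ⟨X₁, s, a, hs, e⟩ := right_fac f
  have := hs.isIso
  have e₁ := congrArg k.homMap e
  simp only [PresW.homMap_comp, PresW.homMap_map] at e₁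
  rw [← cancel_epi ((QM G).map s)]
  exact e₁.trans e.symm

/-- The shift of complexes is bijective on morphisms of the localisation. -/
lemma shift_homMap_bijective (n : ℤ) (X Y : Ch C L) :
    Function.Bijective fun f : (QM G).obj X ⟶ (QM G).obj Y => (presW_shift n).homMap f := by
  have key : ∀ (a b : ℤ) (hab : a + b = 0) {X Y : Ch C L} (f : (QM G).obj X ⟶ (QM G).obj Y),
      (presW_shift b).homMap ((presW_shift a).homMap f) ≫
        (QM G).map ((shiftFunctorCompIsoId _ a b hab).hom.app Y) =
      (QM G).map ((shiftFunctorCompIsoId _ a b hab).hom.app X) ≫ f := fun a b hab X Y f => by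
    have k : PresW G G (𝟭 _) := fun _ _ _ hf => hf
    have e := ((presW_shift a).comp (presW_shift b)).homMap_naturality k
      (shiftFunctorCompIsoId _ a b hab).hom f
    rw [k.id_homMap] at e
    rw [PresW.homMap_homMap]
    exact e
  have inj : ∀ (a : ℤ) (X Y : Ch C L), Function.Injective
      fun f : (QM G).obj X ⟶ (QM G).obj Y => (presW_shift a).homMap f := fun a X Y f g e => by
    rw [← cancel_epi ((QM G).map ((shiftFunctorCompIsoId _ a (-a) (by simp)).hom.app X)),
      ← key, ← key]
    exact congrArg (fun u => (presW_shift (-a)).homMap u ≫ _) e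
  refine ⟨inj n X Y, fun g => ⟨(QM G).map ((shiftFunctorCompIsoId _ n (-n) (by simp)).inv.app X) ≫
    (presW_shift (-n)).homMap g ≫
      (QM G).map ((shiftFunctorCompIsoId _ n (-n) (by simp)).hom.app Y), inj (-n) _ _ ?_⟩⟩
  dsimp only
  rw [← cancel_mono ((QM G).map ((shiftFunctorCompIsoId _ n (-n) (by simp)).hom.app Y)), key,
    ← Functor.map_comp_assoc, Iso.hom_inv_id_app, (QM G).map_id, Category.id_comp]

end lift

end Pool.Agent.KEW
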