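import Pool.Agent.P.MP_6277db_ag.KEW.DefsA

/-!
First closure properties of localising classes of complexes.
-/

noncomputable section

open CategoryTheory Limits Pretriangulated ZeroObject

namespace Pool.Agent.KEW

variable {C : Type 1} [Category.{0} C] {L : Type 1} [CommRing L]

/-- Morphisms of complexes whose cone lies in the localising class generated by `G`. -/
def WG (G : Ch C L → Prop) : MorphismProperty (Ch C L) :=
  fun _ _ f => Loc G (CochainComplex.mappingCone f)

lemma WW_eq (u : C ⥤ AlgebraicGeometry.Scheme.{0}) : WW L u = WG (NGen u) := rfl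

variable {G : Ch C L → Prop}

lemma acyclic_of_isZero {K : Ch C L} (h : IsZero K) : K.Acyclic := fun n => by
  rw [HomologicalComplex.exactAt_iff_isZero_homology]
  exact (HomologicalComplex.homologyFunctor _ _ n).map_isZero h

lemma Loc.of_isZero {K : Ch C L} (h : IsZero K) : Loc G K :=
  Loc.acyclic K (acyclic_of_isZero h)

lemma Loc.zero : Loc G (0 : Ch C L) := Loc.of_isZero (isZero_zero _)

lemma Loc.of_iso {K K' : Ch C L} (e : K ≅ K') (h : Loc G K) : Loc G K' := by
  refine Loc.mid (ShortComplex.mk e.hom (0 : K' ⟶ 0) (by simp)) ?_ h Loc.zero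
  refine ShortComplex.ShortExact.mk' ?_ inferInstance ?_
  · rw [ShortComplex.exact_iff_epi _ rfl]
    infer_instance
  · exact (isZero_zero _).epi _

lemma loc_iff_of_iso {K K' : Ch C L} (e : K ≅ K') : Loc G K ↔ Loc G K' :=
  ⟨Loc.of_iso e, Loc.of_iso e.symm⟩

/-- The short exact sequence `0 ⟶ Y ⟶ cone f ⟶ X⟦1⟧ ⟶ 0`. -/
lemma cone_shortExact {X Y : Ch C L} (f : X ⟶ Y) :
    (CochainComplex.mappingCone.triangleRotateShortComplex f).ShortExact :=
  HomologicalComplex.shortExact_of_degreewise_shortExact _ fun n =>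
    (CochainComplex.mappingCone.triangleRotateShortComplexSplitting f n).shortExact

lemma acyclic_cone_iff {X Y : Ch C L} (f : X ⟶ Y) :
    (CochainComplex.mappingCone f).Acyclic ↔ QuasiIso f := by
  rw [← HomotopyCategory.quotient_obj_mem_subcategoryAcyclic_iff_acyclic,
    ← HomologicalComplex.mem_quasiIso_iff, ← HomotopyCategory.quotient_map_mem_quasiIso_iff,
    HomotopyCategory.quasiIso_eq_trW_subcategoryAcyclic]
  exact ((HomotopyCategory.subcategoryAcyclic _).trW_iff_of_distinguished _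
    (HomotopyCategory.mappingCone_triangleh_distinguished f)).symm

lemma WG.of_quasiIso {X Y : Ch C L} (f : X ⟶ Y) [h : QuasiIso f] : WG G f :=
  Loc.acyclic _ ((acyclic_cone_iff f).2 h)

lemma WG.loc_shift_iff {X Y : Ch C L} {f : X ⟶ Y} (h : WG G f) :
    Loc G Y ↔ Loc G (X⟦(1 : ℤ)⟧) :=
  ⟨fun hY => Loc.right _ (cone_shortExact f) hY h, fun hX => Loc.left _ (cone_shortExact f) h hX⟩

lemma loc_shift_one_iff (X : Ch C L) : Loc G (X⟦(1 : ℤ)⟧) ↔ Loc G X :=
  (WG.loc_shift_iff (WG.of_quasiIso (𝟙 X))).symm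

/-- The class `Loc G` is invariant under `W`-morphisms. -/
lemma WG.loc_iff {X Y : Ch C L} {f : X ⟶ Y} (h : WG G f) : Loc G X ↔ Loc G Y := by
  rw [h.loc_shift_iff, loc_shift_one_iff]

lemma loc_iff_of_quasiIso {X Y : Ch C L} (f : X ⟶ Y) [QuasiIso f] : Loc G X ↔ Loc G Y :=
  (WG.of_quasiIso f).loc_iff

lemma loc_shift_iff (X : Ch C L) (n : ℤ) : Loc G (X⟦n⟧) ↔ Loc G X := by
  induction n using Int.induction_on with
  | zero => exact loc_iff_of_iso ((shiftFunctorZero _ ℤ).app X)
  | succ n ih =>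
    rw [← ih, ← loc_shift_one_iff (X⟦(n : ℤ)⟧)]
    exact loc_iff_of_iso ((shiftFunctorAdd _ (n : ℤ) 1).app X)
  | pred n ih =>
    rw [← ih, ← loc_shift_one_iff (X⟦(-(n : ℤ) - 1)⟧)]
    exact loc_iff_of_iso ((shiftFunctorAdd' _ (-(n : ℤ) - 1) 1 (-(n : ℤ)) (by ring)).app X).symm

lemma Loc.shift {X : Ch C L} (h : Loc G X) (n : ℤ) : Loc G (X⟦n⟧) := (loc_shift_iff X n).2 h

/-- A morphism between objects of `Loc G` is a `W`-morphism. -/
lemma WG.of_loc {X Y : Ch C L} (f : X ⟶ Y) (hX : Loc G X) (hY : Loc G Y) : WG G f :=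
  Loc.mid _ (cone_shortExact f) hY (hX.shift 1)

lemma Loc.cone {X Y : Ch C L} (f : X ⟶ Y) (hX : Loc G X) (hY : Loc G Y) :
    Loc G (CochainComplex.mappingCone f) := WG.of_loc f hX hY

lemma loc_iff_of_homotopyEquiv {X Y : Ch C L} (e : HomotopyEquiv X Y) : Loc G X ↔ Loc G Y :=
  loc_iff_of_quasiIso e.hom

lemma Loc.trans {G' : Ch C L → Prop} (h : ∀ K, G K → Loc G' K) {K : Ch C L} (hK : Loc G K) :
    Loc G' K := by
  induction hK with
  | gen K hK => exact h K hK
  | acyclic K hK => exact Loc.acyclic K hK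
  | left S hS _ _ h₂ h₃ => exact Loc.left S hS h₂ h₃
  | mid S hS _ _ h₁ h₃ => exact Loc.mid S hS h₁ h₃
  | right S hS _ _ h₁ h₂ => exact Loc.right S hS h₁ h₂
  | sum ι K _ h => exact Loc.sum ι K h

lemma Loc.mono {G' : Ch C L → Prop} (h : ∀ K, G K → G' K) {K : Ch C L} (hK : Loc G K) :
    Loc G' K :=
  hK.trans fun K hK => Loc.gen K (h K hK)

lemma WG.trans {G' : Ch C L → Prop} (h : ∀ K, G K → Loc G' K) {X Y : Ch C L} {f : X ⟶ Y}
    (hf : WG G f) : WG G' f :=
  Loc.trans h hf

/-- The first map of a short exact sequence is a `W`-morphism iff the cokernel is in `Loc G`. -/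
lemma wg_f_iff {S : ShortComplex (Ch C L)} (hS : S.ShortExact) : WG G S.f ↔ Loc G S.X₃ := by
  have := CochainComplex.mappingCone.quasiIso_descShortComplex hS
  exact loc_iff_of_quasiIso (CochainComplex.mappingCone.descShortComplex S)

lemma wg_iff_cokernel {X Y : Ch C L} (f : X ⟶ Y) [Mono f] : WG G f ↔ Loc G (cokernel f) :=
  wg_f_iff (S := ShortComplex.mk f (cokernel.π f) (by simp))
    { exact := ShortComplex.exact_cokernel f }

lemma Loc.biprod {X Y : Ch C L} (hX : Loc G X) (hY : Loc G Y) : Loc G (X ⊞ Y) :=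
  Loc.mid (ShortComplex.mk Limits.biprod.inl Limits.biprod.snd (by simp))
    (ShortComplex.Splitting.ofHasBinaryBiproduct X Y).shortExact hX hY

/-- Direct sums indexed by a small type. -/
lemma Loc.sum' {ι : Type} (K : ι → Ch C L) (h : ∀ i, Loc G (K i)) : Loc G (∐ K) :=
  Loc.of_iso (Sigma.reindex (Equiv.ulift.{1}) K)
    (Loc.sum (ULift.{1} ι) (K ∘ Equiv.ulift.{1}) fun _ => h _)

lemma Loc.of_isColimit {ι : Type 1} {K : ι → Ch C L} {c : Cofan K} (hc : IsColimit c)
    (h : ∀ i, Loc G (K i)) : Loc G c.pt :=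
  Loc.of_iso ((coproductIsCoproduct K).coconePointUniqueUpToIso hc) (Loc.sum ι K h)

/-- The homotopy category of complexes of presheaves. -/
abbrev HK (C : Type 1) [Category.{0} C] (L : Type 1) [CommRing L] : Type 2 :=
  HomotopyCategory (PSh C L) (ComplexShape.up ℤ)

/-- The quotient functor to the homotopy category. -/
abbrev quo (C : Type 1) [Category.{0} C] (L : Type 1) [CommRing L] : Ch C L ⥤ HK C L :=
  HomotopyCategory.quotient (PSh C L) (ComplexShape.up ℤ)

variable (G) in
/-- The class `Loc G` as a class of objects of the homotopy category. -/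
def NK : ObjectProperty (HK C L) := fun X => Loc G X.as

lemma nk_quo_iff (K : Ch C L) : NK G ((quo C L).obj K) ↔ Loc G K := Iff.rfl

instance : (NK G).IsClosedUnderIsomorphisms where
  of_iso {X Y} e h := by
    obtain ⟨X, rfl⟩ := HomotopyCategory.quotient_obj_surjective X
    obtain ⟨Y, rfl⟩ := HomotopyCategory.quotient_obj_surjective Y
    exact (loc_iff_of_homotopyEquiv (HomotopyCategory.homotopyEquivOfIso e)).1 h

instance : (NK G).IsTriangulated where
  exists_zero := ⟨(quo C L).obj 0, (quo C L).map_isZero (isZero_zero _), Loc.zero⟩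
  isStableUnderShiftBy n := ⟨fun X h => by
    obtain ⟨X, rfl⟩ := HomotopyCategory.quotient_obj_surjective X
    exact (NK G).prop_of_iso (((quo C L).commShiftIso n).app X) (Loc.shift h n)⟩
  toIsTriangulatedClosed₂ := ObjectProperty.IsTriangulatedClosed₂.mk' (by
    rintro T ⟨X, Y, f, ⟨e⟩⟩ h₁ h₃
    have h₁' : Loc G X := (NK G).prop_of_iso (Triangle.π₁.mapIso e) h₁
    have h₃' : WG G f := (NK G).prop_of_iso (Triangle.π₃.mapIso e) h₃
    exact (NK G).prop_of_iso (Triangle.π₂.mapIso e).symm (h₃'.loc_iff.1 h₁'))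

lemma trW_quo_iff {X Y : Ch C L} (f : X ⟶ Y) : (NK G).trW ((quo C L).map f) ↔ WG G f :=
  (NK G).trW_iff_of_distinguished _ (HomotopyCategory.mappingCone_triangleh_distinguished f)

end Pool.Agent.KEW
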