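import Pool.Agent.P.MP_6277db_ag.KEW.L1.Fun

/-!
Exact sequences of morphism groups, orthogonality and local objects.
-/

set_option backward.isDefEq.respectTransparency false

noncomputable section

open CategoryTheory Limits Pretriangulated ZeroObject

namespace Pool.Agent.KEW

section generic

variable {D : Type*} [Category D] [HasShift D ℤ]

/-- The objects isomorphic to a shift of `a`. -/
def ShC (a : D) : ObjectProperty D := fun x => ∃ n : ℤ, Nonempty (x ≅ a⟦n⟧)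

instance (a : D) : (ShC a).IsStableUnderShift ℤ where
  isStableUnderShiftBy m := ⟨by
    rintro x ⟨n, ⟨e⟩⟩
    exact ⟨n + m, ⟨(shiftFunctor D m).mapIso e ≪≫ ((shiftFunctorAdd D n m).app a).symm⟩⟩⟩

lemma ShC.self (a : D) : ShC a a := ⟨0, ⟨((shiftFunctorZero D ℤ).app a).symm⟩⟩

lemma ShC.shift (a : D) (n : ℤ) : ShC a (a⟦n⟧) := ⟨n, ⟨Iso.refl _⟩⟩

variable [Preadditive D] [∀ n : ℤ, (shiftFunctor D n).Additive]

/-- All morphisms from shifts of `a` to `b` vanish. -/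
def OD (a b : D) : Prop := ∀ (n : ℤ) (f : a⟦n⟧ ⟶ b), f = 0

omit [∀ n : ℤ, (shiftFunctor D n).Additive] in
lemma od_iff_rightOrthogonal (a b : D) : OD a b ↔ (ShC a).rightOrthogonal b := by
  constructor
  · rintro h x f ⟨n, ⟨e⟩⟩
    rw [← cancel_epi e.inv, h n (e.inv ≫ f), comp_zero]
  · intro h n f
    exact h f (ShC.shift a n)

lemma od_iff_right (a b : D) : OD a b ↔ ∀ (n : ℤ) (f : a ⟶ b⟦n⟧), f = 0 := by
  constructor
  · intro h n f
    rw [od_iff_rightOrthogonal] at h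
    exact (ShC a).rightOrthogonal.le_shift n _ h f (ShC.self a)
  · intro h n f
    apply (shiftFunctor D (-n)).map_injective
    rw [Functor.map_zero, ← cancel_epi ((shiftEquiv D n).unitIso.hom.app a), comp_zero]
    exact h _ _

lemma od_iff_leftOrthogonal (a b : D) : OD a b ↔ (ShC b).leftOrthogonal a := by
  rw [od_iff_right]
  constructor
  · rintro h x f ⟨n, ⟨e⟩⟩
    rw [← cancel_mono e.hom, h n (f ≫ e.hom), zero_comp]
  · intro h n f
    exact h f (ShC.shift b n)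

lemma OD.retract_left {a a' b : D} (i : a ⟶ a') (p : a' ⟶ a) (e : i ≫ p = 𝟙 _) (h : OD a' b) :
    OD a b := by
  rw [od_iff_right] at h ⊢
  intro n f
  rw [← Category.id_comp f, ← e, Category.assoc, h n (p ≫ f), comp_zero]

omit [∀ n : ℤ, (shiftFunctor D n).Additive] in
lemma OD.retract_right {a b b' : D} (i : b ⟶ b') (p : b' ⟶ b) (e : i ≫ p = 𝟙 _) (h : OD a b') :
    OD a b := by
  intro n f
  rw [← Category.comp_id f, ← e, ← Category.assoc, h n (f ≫ i), zero_comp]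

lemma od_shift_left_iff (a b : D) (n : ℤ) : OD (a⟦n⟧) b ↔ OD a b := by
  rw [od_iff_leftOrthogonal, od_iff_leftOrthogonal]
  exact ObjectProperty.prop_shift_iff_of_isStableUnderShift _ _ _

omit [∀ n : ℤ, (shiftFunctor D n).Additive] in
lemma od_shift_right_iff (a b : D) (n : ℤ) : OD a (b⟦n⟧) ↔ OD a b := by
  rw [od_iff_rightOrthogonal, od_iff_rightOrthogonal]
  exact ObjectProperty.prop_shift_iff_of_isStableUnderShift _ _ _

omit [Preadditive D] [∀ n : ℤ, (shiftFunctor D n).Additive] in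
lemma bijective_precomp_shift_iff {a a' : D} (φ : a ⟶ a') (b : D) (n : ℤ) :
    (Function.Bijective fun f : a'⟦n⟧ ⟶ b => φ⟦n⟧' ≫ f) ↔
      Function.Bijective fun f : a' ⟶ b⟦-n⟧ => φ ≫ f := by
  let adj := (shiftEquiv D n).toAdjunction
  have e : (fun f : a' ⟶ b⟦-n⟧ => φ ≫ f) ∘ adj.homEquiv a' b =
      adj.homEquiv a b ∘ fun f : a'⟦n⟧ ⟶ b => φ⟦n⟧' ≫ f := by
    funext f
    exact (adj.homEquiv_naturality_left φ f).symm
  rw [← (adj.homEquiv a' b).bijective.of_comp_iff, e, (adj.homEquiv a b).bijective.of_comp_iff']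

omit [Preadditive D] [∀ n : ℤ, (shiftFunctor D n).Additive] in
lemma bijective_postcomp_shift_iff (a : D) {b b' : D} (φ : b ⟶ b') (n : ℤ) :
    (Function.Bijective fun f : a⟦n⟧ ⟶ b => f ≫ φ) ↔
      Function.Bijective fun f : a ⟶ b⟦-n⟧ => f ≫ φ⟦-n⟧' := by
  let adj := (shiftEquiv D n).toAdjunction
  have e : (fun f : a ⟶ b⟦-n⟧ => f ≫ φ⟦-n⟧') ∘ adj.homEquiv a b =
      adj.homEquiv a b' ∘ fun f : a⟦n⟧ ⟶ b => f ≫ φ := by
    funext f
    exact (adj.homEquiv_naturality_right f φ).symm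
  rw [← (adj.homEquiv a b).bijective.of_comp_iff, e, (adj.homEquiv a b').bijective.of_comp_iff']

omit [HasShift D ℤ] [Preadditive D] [∀ n : ℤ, (shiftFunctor D n).Additive] in
lemma bijective_postcomp_of_iso {x y b b' : D} (e : x ≅ y) (φ : b ⟶ b')
    (h : Function.Bijective fun f : y ⟶ b => f ≫ φ) :
    Function.Bijective fun f : x ⟶ b => f ≫ φ := by
  constructor
  · intro f g hfg
    rw [← cancel_epi e.inv]
    apply h.1
    simpa using hfg
  · intro g
    obtain ⟨f, hf⟩ := h.2 (e.inv ≫ g)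
    refine ⟨e.hom ≫ f, ?_⟩
    dsimp at hf ⊢
    simp [hf]

omit [HasShift D ℤ] [Preadditive D] [∀ n : ℤ, (shiftFunctor D n).Additive] in
lemma bijective_precomp_of_iso {x y a a' : D} (e : x ≅ y) (φ : a ⟶ a')
    (h : Function.Bijective fun f : a' ⟶ y => φ ≫ f) :
    Function.Bijective fun f : a' ⟶ x => φ ≫ f := by
  constructor
  · intro f g hfg
    rw [← cancel_mono e.hom]
    apply h.1
    dsimp at hfg ⊢
    rw [reassoc_of% hfg]
  · intro g
    obtain ⟨f, hf⟩ := h.2 (g ≫ e.hom)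
    refine ⟨f ≫ e.inv, ?_⟩
    dsimp at hf ⊢
    simp [reassoc_of% hf]

omit [HasShift D ℤ] [Preadditive D] [∀ n : ℤ, (shiftFunctor D n).Additive] in
lemma bijective_precomp_iff_of_sq {a a' c c' : D} {φ : a ⟶ a'} {ψ : c ⟶ c'} (e : a ≅ c)
    (e' : a' ≅ c') (w : φ ≫ e'.hom = e.hom ≫ ψ) (b : D) :
    (Function.Bijective fun f : a' ⟶ b => φ ≫ f) ↔
      Function.Bijective fun f : c' ⟶ b => ψ ≫ f := by
  have h : (fun f : a' ⟶ b => φ ≫ f) ∘ (e'.homFromEquiv (Z := b)).symm =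
      (e.homFromEquiv (Z := b)).symm ∘ fun f : c' ⟶ b => ψ ≫ f := by
    funext f
    simp [Iso.homFromEquiv, reassoc_of% w]
  rw [← (e'.homFromEquiv (Z := b)).symm.bijective.of_comp_iff, h,
    (e.homFromEquiv (Z := b)).symm.bijective.of_comp_iff']

variable [HasZeroObject D] [Pretriangulated D] {T : Triangle D} (hT : T ∈ distTriang D)
include hT

lemma OD.postcomp_bijective {a : D} (h : OD a T.obj₃) {x : D} (hx : ShC a x) :
    Function.Bijective fun f : x ⟶ T.obj₁ => f ≫ T.mor₁ := by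
  have h₁ := (od_iff_rightOrthogonal _ _).1 ((od_shift_right_iff a T.obj₃ (-1)).2 h)
  have h₂ := (od_iff_rightOrthogonal _ _).1 h
  constructor
  · suffices ∀ f : x ⟶ T.obj₁, f ≫ T.mor₁ = 0 → f = 0 from fun f g hfg => by
      rw [← sub_eq_zero]
      exact this _ (by rw [Preadditive.sub_comp, sub_eq_zero]; exact hfg)
    intro f hf
    obtain ⟨g, rfl⟩ := Triangle.coyoneda_exact₂ _ (inv_rot_of_distTriang _ hT) f hf
    rw [h₁ g hx, zero_comp]
  · intro g
    obtain ⟨f, rfl⟩ := Triangle.coyoneda_exact₂ _ hT g (h₂ _ hx)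
    exact ⟨f, rfl⟩

lemma OD.precomp_bijective {b : D} (h : OD T.obj₃ b) {x : D} (hx : ShC b x) :
    Function.Bijective fun f : T.obj₂ ⟶ x => T.mor₁ ≫ f := by
  have h₁ := (od_iff_leftOrthogonal _ _).1 ((od_shift_left_iff T.obj₃ b (-1)).2 h)
  have h₂ := (od_iff_leftOrthogonal _ _).1 h
  constructor
  · suffices ∀ f : T.obj₂ ⟶ x, T.mor₁ ≫ f = 0 → f = 0 from fun f g hfg => by
      rw [← sub_eq_zero]
      exact this _ (by rw [Preadditive.comp_sub, sub_eq_zero]; exact hfg)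
    intro f hf
    obtain ⟨g, rfl⟩ := Triangle.yoneda_exact₂ _ hT f hf
    rw [h₂ g hx, comp_zero]
  · intro g
    obtain ⟨f, rfl⟩ := Triangle.yoneda_exact₂ _ (inv_rot_of_distTriang _ hT) g (h₁ _ hx)
    exact ⟨f, rfl⟩

lemma od_obj₃_right_iff (a : D) : OD a T.obj₃ ↔
    ∀ n : ℤ, Function.Bijective fun f : a⟦n⟧ ⟶ T.obj₁ => f ≫ T.mor₁ := by
  refine ⟨fun h n => h.postcomp_bijective hT (ShC.shift a n), fun h n f => ?_⟩
  have h₁ : Function.Bijective fun f : a⟦n⟧ ⟶ T.obj₁⟦(1 : ℤ)⟧ => f ≫ T.mor₁⟦(1 : ℤ)⟧' := by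
    have := (bijective_postcomp_shift_iff (a⟦n⟧) T.mor₁ (-1)).1
      (bijective_postcomp_of_iso ((shiftFunctorAdd D n (-1)).app a).symm _ (h (n + -1)))
    exact this
  have h₂ : f ≫ T.mor₃ = 0 := h₁.1 (by
    simp only [Category.assoc, comp_distTriang_mor_zero₃₁ _ hT, comp_zero, zero_comp])
  obtain ⟨g, rfl⟩ := Triangle.coyoneda_exact₃ _ hT f h₂
  obtain ⟨k, rfl⟩ := (h n).2 g
  simp only [Category.assoc, comp_distTriang_mor_zero₁₂ _ hT, comp_zero]

lemma od_obj₃_left_iff (b : D) : OD T.obj₃ b ↔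
    ∀ n : ℤ, Function.Bijective fun f : T.obj₂⟦n⟧ ⟶ b => T.mor₁⟦n⟧' ≫ f := by
  simp only [bijective_precomp_shift_iff]
  refine ⟨fun h n => h.precomp_bijective hT (ShC.shift b (-n)), fun h => ?_⟩
  have h' : ∀ n : ℤ, Function.Bijective fun f : T.obj₂ ⟶ b⟦n⟧ => T.mor₁ ≫ f := fun n => by
    obtain ⟨m, rfl⟩ : ∃ m, n = -m := ⟨-n, by ring⟩
    exact h m
  rw [od_iff_right]
  intro n f
  have h₁ : Function.Bijective fun f : T.obj₂⟦(1 : ℤ)⟧ ⟶ b⟦n⟧ => T.mor₁⟦(1 : ℤ)⟧' ≫ f :=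
    (bijective_precomp_shift_iff T.mor₁ (b⟦n⟧) 1).2
      (bijective_precomp_of_iso ((shiftFunctorAdd D n (-1)).app b).symm _ (h' (n + -1)))
  have h₂ : T.mor₂ ≫ f = 0 := (h' n).1 (by
    simp only [← Category.assoc, comp_distTriang_mor_zero₁₂ _ hT, comp_zero, zero_comp])
  obtain ⟨g, rfl⟩ := Triangle.yoneda_exact₃ _ hT f h₂
  obtain ⟨k, rfl⟩ := h₁.2 g
  simp only [← Category.assoc, comp_distTriang_mor_zero₃₁ _ hT, zero_comp]

lemma OD.left₁ {b : D} (h₂ : OD T.obj₂ b) (h₃ : OD T.obj₃ b) : OD T.obj₁ b := by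
  rw [od_iff_leftOrthogonal] at *
  exact ObjectProperty.ext_of_isTriangulatedClosed₁ _ T hT h₂ h₃

lemma OD.left₂ {b : D} (h₁ : OD T.obj₁ b) (h₃ : OD T.obj₃ b) : OD T.obj₂ b := by
  rw [od_iff_leftOrthogonal] at *
  exact ObjectProperty.ext_of_isTriangulatedClosed₂ _ T hT h₁ h₃

lemma OD.left₃ {b : D} (h₁ : OD T.obj₁ b) (h₂ : OD T.obj₂ b) : OD T.obj₃ b := by
  rw [od_iff_leftOrthogonal] at *
  exact ObjectProperty.ext_of_isTriangulatedClosed₃ _ T hT h₁ h₂

lemma OD.right₁ {a : D} (h₂ : OD a T.obj₂) (h₃ : OD a T.obj₃) : OD a T.obj₁ := by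
  rw [od_iff_rightOrthogonal] at *
  exact ObjectProperty.ext_of_isTriangulatedClosed₁ _ T hT h₂ h₃

lemma OD.right₂ {a : D} (h₁ : OD a T.obj₁) (h₃ : OD a T.obj₃) : OD a T.obj₂ := by
  rw [od_iff_rightOrthogonal] at *
  exact ObjectProperty.ext_of_isTriangulatedClosed₂ _ T hT h₁ h₃

lemma OD.right₃ {a : D} (h₁ : OD a T.obj₁) (h₂ : OD a T.obj₂) : OD a T.obj₃ := by
  rw [od_iff_rightOrthogonal] at *
  exact ObjectProperty.ext_of_isTriangulatedClosed₃ _ T hT h₁ h₂

end generic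

variable {C : Type 1} [Category.{0} C] {L : Type 1} [CommRing L] {G : Ch C L → Prop}

section ses

variable {S : ShortComplex (Ch C L)} (hS : S.ShortExact) {A : DM G}
include hS

lemma g_sesδ : (QM G).map S.g ≫ sesδ G hS = 0 := by
  have h := comp_distTriang_mor_zero₂₃ _ (sesTriangle_distinguished (G := G) hS)
  rw [← cancel_mono (((QM G).commShiftIso (1 : ℤ)).hom.app S.X₁), Category.assoc, zero_comp]
  exact h

lemma sesδ_f : sesδ G hS ≫ (QM G).map (S.f⟦(1 : ℤ)⟧') = 0 := by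
  have h := comp_distTriang_mor_zero₃₁ _ (sesTriangle_distinguished (G := G) hS)
  rw [← cancel_mono (((QM G).commShiftIso (1 : ℤ)).hom.app S.X₂), Category.assoc, zero_comp,
    Functor.commShiftIso_hom_naturality, ← Category.assoc]
  exact h

lemma ses_cov₂ (x : A ⟶ (QM G).obj S.X₂) (hx : x ≫ (QM G).map S.g = 0) :
    ∃ y : A ⟶ (QM G).obj S.X₁, x = y ≫ (QM G).map S.f :=
  Triangle.coyoneda_exact₂ _ (sesTriangle_distinguished (G := G) hS) x hx

lemma ses_cov₃ (x : A ⟶ (QM G).obj S.X₃) (hx : x ≫ sesδ G hS = 0) :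
    ∃ y : A ⟶ (QM G).obj S.X₂, x = y ≫ (QM G).map S.g :=
  Triangle.coyoneda_exact₃ _ (sesTriangle_distinguished (G := G) hS) x (by
    change x ≫ sesδ G hS ≫ _ = 0
    rw [← Category.assoc, hx, zero_comp])

lemma ses_cov₁ (x : A ⟶ (QM G).obj (S.X₁⟦(1 : ℤ)⟧)) (hx : x ≫ (QM G).map (S.f⟦(1 : ℤ)⟧') = 0) :
    ∃ y : A ⟶ (QM G).obj S.X₃, x = y ≫ sesδ G hS := by
  obtain ⟨y, hy⟩ := Triangle.coyoneda_exact₁ _ (sesTriangle_distinguished (G := G) hS)
    (x ≫ ((QM G).commShiftIso (1 : ℤ)).hom.app S.X₁) (by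
      change (x ≫ _) ≫ ((QM G).map S.f)⟦(1 : ℤ)⟧' = 0
      rw [Category.assoc, ← Functor.commShiftIso_hom_naturality, ← Category.assoc, hx, zero_comp])
  refine ⟨y, ?_⟩
  rw [← cancel_mono (((QM G).commShiftIso (1 : ℤ)).hom.app S.X₁), Category.assoc]
  exact hy

lemma ses_contra₂ (x : (QM G).obj S.X₂ ⟶ A) (hx : (QM G).map S.f ≫ x = 0) :
    ∃ y : (QM G).obj S.X₃ ⟶ A, x = (QM G).map S.g ≫ y :=
  Triangle.yoneda_exact₂ _ (sesTriangle_distinguished (G := G) hS) x hx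

lemma ses_contra₃ (x : (QM G).obj S.X₃ ⟶ A) (hx : (QM G).map S.g ≫ x = 0) :
    ∃ y : (QM G).obj (S.X₁⟦(1 : ℤ)⟧) ⟶ A, x = sesδ G hS ≫ y := by
  obtain ⟨y, hy⟩ := Triangle.yoneda_exact₃ _ (sesTriangle_distinguished (G := G) hS) x hx
  refine ⟨((QM G).commShiftIso (1 : ℤ)).hom.app S.X₁ ≫ y, ?_⟩
  rw [← Category.assoc]
  exact hy

lemma ses_contra₁ (x : (QM G).obj (S.X₁⟦(1 : ℤ)⟧) ⟶ A) (hx : sesδ G hS ≫ x = 0) :
    ∃ y : (QM G).obj (S.X₂⟦(1 : ℤ)⟧) ⟶ A, x = (QM G).map (S.f⟦(1 : ℤ)⟧') ≫ y := by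
  obtain ⟨y, hy⟩ := Triangle.yoneda_exact₃ _
    (rot_of_distTriang _ (sesTriangle_distinguished (G := G) hS))
    (((QM G).commShiftIso (1 : ℤ)).inv.app S.X₁ ≫ x) (by
      change (sesδ G hS ≫ _) ≫ _ = 0
      rw [Category.assoc, Iso.hom_inv_id_app_assoc, hx])
  refine ⟨-(((QM G).commShiftIso (1 : ℤ)).hom.app S.X₂ ≫ y), ?_⟩
  change _ = (-((QM G).map S.f)⟦(1 : ℤ)⟧') ≫ y at hy
  rw [Preadditive.comp_neg, Functor.commShiftIso_hom_naturality_assoc, ← Preadditive.comp_neg,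
    ← Preadditive.neg_comp, ← hy, Iso.hom_inv_id_app_assoc]

end ses

/-- A morphism which vanishes in `DM G` factors through an object of `Loc G`. -/
lemma factor_of_map_eq_zero {X Y : Ch C L} (f : X ⟶ Y) (h : (QM G).map f = 0) :
    ∃ (K : Ch C L) (a : X ⟶ K) (b : K ⟶ Y), Loc G K ∧ a ≫ b = f := by
  obtain ⟨X', s, hs, ⟨H⟩⟩ := (map_eq_iff_precomp f 0).1 (by rw [h, Functor.map_zero])
  refine ⟨CochainComplex.mappingCone s, CochainComplex.mappingCone.inr s,
    CochainComplex.mappingCone.desc s (CochainComplex.HomComplex.Cochain.ofHomotopy H) f ?_,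
    hs, by simp⟩
  simp

/-- Morphisms out of a direct sum are determined by their components. -/
lemma sigma_hom_ext {ι : Type 1} (A : ι → Ch C L) {B : DM G} (f g : (QM G).obj (∐ A) ⟶ B)
    (h : ∀ i, (QM G).map (Sigma.ι A i) ≫ f = (QM G).map (Sigma.ι A i) ≫ g) : f = g := by
  obtain ⟨B, rfl⟩ := QM_obj_surjective G B
  rw [← sub_eq_zero]
  have h' : ∀ i, (QM G).map (Sigma.ι A i) ≫ (f - g) = 0 := fun i => by
    rw [Preadditive.comp_sub, h i, sub_self]
  generalize f - g = k at h' ⊢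
  obtain ⟨Y, s, u, hs, e⟩ := left_fac k
  have := hs.isIso
  have h₁ : ∀ i, ∃ (K : Ch C L) (a : A i ⟶ K) (b : K ⟶ Y), Loc G K ∧ a ≫ b = Sigma.ι A i ≫ u :=
    fun i => factor_of_map_eq_zero _ (by
      rw [Functor.map_comp, ← e, ← Category.assoc, h' i, zero_comp])
  choose K a b hK hab using h₁
  have h₂ : u = Limits.Sigma.map a ≫ Sigma.desc b := by
    apply Sigma.hom_ext
    intro i
    simp [hab]
  rw [← cancel_mono ((QM G).map s), e, zero_comp, h₂, Functor.map_comp]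
  rw [(Loc.sum ι K hK).isZero.eq_of_src ((QM G).map (Sigma.desc b)) 0, comp_zero]

lemma sigma_hom_exists {ι : Type 1} (A : ι → Ch C L) {B : DM G}
    (f : ∀ i, (QM G).obj (A i) ⟶ B) :
    ∃ g : (QM G).obj (∐ A) ⟶ B, ∀ i, (QM G).map (Sigma.ι A i) ≫ g = f i := by
  obtain ⟨B, rfl⟩ := QM_obj_surjective G B
  choose X s g hs e using fun i => right_fac (f i)
  have := (WG.sigma s hs).isIso
  refine ⟨inv ((QM G).map (Limits.Sigma.map s)) ≫ (QM G).map (Sigma.desc g), fun i => ?_⟩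
  have := (hs i).isIso
  rw [← cancel_epi ((QM G).map (s i)), e, ← Functor.map_comp_assoc, ← Sigma.ι_map,
    Functor.map_comp_assoc, IsIso.hom_inv_id_assoc, ← Functor.map_comp, Sigma.ι_desc]

variable (G) in
/-- All morphisms in `DM G` from shifts of `A` to `B` vanish. -/
def Orth (A B : Ch C L) : Prop :=
  ∀ (n : ℤ) (f : (QM G).obj (A⟦n⟧) ⟶ (QM G).obj B), f = 0

namespace Orth

variable {A A' B B' : Ch C L}

lemma iff_od : Orth G A B ↔ OD ((QM G).obj A) ((QM G).obj B) := by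
  refine forall_congr' fun n => ⟨fun h f => ?_, fun h f => ?_⟩
  · rw [← cancel_epi (((QM G).commShiftIso n).hom.app A), comp_zero]
    exact h _
  · rw [← cancel_epi (((QM G).commShiftIso n).inv.app A), comp_zero]
    exact h _

lemma eq_zero (h : Orth G A B) (f : (QM G).obj A ⟶ (QM G).obj B) : f = 0 :=
  (od_iff_rightOrthogonal _ _).1 (iff_od.1 h) f (ShC.self _)

lemma iff_right : Orth G A B ↔ ∀ (n : ℤ) (f : (QM G).obj A ⟶ (QM G).obj (B⟦n⟧)), f = 0 := by
  rw [iff_od, od_iff_right]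
  refine forall_congr' fun n => ⟨fun h f => ?_, fun h f => ?_⟩
  · rw [← cancel_mono (((QM G).commShiftIso n).hom.app B), zero_comp]
    exact h _
  · rw [← cancel_mono (((QM G).commShiftIso n).inv.app B), zero_comp]
    exact h _

lemma of_loc_left (h : Loc G A) (B : Ch C L) : Orth G A B :=
  fun n f => (h.shift n).isZero.eq_of_src f 0

lemma of_loc_right (A : Ch C L) (h : Loc G B) : Orth G A B :=
  fun _ f => h.isZero.eq_of_tgt f 0

lemma iff_of_iso_left (e : (QM G).obj A ≅ (QM G).obj A') : Orth G A B ↔ Orth G A' B := by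
  rw [iff_od, iff_od]
  exact ⟨OD.retract_left e.inv e.hom e.inv_hom_id, OD.retract_left e.hom e.inv e.hom_inv_id⟩

lemma iff_of_iso_right (e : (QM G).obj B ≅ (QM G).obj B') : Orth G A B ↔ Orth G A B' := by
  rw [iff_od, iff_od]
  exact ⟨OD.retract_right e.inv e.hom e.inv_hom_id, OD.retract_right e.hom e.inv e.hom_inv_id⟩

lemma iff_of_wg_left {f : A ⟶ A'} (hf : WG G f) : Orth G A B ↔ Orth G A' B :=
  have := hf.isIso
  iff_of_iso_left (asIso ((QM G).map f))

lemma iff_of_wg_right {f : B ⟶ B'} (hf : WG G f) : Orth G A B ↔ Orth G A B' :=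
  have := hf.isIso
  iff_of_iso_right (asIso ((QM G).map f))

lemma shift_left_iff (n : ℤ) : Orth G (A⟦n⟧) B ↔ Orth G A B := by
  rw [iff_od, iff_od, ← od_shift_left_iff ((QM G).obj A) _ n]
  let e := ((QM G).commShiftIso n).app A
  exact ⟨OD.retract_left e.inv e.hom e.inv_hom_id, OD.retract_left e.hom e.inv e.hom_inv_id⟩

lemma shift_right_iff (n : ℤ) : Orth G A (B⟦n⟧) ↔ Orth G A B := by
  rw [iff_od, iff_od, ← od_shift_right_iff _ ((QM G).obj B) n]
  let e := ((QM G).commShiftIso n).app B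
  exact ⟨OD.retract_right e.inv e.hom e.inv_hom_id, OD.retract_right e.hom e.inv e.hom_inv_id⟩

lemma retract_left (i : (QM G).obj A ⟶ (QM G).obj A') (p : (QM G).obj A' ⟶ (QM G).obj A)
    (e : i ≫ p = 𝟙 _) (h : Orth G A' B) : Orth G A B :=
  iff_od.2 ((iff_od.1 h).retract_left i p e)

lemma retract_right (i : (QM G).obj B ⟶ (QM G).obj B') (p : (QM G).obj B' ⟶ (QM G).obj B)
    (e : i ≫ p = 𝟙 _) (h : Orth G A B') : Orth G A B :=
  iff_od.2 ((iff_od.1 h).retract_right i p e)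

section ses

variable {S : ShortComplex (Ch C L)} (hS : S.ShortExact)
include hS

lemma left₁ (h₂ : Orth G S.X₂ B) (h₃ : Orth G S.X₃ B) : Orth G S.X₁ B :=
  iff_od.2 (OD.left₁ (sesTriangle_distinguished (G := G) hS) (iff_od.1 h₂) (iff_od.1 h₃))

lemma left₂ (h₁ : Orth G S.X₁ B) (h₃ : Orth G S.X₃ B) : Orth G S.X₂ B :=
  iff_od.2 (OD.left₂ (sesTriangle_distinguished (G := G) hS) (iff_od.1 h₁) (iff_od.1 h₃))

lemma left₃ (h₁ : Orth G S.X₁ B) (h₂ : Orth G S.X₂ B) : Orth G S.X₃ B :=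
  iff_od.2 (OD.left₃ (sesTriangle_distinguished (G := G) hS) (iff_od.1 h₁) (iff_od.1 h₂))

lemma right₁ (h₂ : Orth G A S.X₂) (h₃ : Orth G A S.X₃) : Orth G A S.X₁ :=
  iff_od.2 (OD.right₁ (sesTriangle_distinguished (G := G) hS) (iff_od.1 h₂) (iff_od.1 h₃))

lemma right₂ (h₁ : Orth G A S.X₁) (h₃ : Orth G A S.X₃) : Orth G A S.X₂ :=
  iff_od.2 (OD.right₂ (sesTriangle_distinguished (G := G) hS) (iff_od.1 h₁) (iff_od.1 h₃))

lemma right₃ (h₁ : Orth G A S.X₁) (h₂ : Orth G A S.X₂) : Orth G A S.X₃ :=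
  iff_od.2 (OD.right₃ (sesTriangle_distinguished (G := G) hS) (iff_od.1 h₁) (iff_od.1 h₂))

end ses

lemma sigma {ι : Type 1} (K : ι → Ch C L) (h : ∀ i, Orth G (K i) B) : Orth G (∐ K) B := by
  rw [iff_right]
  intro n f
  refine sigma_hom_ext K f 0 fun i => ?_
  rw [comp_zero]
  exact iff_right.1 (h i) n _

/-- The left orthogonal of an object is a localising class. -/
lemma of_loc {G₁ : Ch C L → Prop} (h : ∀ K, G₁ K → Orth G K B) (hA : Loc G₁ A) : Orth G A B := by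
  induction hA with
  | gen K hK => exact h K hK
  | acyclic K hK => exact of_loc_left (Loc.acyclic K hK) B
  | left S hS _ _ h₂ h₃ => exact left₁ hS h₂ h₃
  | mid S hS _ _ h₁ h₃ => exact left₂ hS h₁ h₃
  | right S hS _ _ h₁ h₂ => exact left₃ hS h₁ h₂
  | sum ι K _ h => exact sigma K h

/-- Vanishing on the cone of `φ` means that `φ` is bijective on morphisms from shifts of `A`. -/
lemma cone_right_iff (φ : B ⟶ B') : Orth G A (CochainComplex.mappingCone φ) ↔
    ∀ n : ℤ, Function.Bijective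
      fun f : (QM G).obj (A⟦n⟧) ⟶ (QM G).obj B => f ≫ (QM G).map φ := by
  rw [iff_od]
  refine (od_obj₃_right_iff (coneTriangle_distinguished (G := G) φ) _).trans
    (forall_congr' fun n => ?_)
  exact ⟨bijective_postcomp_of_iso (((QM G).commShiftIso n).app A) _,
    bijective_postcomp_of_iso (((QM G).commShiftIso n).app A).symm _⟩

lemma cone_left_iff (φ : A ⟶ A') : Orth G (CochainComplex.mappingCone φ) B ↔
    ∀ n : ℤ, Function.Bijective
      fun f : (QM G).obj (A'⟦n⟧) ⟶ (QM G).obj B => (QM G).map (φ⟦n⟧') ≫ f := by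
  rw [iff_od]
  refine (od_obj₃_left_iff (coneTriangle_distinguished (G := G) φ) _).trans
    (forall_congr' fun n => ?_)
  exact (bijective_precomp_iff_of_sq (((QM G).commShiftIso n).app A)
    (((QM G).commShiftIso n).app A') (Functor.commShiftIso_hom_naturality (QM G) φ n) _).symm

lemma precomp_bijective {φ : A ⟶ A'} (h : Orth G (CochainComplex.mappingCone φ) B) :
    Function.Bijective fun f : (QM G).obj A' ⟶ (QM G).obj B => (QM G).map φ ≫ f :=
  OD.precomp_bijective (coneTriangle_distinguished (G := G) φ) (iff_od.1 h) (ShC.self _)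

lemma postcomp_bijective {φ : B ⟶ B'} (h : Orth G A (CochainComplex.mappingCone φ)) :
    Function.Bijective fun f : (QM G).obj A ⟶ (QM G).obj B => f ≫ (QM G).map φ :=
  OD.postcomp_bijective (coneTriangle_distinguished (G := G) φ) (iff_od.1 h) (ShC.self _)

end Orth

variable (C L) in
/-- The empty class of generators: `DM (G0 C L)` is the derived category of presheaves. -/
abbrev G0 : Ch C L → Prop := fun _ => False

lemma acyclic_iff_of_quasiIso {X Y : Ch C L} (f : X ⟶ Y) [QuasiIso f] :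
    X.Acyclic ↔ Y.Acyclic :=
  forall_congr' fun n => exactAt_iff_of_quasiIsoAt f n

lemma quasiIso_f_iff {S : ShortComplex (Ch C L)} (hS : S.ShortExact) :
    QuasiIso S.f ↔ S.X₃.Acyclic := by
  have := CochainComplex.mappingCone.quasiIso_descShortComplex hS
  rw [← acyclic_cone_iff]
  exact acyclic_iff_of_quasiIso (CochainComplex.mappingCone.descShortComplex S)

lemma loc_G0_iff (K : Ch C L) : Loc (G0 C L) K ↔ K.Acyclic := by
  refine ⟨fun h => ?_, Loc.acyclic K⟩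
  induction h with
  | gen K hK => exact hK.elim
  | acyclic K hK => exact hK
  | left S hS _ _ h₂ h₃ =>
    have := (quasiIso_f_iff hS).2 h₃
    exact (acyclic_iff_of_quasiIso S.f).2 h₂
  | mid S hS _ _ h₁ h₃ =>
    have := (quasiIso_f_iff hS).2 h₃
    exact (acyclic_iff_of_quasiIso S.f).1 h₁
  | right S hS _ _ h₁ h₂ =>
    refine (quasiIso_f_iff hS).1 ⟨fun n => ?_⟩
    exact (quasiIsoAt_iff_exactAt S.f n (h₁ n)).2 (h₂ n)
  | sum ι K _ h => exact acyclic_sigma K h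

lemma wg_G0_iff {X Y : Ch C L} (f : X ⟶ Y) : WG (G0 C L) f ↔ QuasiIso f :=
  (loc_G0_iff _).trans (acyclic_cone_iff f)

lemma QH_G0_map_bijective (P : Ch C L) [P.IsKProjective] (X : Ch C L) :
    Function.Bijective ((QH (G0 C L)).map : ((quo C L).obj P ⟶ (quo C L).obj X) → _) := by
  have h : (NK (G0 C L)).leftOrthogonal ((quo C L).obj P) := by
    intro Y f hY
    obtain ⟨Y, rfl⟩ := HomotopyCategory.quotient_obj_surjective Y
    exact CochainComplex.IsKProjective.leftOrthogonal P f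
      ((HomotopyCategory.quotient_obj_mem_subcategoryAcyclic_iff_acyclic Y).2
        ((loc_G0_iff Y).1 hY))
  exact h.map_bijective_of_isTriangulated _ _

lemma exists_map_G0 {P X : Ch C L} [P.IsKProjective]
    (f : (QM (G0 C L)).obj P ⟶ (QM (G0 C L)).obj X) : ∃ g : P ⟶ X, (QM (G0 C L)).map g = f := by
  obtain ⟨g, hg⟩ := (QH_G0_map_bijective P X).2 f
  obtain ⟨g, rfl⟩ := (quo C L).map_surjective g
  exact ⟨g, hg⟩

lemma homotopy_of_map_eq_G0 {P X : Ch C L} [P.IsKProjective] {g g' : P ⟶ X}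
    (e : (QM (G0 C L)).map g = (QM (G0 C L)).map g') : Nonempty (Homotopy g g') :=
  ⟨HomotopyCategory.homotopyOfEq _ _ ((QH_G0_map_bijective P X).1 e)⟩

variable (G) in
lemma presW_G0 : PresW (G0 C L) G (𝟭 _) := PresW.id fun _ h => h.elim

variable (G) in
/-- The map from morphisms of the derived category to morphisms of `DM G`. -/
def toDM {A B : Ch C L} (f : (QM (G0 C L)).obj A ⟶ (QM (G0 C L)).obj B) :
    (QM G).obj A ⟶ (QM G).obj B :=
  (presW_G0 G).homMap f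

@[simp]
lemma toDM_map {A B : Ch C L} (f : A ⟶ B) : toDM G ((QM (G0 C L)).map f) = (QM G).map f :=
  (presW_G0 G).homMap_map f

lemma toDM_comp {A B B' : Ch C L} (f : (QM (G0 C L)).obj A ⟶ (QM (G0 C L)).obj B)
    (g : (QM (G0 C L)).obj B ⟶ (QM (G0 C L)).obj B') : toDM G (f ≫ g) = toDM G f ≫ toDM G g :=
  (presW_G0 G).homMap_comp f g

variable (G) in
/-- A complex is local if it is right orthogonal, in the derived category, to the generators. -/
def IsLocal (X : Ch C L) : Prop := ∀ K, G K → Orth (G0 C L) K X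

namespace IsLocal

variable {X X' : Ch C L}

lemma orth (h : IsLocal G X) {K : Ch C L} (hK : Loc G K) : Orth (G0 C L) K X :=
  Orth.of_loc h hK

lemma trans {G₁ : Ch C L → Prop} (h : IsLocal G X) (h' : ∀ K, G₁ K → Loc G K) : IsLocal G₁ X :=
  fun K hK => h.orth (h' K hK)

lemma of_acyclic (h : X.Acyclic) : IsLocal G X :=
  fun K _ => Orth.of_loc_right K (Loc.acyclic X h)

lemma iff_of_quasiIso (f : X ⟶ X') [QuasiIso f] : IsLocal G X ↔ IsLocal G X' :=
  forall₂_congr fun _ _ => Orth.iff_of_wg_right (WG.of_quasiIso f)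

lemma of_iso (e : X ≅ X') (h : IsLocal G X) : IsLocal G X' := (iff_of_quasiIso e.hom).1 h

lemma shift (h : IsLocal G X) (n : ℤ) : IsLocal G (X⟦n⟧) :=
  fun K hK => (Orth.shift_right_iff n).2 (h K hK)

lemma ses₁ {S : ShortComplex (Ch C L)} (hS : S.ShortExact) (h₂ : IsLocal G S.X₂)
    (h₃ : IsLocal G S.X₃) : IsLocal G S.X₁ := fun K hK => Orth.right₁ hS (h₂ K hK) (h₃ K hK)

lemma ses₂ {S : ShortComplex (Ch C L)} (hS : S.ShortExact) (h₁ : IsLocal G S.X₁)
    (h₃ : IsLocal G S.X₃) : IsLocal G S.X₂ := fun K hK => Orth.right₂ hS (h₁ K hK) (h₃ K hK)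

lemma ses₃ {S : ShortComplex (Ch C L)} (hS : S.ShortExact) (h₁ : IsLocal G S.X₁)
    (h₂ : IsLocal G S.X₂) : IsLocal G S.X₃ := fun K hK => Orth.right₃ hS (h₁ K hK) (h₂ K hK)

lemma cone (f : X ⟶ X') (h : IsLocal G X) (h' : IsLocal G X') :
    IsLocal G (CochainComplex.mappingCone f) :=
  ses₂ (cone_shortExact f) h' (h.shift 1)

lemma of_retract (i : X ⟶ X') (p : X' ⟶ X) (e : i ≫ p = 𝟙 X) (h : IsLocal G X') :
    IsLocal G X :=
  fun K hK => Orth.retract_right ((QM _).map i) ((QM _).map p)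
    (by rw [← Functor.map_comp, e, CategoryTheory.Functor.map_id]) (h K hK)

/-- Morphisms to a local object are the same in `DM G` and in the derived category. -/
lemma toDM_bijective (h : IsLocal G X) (A : Ch C L) :
    Function.Bijective (toDM G : (_ ⟶ (QM (G0 C L)).obj X) → ((QM G).obj A ⟶ _)) := by
  constructor
  · intro k₁ k₂ hk
    obtain ⟨A₁, s₁, g₁, hs₁, e₁⟩ := right_fac k₁
    obtain ⟨A₂, s₂, g₂, hs₂, e₂⟩ := right_fac ((QM (G0 C L)).map s₁ ≫ k₂)
    have e₃ : (QM G).map (s₂ ≫ g₁) = (QM G).map g₂ := by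
      rw [← toDM_map g₂, ← e₂, toDM_comp, toDM_comp, ← hk, ← toDM_comp, e₁, toDM_map, toDM_map,
        Functor.map_comp]
    obtain ⟨A₃, t, ht, ⟨H⟩⟩ := (map_eq_iff_precomp _ _).1 e₃
    have e₄ : (QM (G0 C L)).map (s₂ ≫ g₁) = (QM (G0 C L)).map g₂ := by
      apply (h.orth ht).precomp_bijective.1
      have := QM_map_eq_of_homotopy (G := G0 C L) H
      simpa only [Functor.map_comp] using this
    have := hs₁.isIso
    have := hs₂.isIso
    rw [← cancel_epi ((QM (G0 C L)).map s₁), ← cancel_epi ((QM (G0 C L)).map s₂), e₂, e₁, ← e₄,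
      Functor.map_comp]
  · intro f
    obtain ⟨A', s, g, hs, e⟩ := right_fac f
    obtain ⟨k, hk⟩ := (h.orth hs).precomp_bijective.2 ((QM (G0 C L)).map g)
    refine ⟨k, ?_⟩
    have := hs.isIso
    dsimp at hk
    rw [← cancel_epi ((QM G).map s), e, ← toDM_map s, ← toDM_comp, hk, toDM_map]

lemma orth_iff (h : IsLocal G X) (A : Ch C L) : Orth G A X ↔ Orth (G0 C L) A X := by
  have h₀ : ∀ B : Ch C L, toDM G (0 : (QM (G0 C L)).obj B ⟶ (QM (G0 C L)).obj X) = 0 := fun B => by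
    rw [← (QM (G0 C L)).map_zero, toDM_map, Functor.map_zero]
  refine forall_congr' fun n => ⟨fun H f => ?_, fun H f => ?_⟩
  · apply (h.toDM_bijective _).1
    rw [h₀]
    exact H _
  · obtain ⟨k, rfl⟩ := (h.toDM_bijective _).2 f
    rw [H k, h₀]

lemma acyclic_of_loc (h : IsLocal G X) (h' : Loc G X) : X.Acyclic := by
  rw [← loc_G0_iff, ← isZero_QM_iff, IsZero.iff_id_eq_zero]
  exact (h.orth h').eq_zero _

/-- A `W`-morphism between local objects is a quasi-isomorphism. -/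
lemma quasiIso_of_wg {f : X ⟶ X'} (h : IsLocal G X) (h' : IsLocal G X') (hf : WG G f) :
    QuasiIso f :=
  (acyclic_cone_iff f).1 ((cone f h h').acyclic_of_loc hf)

lemma exists_map (h : IsLocal G X) {P : Ch C L} [P.IsKProjective]
    (f : (QM G).obj P ⟶ (QM G).obj X) : ∃ g : P ⟶ X, (QM G).map g = f := by
  obtain ⟨k, rfl⟩ := (h.toDM_bijective P).2 f
  obtain ⟨g, rfl⟩ := exists_map_G0 k
  exact ⟨g, (toDM_map g).symm⟩

lemma homotopy_of_map_eq (h : IsLocal G X) {P : Ch C L} [P.IsKProjective] {g g' : P ⟶ X}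
    (e : (QM G).map g = (QM G).map g') : Nonempty (Homotopy g g') :=
  homotopy_of_map_eq_G0 ((h.toDM_bijective P).1 (by rw [toDM_map, toDM_map, e]))

end IsLocal

lemma isLocal_G0 (X : Ch C L) : IsLocal (G0 C L) X := fun _ h => h.elim

/-- Orthogonality in the derived category for a K-projective source. -/
lemma orth_G0_iff (P X : Ch C L) [P.IsKProjective] :
    Orth (G0 C L) P X ↔ ∀ (n : ℤ) (g : P⟦n⟧ ⟶ X), Nonempty (Homotopy g 0) := by
  refine forall_congr' fun n => ⟨fun h g => ?_, fun h f => ?_⟩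
  · exact homotopy_of_map_eq_G0 (by rw [h ((QM (G0 C L)).map g), Functor.map_zero])
  · obtain ⟨g, rfl⟩ := exists_map_G0 f
    obtain ⟨H⟩ := h g
    rw [QM_map_eq_of_homotopy H, Functor.map_zero]

end Pool.Agent.KEW
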