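import Pool.Agent.P.MP_6277db_ag.KEW.L1.Orth

/-!
Representable presheaves, homology classes of sections, and morphisms out of representables.
-/

set_option backward.isDefEq.respectTransparency false

noncomputable section

open CategoryTheory Limits Pretriangulated ZeroObject Opposite

namespace Pool.Agent.KEW

variable {C : Type 1} [Category.{0} C] {L : Type 1} [CommRing L] {G : Ch C L → Prop}

variable (L) in
/-- The basis element of `L[Hom(V, U)]` given by a morphism. -/
def repEl {U V : C} (φ : V ⟶ U) : ((rep C L).obj U).obj (op V) :=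
  (Finsupp.single (ULift.up φ) 1 : (ULift.{1} (V ⟶ U)) →₀ L)

@[simp]
lemma map_repEl {U V V' : C} (φ : V ⟶ U) (ψ : V' ⟶ V) :
    ((rep C L).obj U).map ψ.op (repEl L φ) = repEl L (ψ ≫ φ) :=
  ModuleCat.free_map_apply (R := L) ((uliftYoneda.{1}.obj U).map ψ.op) (ULift.up φ)

@[simp]
lemma rep_map_repEl {U U' V : C} (φ : V ⟶ U) (ψ : U ⟶ U') :
    ((rep C L).map ψ).app (op V) (repEl L φ) = repEl L (φ ≫ ψ) :=
  ModuleCat.free_map_apply (R := L) ((uliftYoneda.{1}.map ψ).app (op V)) (ULift.up φ)

/-- The section attached to a morphism out of a representable presheaf. -/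
def repSec {U : C} {F : PSh C L} (a : (rep C L).obj U ⟶ F) : F.obj (op U) :=
  a.app (op U) (repEl L (𝟙 U))

lemma app_repEl {U V : C} {F : PSh C L} (a : (rep C L).obj U ⟶ F) (φ : V ⟶ U) :
    a.app (op V) (repEl L φ) = F.map φ.op (repSec a) := by
  have h := ConcreteCategory.congr_hom (a.naturality φ.op) (repEl L (𝟙 U))
  rw [ConcreteCategory.comp_apply, ConcreteCategory.comp_apply, map_repEl, Category.comp_id] at h
  exact h

/-- The Yoneda lemma for `rep`. -/
lemma repSec_bijective (U : C) (F : PSh C L) :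
    Function.Bijective (repSec : ((rep C L).obj U ⟶ F) → F.obj (op U)) := by
  constructor
  · intro a b h
    ext V : 2
    refine ModuleCat.free_hom_ext fun x => ?_
    exact (app_repEl a x.down).trans ((congrArg _ h).trans (app_repEl b x.down).symm)
  · intro s
    have e : ∀ (V : Cᵒᵖ) (φ : V.unop ⟶ U),
        (ModuleCat.freeDesc (R := L) (X := ULift.{1} (V.unop ⟶ U)) (M := F.obj V)
          (TypeCat.ofHom fun x => F.map x.down.op s)) (repEl L φ) = F.map φ.op s :=
      fun V φ => ModuleCat.freeDesc_apply _ (ULift.up φ)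
    refine ⟨⟨fun V => ModuleCat.freeDesc (R := L) (X := ULift.{1} (V.unop ⟶ U)) (M := F.obj V)
      (TypeCat.ofHom fun x => F.map x.down.op s), fun V V' f => ?_⟩, ?_⟩
    · refine ModuleCat.free_hom_ext fun x => ?_
      rw [ConcreteCategory.comp_apply, ConcreteCategory.comp_apply]
      have h1 := map_repEl (L := L) x.down f.unop
      refine (congrArg _ h1).trans ((e V' _).trans (Eq.trans ?_ (congrArg _ (e V x.down)).symm))
      rw [op_comp, Functor.map_comp, ConcreteCategory.comp_apply]
      rfl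
    · refine (e (op U) (𝟙 U)).trans ?_
      rw [op_id, CategoryTheory.Functor.map_id]
      rfl

lemma repSec_add {U : C} {F : PSh C L} (a b : (rep C L).obj U ⟶ F) :
    repSec (a + b) = repSec a + repSec b := rfl

@[simp]
lemma repSec_zero {U : C} {F : PSh C L} : repSec (0 : (rep C L).obj U ⟶ F) = 0 := rfl

lemma repSec_comp {U : C} {F F' : PSh C L} (a : (rep C L).obj U ⟶ F) (f : F ⟶ F') :
    repSec (a ≫ f) = f.app (op U) (repSec a) := rfl

lemma repSec_map_comp {U V : C} {F : PSh C L} (φ : V ⟶ U) (a : (rep C L).obj U ⟶ F) :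
    repSec ((rep C L).map φ ≫ a) = F.map φ.op (repSec a) := by
  rw [repSec_comp, ← app_repEl]
  congr 1
  rw [repSec, rep_map_repEl, Category.id_comp]

/-- The Yoneda bijection as an additive equivalence. -/
def repEquiv (U : C) (F : PSh C L) : ((rep C L).obj U ⟶ F) ≃+ F.obj (op U) :=
  AddEquiv.ofBijective (AddMonoidHom.mk' repSec repSec_add) (repSec_bijective U F)

lemma repEquiv_apply {U : C} {F : PSh C L} (a : (rep C L).obj U ⟶ F) :
    repEquiv U F a = repSec a := rfl

instance (U : C) : Projective ((rep C L).obj U) := by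
  refine ⟨fun {E X} f e _ => ?_⟩
  obtain ⟨s, hs⟩ := (ModuleCat.epi_iff_surjective (e.app (op U))).1 inferInstance (repSec f)
  obtain ⟨g, rfl⟩ := (repSec_bijective U E).2 s
  exact ⟨g, (repSec_bijective U X).1 hs⟩

instance (F : PSh C L) [Projective F] (q : ℤ) :
    CochainComplex.IsKProjective ((sgl q).obj F : Ch C L) := by
  have : ∀ n : ℤ, Projective (((sgl q).obj F : Ch C L).X n) := fun n => by
    by_cases h : n = q
    · subst h
      exact Projective.of_iso (HomologicalComplex.singleObjXSelf _ n F).symm inferInstance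
    · exact (HomologicalComplex.isZero_single_obj_X _ q F n h).projective
  have : CochainComplex.IsStrictlyLE ((sgl q).obj F : Ch C L) q :=
    inferInstanceAs (CochainComplex.IsStrictlyLE ((CochainComplex.singleFunctor _ q).obj F) q)
  exact CochainComplex.isKProjective_of_projective _ q

/-- The morphism to homology given by a cocycle. -/
def toH (X : Ch C L) (q : ℤ) {P : PSh C L} (k : P ⟶ X.X q) (hk : k ≫ X.d q (q + 1) = 0) :
    P ⟶ X.homology q :=
  X.liftCycles k (q + 1) (by simp) hk ≫ X.homologyπ q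

lemma toH_eq_zero_iff {X : Ch C L} {q : ℤ} {P : PSh C L} [Projective P] (k : P ⟶ X.X q)
    (hk : k ≫ X.d q (q + 1) = 0) (p : ℤ) (hp : p + 1 = q) :
    toH X q k hk = 0 ↔ ∃ w : P ⟶ X.X p, w ≫ X.d p q = k := by
  constructor
  · intro h
    have hS : (ShortComplex.mk _ _ (X.toCycles_comp_homologyπ p q)).Exact :=
      ShortComplex.exact_of_g_is_cokernel _ (X.homologyIsCokernel p q (by simp; omega))
    refine ⟨hS.liftFromProjective _ h, ?_⟩
    have h1 := hS.liftFromProjective_comp _ h
    rw [← X.toCycles_i p q, ← Category.assoc]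
    exact (congrArg (· ≫ X.iCycles q) h1).trans (X.liftCycles_i _ _ _ _)
  · rintro ⟨w, rfl⟩
    exact X.liftCycles_homologyπ_eq_zero_of_boundary _ _ _ w rfl

lemma toH_surjective {X : Ch C L} {q : ℤ} {P : PSh C L} [Projective P] (a : P ⟶ X.homology q) :
    ∃ k hk, toH X q k hk = a := by
  refine ⟨Projective.factorThru a (X.homologyπ q) ≫ X.iCycles q, by simp, ?_⟩
  have h : X.liftCycles (Projective.factorThru a (X.homologyπ q) ≫ X.iCycles q) (q + 1) (by simp)
      (by simp) = Projective.factorThru a (X.homologyπ q) := by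
    rw [← cancel_mono (X.iCycles q), HomologicalComplex.liftCycles_i]
  rw [toH, h, Projective.factorThru_comp]

lemma toH_add {X : Ch C L} {q : ℤ} {P : PSh C L} (k k' : P ⟶ X.X q)
    (hk : k ≫ X.d q (q + 1) = 0) (hk' : k' ≫ X.d q (q + 1) = 0)
    (h : (k + k') ≫ X.d q (q + 1) = 0) : toH X q (k + k') h = toH X q k hk + toH X q k' hk' := by
  rw [toH, toH, toH, ← Preadditive.add_comp]
  congr 1
  rw [← cancel_mono (X.iCycles q), Preadditive.add_comp]
  simp only [HomologicalComplex.liftCycles_i]

lemma comp_toH {X : Ch C L} {q : ℤ} {P P' : PSh C L} (α : P' ⟶ P) (k : P ⟶ X.X q)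
    (hk : k ≫ X.d q (q + 1) = 0) (h : (α ≫ k) ≫ X.d q (q + 1) = 0) :
    α ≫ toH X q k hk = toH X q (α ≫ k) h := by
  rw [toH, toH, ← Category.assoc, HomologicalComplex.comp_liftCycles]

lemma toH_comp {X Y : Ch C L} (f : X ⟶ Y) {q : ℤ} {P : PSh C L} (k : P ⟶ X.X q)
    (hk : k ≫ X.d q (q + 1) = 0) (h : (k ≫ f.f q) ≫ Y.d q (q + 1) = 0) :
    toH X q k hk ≫ HomologicalComplex.homologyMap f q = toH Y q (k ≫ f.f q) h := by
  rw [toH, toH, Category.assoc, HomologicalComplex.homologyπ_naturality, ← Category.assoc,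
    HomologicalComplex.liftCycles_comp_cyclesMap]

section cls

variable (X : Ch C L) (q : ℤ) {U V : C}

/-- The homology class of a cocycle. -/
def cls (z : (X.X q).obj (op U)) (hz : (X.d q (q + 1)).app (op U) z = 0) :
    (X.homology q).obj (op U) :=
  repSec (X.liftCycles ((repEquiv U _).symm z) (q + 1) (by simp)
    ((repSec_bijective U _).1 (by
      rw [repSec_comp, ← repEquiv_apply, AddEquiv.apply_symm_apply, hz, repSec_zero])) ≫
    X.homologyπ q)

variable {X q}

lemma comp_d_of_repSec (k : (rep C L).obj U ⟶ X.X q) {q' : ℤ}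
    (hz : (X.d q q').app (op U) (repSec k) = 0) : k ≫ X.d q q' = 0 :=
  (repSec_bijective U _).1 hz

lemma cls_repSec (k : (rep C L).obj U ⟶ X.X q)
    (hz : (X.d q (q + 1)).app (op U) (repSec k) = 0) :
    cls X q (repSec k) hz = repSec (toH X q k (comp_d_of_repSec k hz)) := by
  have h : (repEquiv U _).symm (repSec k) = k := (repEquiv U _).symm_apply_apply k
  unfold cls toH
  simp only [h]

lemma cls_surjective (a : (X.homology q).obj (op U)) : ∃ z hz, cls X q z hz = a := by
  obtain ⟨a, rfl⟩ := (repSec_bijective U _).2 a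
  obtain ⟨k, hk, rfl⟩ := toH_surjective a
  exact ⟨repSec k, congrArg repSec hk, cls_repSec k _⟩

lemma cls_eq_zero_iff (z : (X.X q).obj (op U)) (hz : (X.d q (q + 1)).app (op U) z = 0) (p : ℤ)
    (hp : p + 1 = q) :
    cls X q z hz = 0 ↔ ∃ w : (X.X p).obj (op U), (X.d p q).app (op U) w = z := by
  obtain ⟨k, rfl⟩ := (repSec_bijective U _).2 z
  rw [cls_repSec, ← repSec_zero, (repSec_bijective U _).1.eq_iff, toH_eq_zero_iff _ _ p hp]
  constructor
  · rintro ⟨w, rfl⟩
    exact ⟨repSec w, rfl⟩
  · rintro ⟨w, hw⟩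
    obtain ⟨w, rfl⟩ := (repSec_bijective U _).2 w
    exact ⟨w, (repSec_bijective U _).1 hw⟩

lemma cls_add (z z' : (X.X q).obj (op U)) (hz : (X.d q (q + 1)).app (op U) z = 0)
    (hz' : (X.d q (q + 1)).app (op U) z' = 0) :
    cls X q (z + z') (by rw [map_add, hz, hz', add_zero]) = cls X q z hz + cls X q z' hz' := by
  obtain ⟨k, rfl⟩ := (repSec_bijective U _).2 z
  obtain ⟨k', rfl⟩ := (repSec_bijective U _).2 z'
  rw [cls_repSec k, cls_repSec k']
  exact (cls_repSec (k + k') _).trans ((congrArg repSec (toH_add k k' _ _ _)).trans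
    (repSec_add _ _))

lemma cls_sub (z z' : (X.X q).obj (op U)) (hz : (X.d q (q + 1)).app (op U) z = 0)
    (hz' : (X.d q (q + 1)).app (op U) z' = 0) :
    cls X q (z - z') (by rw [map_sub, hz, hz', sub_zero]) = cls X q z hz - cls X q z' hz' := by
  rw [eq_sub_iff_add_eq, ← cls_add]
  simp only [sub_add_cancel]

lemma d_map_eq_zero (φ : V ⟶ U) {z : (X.X q).obj (op U)} {q' : ℤ}
    (hz : (X.d q q').app (op U) z = 0) : (X.d q q').app (op V) ((X.X q).map φ.op z) = 0 := by
  have h := ConcreteCategory.congr_hom ((X.d q q').naturality φ.op) z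
  rw [ConcreteCategory.comp_apply, ConcreteCategory.comp_apply, hz, map_zero] at h
  exact h

lemma map_cls (φ : V ⟶ U) (z : (X.X q).obj (op U)) (hz : (X.d q (q + 1)).app (op U) z = 0) :
    (X.homology q).map φ.op (cls X q z hz) =
      cls X q ((X.X q).map φ.op z) (d_map_eq_zero φ hz) := by
  obtain ⟨k, rfl⟩ := (repSec_bijective U _).2 z
  have h : ((rep C L).map φ ≫ k) ≫ X.d q (q + 1) = 0 := by
    rw [Category.assoc, comp_d_of_repSec k hz, comp_zero]
  rw [cls_repSec, ← repSec_map_comp, comp_toH _ _ _ h,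
    ← cls_repSec _ (congrArg repSec h)]
  simp only [repSec_map_comp]

lemma d_f_eq_zero {Y : Ch C L} (f : X ⟶ Y) {z : (X.X q).obj (op U)} {q' : ℤ}
    (hz : (X.d q q').app (op U) z = 0) : (Y.d q q').app (op U) ((f.f q).app (op U) z) = 0 := by
  obtain ⟨k, rfl⟩ := (repSec_bijective U _).2 z
  rw [← repSec_comp, ← repSec_comp, Category.assoc, f.comm, ← Category.assoc,
    comp_d_of_repSec k hz, zero_comp, repSec_zero]

lemma homologyMap_cls {Y : Ch C L} (f : X ⟶ Y) (z : (X.X q).obj (op U))
    (hz : (X.d q (q + 1)).app (op U) z = 0) :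
    (HomologicalComplex.homologyMap f q).app (op U) (cls X q z hz) =
      cls Y q ((f.f q).app (op U) z) (d_f_eq_zero f hz) := by
  obtain ⟨k, rfl⟩ := (repSec_bijective U _).2 z
  rw [cls_repSec, ← repSec_comp, toH_comp]
  exact (cls_repSec (k ≫ f.f q) (d_f_eq_zero f hz)).symm

/-- A complex is acyclic iff every cocycle is a coboundary. -/
lemma acyclic_iff_sections (X : Ch C L) : X.Acyclic ↔
    ∀ (q : ℤ) (U : C) (a : (X.homology q).obj (op U)), a = 0 := by
  constructor
  · intro h q U a
    have h1 : IsZero ((X.homology q).obj (op U)) :=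
      ((X.exactAt_iff_isZero_homology q).1 (h q)).obj _
    exact (ModuleCat.isZero_iff_subsingleton.1 h1).elim _ _
  · intro h q
    rw [HomologicalComplex.exactAt_iff_isZero_homology]
    refine Functor.isZero _ fun U => ModuleCat.isZero_iff_subsingleton.2 ⟨fun a b => ?_⟩
    exact (h q U.unop a).trans (h q U.unop b).symm

end cls

/-- The homology class attached to a chain map out of a representable presheaf. -/
def repCls {X : Ch C L} {q : ℤ} {U : C} (g : (sgl q).obj ((rep C L).obj U) ⟶ X) :
    (X.homology q).obj (op U) :=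
  repSec ((HomologicalComplex.singleObjHomologySelfIso _ q _).inv ≫
    HomologicalComplex.homologyMap g q)

lemma single_comp_d {X : Ch C L} {q : ℤ} {P : PSh C L} (g : (sgl q).obj P ⟶ X) (q' : ℤ) :
    ((HomologicalComplex.singleObjXSelf _ q P).inv ≫ g.f q) ≫ X.d q q' = 0 := by
  rw [Category.assoc, g.comm, HomologicalComplex.single_obj_d, zero_comp, comp_zero]

lemma repCls_eq {X : Ch C L} {q : ℤ} {U : C} (g : (sgl q).obj ((rep C L).obj U) ⟶ X) :
    repCls g = repSec (toH X q _ (single_comp_d g (q + 1))) := by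
  unfold repCls toH
  congr 1
  rw [← HomologicalComplex.singleObjCyclesSelfIso_inv_homologyπ, Category.assoc,
    HomologicalComplex.homologyπ_naturality, ← Category.assoc]
  congr 1
  rw [← cancel_mono (X.iCycles q), Category.assoc, HomologicalComplex.cyclesMap_i,
    HomologicalComplex.liftCycles_i, ← Category.assoc,
    HomologicalComplex.singleObjCyclesSelfIso_inv_iCycles]

/-- A chain map out of a single object that is a coboundary is null homotopic. -/
lemma homotopy_zero_of_boundary {X : Ch C L} {q : ℤ} {P : PSh C L} (g : (sgl q).obj P ⟶ X)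
    (w : P ⟶ X.X (q - 1))
    (hw : w ≫ X.d (q - 1) q = (HomologicalComplex.singleObjXSelf _ q P).inv ≫ g.f q) :
    Nonempty (Homotopy g 0) := by
  let h : ∀ i j, (ComplexShape.up ℤ).Rel j i → (((sgl q).obj P).X i ⟶ X.X j) := fun i j hij =>
    if hi : i = q then (HomologicalComplex.singleObjXIsoOfEq _ q P i hi).hom ≫ w ≫
      (X.XIsoOfEq (by simp at hij; omega)).hom else 0
  have e : g = Homotopy.nullHomotopicMap' h := by
    refine HomologicalComplex.from_single_hom_ext ?_
    rw [Homotopy.nullHomotopicMap'_f (k₂ := q - 1) (k₀ := q + 1) (by simp) (by simp),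
      HomologicalComplex.single_obj_d, zero_comp, zero_add]
    simp only [h, dif_pos, HomologicalComplex.XIsoOfEq_rfl, Iso.refl_hom, Category.comp_id,
      Category.assoc, hw]
    exact (Iso.hom_inv_id_assoc (HomologicalComplex.singleObjXSelf _ q P) _).symm
  exact ⟨(Homotopy.ofEq e).trans (Homotopy.nullHomotopy' h)⟩

lemma repCls_surjective {X : Ch C L} {q : ℤ} {U : C} (a : (X.homology q).obj (op U)) :
    ∃ g : (sgl q).obj ((rep C L).obj U) ⟶ X, repCls g = a := by
  obtain ⟨a, rfl⟩ := (repSec_bijective U _).2 a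
  obtain ⟨k, hk, rfl⟩ := toH_surjective a
  refine ⟨HomologicalComplex.mkHomFromSingle k fun j hj => ?_, ?_⟩
  · obtain rfl : q + 1 = j := hj
    exact hk
  · rw [repCls_eq]
    simp only [HomologicalComplex.mkHomFromSingle_f, Iso.inv_hom_id_assoc]

lemma repCls_eq_iff {X : Ch C L} {q : ℤ} {U : C} (g g' : (sgl q).obj ((rep C L).obj U) ⟶ X) :
    repCls g = repCls g' ↔ Nonempty (Homotopy g g') := by
  constructor
  · intro h
    have h1 : repCls (g - g') = 0 := by
      have h2 : repCls (g - g') + repCls g' = repCls g := by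
        unfold repCls
        rw [← repSec_add, ← Preadditive.comp_add, ← HomologicalComplex.homologyMap_add,
          sub_add_cancel]
      rw [h] at h2
      exact add_eq_right.1 h2
    rw [repCls_eq, ← repSec_zero, (repSec_bijective U _).1.eq_iff,
      toH_eq_zero_iff _ _ (q - 1) (by omega)] at h1
    obtain ⟨w, hw⟩ := h1
    obtain ⟨H⟩ := homotopy_zero_of_boundary _ w hw
    exact ⟨Homotopy.equivSubZero.symm H⟩
  · rintro ⟨H⟩
    unfold repCls
    rw [H.homologyMap_eq]

lemma repCls_add {X : Ch C L} {q : ℤ} {U : C} (g g' : (sgl q).obj ((rep C L).obj U) ⟶ X) :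
    repCls (g + g') = repCls g + repCls g' := by
  unfold repCls
  rw [← repSec_add, ← Preadditive.comp_add, ← HomologicalComplex.homologyMap_add]

lemma repCls_comp {X Y : Ch C L} {q : ℤ} {U : C} (g : (sgl q).obj ((rep C L).obj U) ⟶ X)
    (f : X ⟶ Y) : repCls (g ≫ f) = (HomologicalComplex.homologyMap f q).app (op U) (repCls g) := by
  unfold repCls
  rw [HomologicalComplex.homologyMap_comp, ← Category.assoc, repSec_comp]

lemma repCls_map_comp {X : Ch C L} {q : ℤ} {U V : C} (φ : V ⟶ U)
    (g : (sgl q).obj ((rep C L).obj U) ⟶ X) :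
    repCls ((sgl q).map ((rep C L).map φ) ≫ g) = (X.homology q).map φ.op (repCls g) := by
  unfold repCls
  rw [HomologicalComplex.homologyMap_comp, ← Category.assoc,
    HomologicalComplex.singleObjHomologySelfIso_inv_naturality, Category.assoc, repSec_map_comp]

section homRep

variable {X Y : Ch C L} (hX : IsLocal G X) (hY : IsLocal G Y) {q : ℤ} {U V : C}

/-- The homology class attached to a morphism of `DM G` from a representable presheaf to a local
complex. -/
def IsLocal.homRep (f : (QM G).obj ((sgl q).obj ((rep C L).obj U)) ⟶ (QM G).obj X) :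
    (X.homology q).obj (op U) :=
  repCls (hX.exists_map f).choose

lemma IsLocal.homRep_map (g : (sgl q).obj ((rep C L).obj U) ⟶ X) :
    hX.homRep ((QM G).map g) = repCls g :=
  (repCls_eq_iff _ _).2 (hX.homotopy_of_map_eq (hX.exists_map ((QM G).map g)).choose_spec)

/-- `Hom(rep U [-q], X) = H^q X (U)` for `X` local. -/
lemma IsLocal.homRep_bijective (q : ℤ) (U : C) : Function.Bijective
    (hX.homRep : ((QM G).obj ((sgl q).obj ((rep C L).obj U)) ⟶ (QM G).obj X) → _) := by
  constructor
  · intro f f' h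
    obtain ⟨g, rfl⟩ := hX.exists_map f
    obtain ⟨g', rfl⟩ := hX.exists_map f'
    rw [hX.homRep_map, hX.homRep_map, repCls_eq_iff] at h
    exact QM_map_eq_of_homotopy h.some
  · intro a
    obtain ⟨g, rfl⟩ := repCls_surjective a
    exact ⟨_, hX.homRep_map g⟩

lemma IsLocal.homRep_add (f g : (QM G).obj ((sgl q).obj ((rep C L).obj U)) ⟶ (QM G).obj X) :
    hX.homRep (f + g) = hX.homRep f + hX.homRep g := by
  obtain ⟨f, rfl⟩ := hX.exists_map f
  obtain ⟨g, rfl⟩ := hX.exists_map g
  rw [← Functor.map_add, hX.homRep_map, hX.homRep_map, hX.homRep_map, repCls_add]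

lemma IsLocal.homRep_eq_zero_iff
    (f : (QM G).obj ((sgl q).obj ((rep C L).obj U)) ⟶ (QM G).obj X) :
    hX.homRep f = 0 ↔ f = 0 := by
  have h : hX.homRep (0 : (QM G).obj ((sgl q).obj ((rep C L).obj U)) ⟶ (QM G).obj X) = 0 := by
    have h1 := hX.homRep_add (q := q) (U := U) 0 0
    rw [add_zero] at h1
    exact left_eq_add.1 h1
  rw [← h, (hX.homRep_bijective q U).1.eq_iff]

lemma IsLocal.homRep_map_comp (φ : V ⟶ U)
    (f : (QM G).obj ((sgl q).obj ((rep C L).obj U)) ⟶ (QM G).obj X) :
    hX.homRep ((QM G).map ((sgl q).map ((rep C L).map φ)) ≫ f) =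
      (X.homology q).map φ.op (hX.homRep f) := by
  obtain ⟨f, rfl⟩ := hX.exists_map f
  rw [← Functor.map_comp, hX.homRep_map, hX.homRep_map, repCls_map_comp]

lemma IsLocal.homRep_comp_map (f : (QM G).obj ((sgl q).obj ((rep C L).obj U)) ⟶ (QM G).obj X)
    (g : X ⟶ Y) : hY.homRep (f ≫ (QM G).map g) =
      (HomologicalComplex.homologyMap g q).app (op U) (hX.homRep f) := by
  obtain ⟨f, rfl⟩ := hX.exists_map f
  rw [← Functor.map_comp, hY.homRep_map, hX.homRep_map, repCls_comp]

/-- The shift of a presheaf placed in one degree, as an isomorphism in `DM G`. -/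
def sglShiftQ (G : Ch C L → Prop) (n p : ℤ) :
    (sgl p : PSh C L ⥤ Ch C L) ⋙ shiftFunctor _ n ⋙ QM G ≅ sgl (p - n) ⋙ QM G :=
  Functor.isoWhiskerRight
    ((CochainComplex.singleFunctors (PSh C L)).shiftIso n (p - n) p (by omega)) (QM G)

include hX in
lemma IsLocal.orth_rep_iff (p : ℤ) (U : C) : Orth G ((sgl p).obj ((rep C L).obj U)) X ↔
    ∀ (q : ℤ) (a : (X.homology q).obj (op U)), a = 0 := by
  constructor
  · intro h q a
    obtain ⟨n, rfl⟩ : ∃ n, q = p - n := ⟨p - q, by omega⟩
    obtain ⟨f, rfl⟩ := (hX.homRep_bijective (p - n) U).2 a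
    rw [hX.homRep_eq_zero_iff, ← cancel_epi ((sglShiftQ G n p).hom.app ((rep C L).obj U)),
      comp_zero]
    exact h n _
  · intro h n f
    rw [← cancel_epi ((sglShiftQ G n p).inv.app ((rep C L).obj U)), comp_zero]
    exact (hX.homRep_eq_zero_iff _).1 (h _ _)

include hX in
/-- Orthogonality to the cone of a map of representables. -/
lemma IsLocal.orth_cone_rep_iff (p : ℤ) (φ : V ⟶ U) :
    Orth G (CochainComplex.mappingCone ((sgl p).map ((rep C L).map φ))) X ↔
      ∀ q : ℤ, Function.Bijective ((X.homology q).map φ.op) := by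
  have key : ∀ n : ℤ, Function.Bijective
      (fun f : (QM G).obj (((sgl p).obj ((rep C L).obj U))⟦n⟧) ⟶ (QM G).obj X =>
        (QM G).map (((sgl p).map ((rep C L).map φ))⟦n⟧') ≫ f) ↔
      Function.Bijective ((X.homology (p - n)).map φ.op) := by
    intro n
    have b : ∀ W : C, Function.Bijective
        fun f : (QM G).obj (((sgl p).obj ((rep C L).obj W))⟦n⟧) ⟶ (QM G).obj X =>
          hX.homRep ((sglShiftQ G n p).inv.app ((rep C L).obj W) ≫ f) := fun W =>
      (hX.homRep_bijective (p - n) W).comp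
        (((sglShiftQ G n p).app ((rep C L).obj W)).homFromEquiv.bijective)
    rw [← Function.Bijective.of_comp_iff _ (b U), ← Function.Bijective.of_comp_iff' (b V)]
    refine iff_of_eq (congrArg _ (funext fun f => ?_))
    have h := (sglShiftQ G n p).inv.naturality ((rep C L).map φ)
    simp only [Function.comp_apply]
    rw [← hX.homRep_map_comp, ← Category.assoc, ← Category.assoc]
    exact congrArg (fun t => hX.homRep (t ≫ f)) h.symm
  rw [Orth.cone_left_iff]
  constructor
  · intro h q
    obtain ⟨n, rfl⟩ : ∃ n, q = p - n := ⟨p - q, by omega⟩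
    exact (key n).1 (h n)
  · exact fun h n => (key n).2 (h _)

end homRep

/-- The shift of a presheaf placed in one degree. -/
def sglShiftIso (n p q : ℤ) (h : n + p = q) :
    (sgl q : PSh C L ⥤ Ch C L) ⋙ shiftFunctor _ n ≅ sgl p :=
  (CochainComplex.singleFunctors (PSh C L)).shiftIso n p q h

end Pool.Agent.KEW
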