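import Pool.Agent.P.MP_6277db_ag.KEW.L1.Cell
import Pool.Agent.P.MP_6277db_ag.KEW.L2a.BG

/-!
Mayer-Vietoris for local complexes, and Nisnevich local replacements.
-/

set_option backward.isDefEq.respectTransparency false

noncomputable section

open CategoryTheory Limits AlgebraicGeometry Opposite MonoidalCategory Pretriangulated

namespace Pool.Agent.KEW

variable {C : Type 1} [Category.{0} C] {C' : Type 1} [Category.{0} C'] {L : Type 1} [CommRing L]
  {u : C ⥤ Scheme.{0}}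

section cone

variable {G : Ch C L → Prop} {A B : Ch C L} (f : A ⟶ B) {Z : DM G}

lemma cone_contra₂ (x : (QM G).obj B ⟶ Z) (hx : (QM G).map f ≫ x = 0) :
    ∃ y : (QM G).obj (CochainComplex.mappingCone f) ⟶ Z,
      x = (QM G).map (CochainComplex.mappingCone.inr f) ≫ y :=
  Triangle.yoneda_exact₂ _ (coneTriangle_distinguished f) x hx

lemma cone_contra₃ (x : (QM G).obj (CochainComplex.mappingCone f) ⟶ Z)
    (hx : (QM G).map (CochainComplex.mappingCone.inr f) ≫ x = 0) :
    ∃ y : (QM G).obj (A⟦(1 : ℤ)⟧) ⟶ Z, x = (QM G).map (coneδ f) ≫ y :=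
  ses_contra₂ (cone_shortExact f) x hx

lemma f_inr_eq_zero :
    (QM G).map f ≫ (QM G).map (CochainComplex.mappingCone.inr f) = 0 :=
  comp_distTriang_mor_zero₁₂ _ (coneTriangle_distinguished f)

lemma Orth.precomp_injective {X : Ch C L} (h : Orth G (CochainComplex.mappingCone f) X)
    (x : (QM G).obj B ⟶ (QM G).obj X) (hx : (QM G).map f ≫ x = 0) : x = 0 := by
  obtain ⟨y, rfl⟩ := cone_contra₂ f x hx
  rw [h.eq_zero y, comp_zero]

lemma Orth.precomp_surjective {X : Ch C L} (h : Orth G (CochainComplex.mappingCone f) X)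
    (x : (QM G).obj A ⟶ (QM G).obj X) :
    ∃ y : (QM G).obj B ⟶ (QM G).obj X, x = (QM G).map f ≫ y := by
  refine Triangle.yoneda_exact₂ _ (inv_rot_of_distTriang _ (coneTriangle_distinguished f)) x ?_
  rw [← cancel_epi (((QM G).commShiftIso (-1 : ℤ)).hom.app (CochainComplex.mappingCone f)),
    comp_zero]
  exact h _ _

end cone

/-- The cone of the map of single complexes attached to a map of presheaves. -/
abbrev coneS {F F' : PSh C L} (φ : F ⟶ F') : Ch C L :=
  CochainComplex.mappingCone ((sgl 0).map φ : (_ : Ch C L) ⟶ _)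

/-- Functoriality of `coneS`. -/
def coneSMap {F₁ F₂ F₁' F₂' : PSh C L} (φ : F₁ ⟶ F₂) (φ' : F₁' ⟶ F₂') (a : F₁ ⟶ F₁')
    (b : F₂ ⟶ F₂') (w : φ ≫ b = a ≫ φ') : coneS φ ⟶ coneS φ' :=
  CochainComplex.mappingCone.map _ _ ((sgl 0).map a) ((sgl 0).map b)
    (by simp only [← Functor.map_comp, w])

lemma coneSMap_comp {F₁ F₂ F₁' F₂' F₁'' F₂'' : PSh C L} (φ : F₁ ⟶ F₂) (φ' : F₁' ⟶ F₂')
    (φ'' : F₁'' ⟶ F₂'') (a : F₁ ⟶ F₁') (b : F₂ ⟶ F₂') (w : φ ≫ b = a ≫ φ') (a' : F₁' ⟶ F₁'')
    (b' : F₂' ⟶ F₂'') (w' : φ' ≫ b' = a' ≫ φ'') :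
    coneSMap φ φ' a b w ≫ coneSMap φ' φ'' a' b' w' =
      coneSMap φ φ'' (a ≫ a') (b ≫ b') (by rw [reassoc_of% w, w', Category.assoc]) := by
  simp only [coneSMap, Functor.map_comp]
  exact (CochainComplex.mappingCone.map_comp ..).symm

/-- The map `r Y / r B ⟶ r X / r A` attached to an elementary square, on mapping cones. -/
def sqMap (r : C ⥤ PSh C' L) (S : NisSq u) : coneS (r.map S.j) ⟶ coneS (r.map S.i) :=
  coneSMap _ _ (r.map S.g) (r.map S.f) (by simp only [← Functor.map_comp, S.w])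

lemma shortExact_sgl {S : ShortComplex (PSh C L)} (hS : S.ShortExact) (q : ℤ) :
    (S.map (sgl q : PSh C L ⥤ Ch C L)).ShortExact :=
  hS.map_of_exact _

/-- The map from the cone to the cokernel. -/
def coneSDesc {F F' : PSh C L} (φ : F ⟶ F') : coneS φ ⟶ (sgl 0).obj (cokernel φ) :=
  CochainComplex.mappingCone.descShortComplex
    ((ShortComplex.mk φ (cokernel.π φ) (by simp)).map (sgl 0 : PSh C L ⥤ Ch C L))

lemma wg_coneSDesc {F F' : PSh C L} {φ : F ⟶ F'} (h : LocInj u φ) :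
    WG (NisGen u) (coneSDesc φ) := by
  let S₁ : ShortComplex (PSh C L) := ShortComplex.mk φ (cokernel.π φ) (by simp)
  let S₀ : ShortComplex (PSh C L) :=
    ShortComplex.mk (kernel.ι (cokernel.π φ)) (cokernel.π φ) (by simp)
  have h₀ : S₀.ShortExact := { exact := ShortComplex.exact_kernel _ }
  let τ : S₁ ⟶ S₀ :=
    { τ₁ := kernel.lift _ φ (by simp), τ₂ := 𝟙 _, τ₃ := 𝟙 _
      comm₁₂ := by simp [S₀, S₁], comm₂₃ := by simp [S₀, S₁] }
  have he : Epi τ.τ₁ := (ShortComplex.exact_iff_epi_kernel_lift S₁).1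
    (ShortComplex.exact_cokernel φ)
  have h₁ : WG (NisGen u) ((sgl 0).map τ.τ₁) := by
    refine (wg_nis_sgl_iff _ 0).2 ⟨fun U a ha => h U a ?_, LocSurj.of_epi _⟩
    have e : φ = τ.τ₁ ≫ kernel.ι (cokernel.π φ) := by simp [τ]
    rw [e]
    change (kernel.ι (cokernel.π φ)).app (op U) (τ.τ₁.app (op U) a) = 0
    rw [ha, map_zero]
  have := CochainComplex.mappingCone.quasiIso_descShortComplex (shortExact_sgl h₀ 0)
  have e := CochainComplex.mappingCone.map_descShortComplex _ _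
    ((sgl 0 : PSh C L ⥤ Ch C L).mapShortComplex.map τ)
  have e' : coneSDesc φ = coneSDesc φ ≫ ((sgl 0 : PSh C L ⥤ Ch C L).mapShortComplex.map τ).τ₃ := by
    exact (Category.comp_id _).symm.trans
      (congrArg _ ((sgl 0 : PSh C L ⥤ Ch C L).map_id _).symm)
  rw [e']
  refine e ▸ WG.comp (wg_cone_map _ _ _ _ _ h₁ ?_) (WG.of_quasiIso (h := this) _)
  exact WG.of_isIso ((sgl 0 : PSh C L ⥤ Ch C L).map (𝟙 _))

lemma coneSMap_desc {F₁ F₂ F₁' F₂' : PSh C L} (φ : F₁ ⟶ F₂) (φ' : F₁' ⟶ F₂') (a : F₁ ⟶ F₁')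
    (b : F₂ ⟶ F₂') (w : φ ≫ b = a ≫ φ') :
    coneSMap φ φ' a b w ≫ coneSDesc φ' = coneSDesc φ ≫ (sgl 0).map (cokernel.map φ φ' a b w) :=
  CochainComplex.mappingCone.map_descShortComplex _ _
    ((sgl 0 : PSh C L ⥤ Ch C L).mapShortComplex.map
      ({ τ₁ := a, τ₂ := b, τ₃ := cokernel.map φ φ' a b w, comm₁₂ := w.symm } :
        ShortComplex.mk φ (cokernel.π φ) (by simp) ⟶
          ShortComplex.mk φ' (cokernel.π φ') (by simp)))

lemma LocExact.wg_sqMap {r : C ⥤ PSh C L} (h : LocExact u r) (S : NisSq u) :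
    WG (NisGen u) (sqMap r S) := by
  have w : r.map S.j ≫ r.map S.f = r.map S.g ≫ r.map S.i := by
    simp only [← Functor.map_comp, S.w]
  refine (wg_iff_of_sq (coneSMap_desc _ _ _ _ w) (wg_coneSDesc (h.inj S))
    (wg_coneSDesc (h.inj' S))).2 ((wg_nis_sgl_iff _ 0).2 ⟨?_, ?_⟩)
  · intro V a ha x
    obtain ⟨y, rfl⟩ := Site_surj (cokernel.π (r.map S.j)) V a
    have e : (cokernel.π (r.map S.i)).app (op V) ((r.map S.f).app (op V) y) = 0 := by
      rw [← ha]
      exact (congrArg (fun θ => θ.app (op V) y)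
        (cokernel.π_desc (r.map S.j) (r.map S.f ≫ cokernel.π (r.map S.i)) _)).symm
    obtain ⟨a, ha'⟩ := Site_exact (ShortComplex.exact_cokernel (r.map S.i)) _ e
    refine (h.mid S V a y ha' x).mono fun V' φ ⟨b, hb⟩ => ?_
    rw [← Site_nat, ← hb]
    exact Site_zero (cokernel.condition _) b
  · intro V z x
    obtain ⟨z, rfl⟩ := Site_surj (cokernel.π (r.map S.i)) V z
    refine (h.surj S V z x).mono fun V' φ ⟨a, y, e⟩ =>
      ⟨(cokernel.π (r.map S.j)).app (op V') y, ?_⟩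
    rw [← Site_nat, ← e, map_add, Site_zero (cokernel.condition _) a, zero_add]
    exact congrArg (fun θ => θ.app (op V') y)
      (cokernel.π_desc (r.map S.j) (r.map S.f ≫ cokernel.π (r.map S.i)) _)

variable (u) in
/-- The test complexes for Nisnevich descent attached to a functor `r`. -/
def NisTestR (r : C ⥤ PSh C' L) (K : Ch C' L) : Prop :=
  (∃ U, IsEmpty (u.obj U) ∧ K = (sgl 0).obj (r.obj U)) ∨
    ∃ S : NisSq u, K = CochainComplex.mappingCone (sqMap r S)

variable (u L) in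
/-- The test complexes for Nisnevich descent. -/
abbrev NisTest : Ch C L → Prop := NisTestR u (rep C L)

lemma LocExact.loc_of_test {r : C ⥤ PSh C L} (h : LocExact u r) (K : Ch C L)
    (hK : NisTestR u r K) : Loc (NisGen u) K := by
  rcases hK with ⟨U, hU, rfl⟩ | ⟨S, rfl⟩
  · exact Loc.gen _ ((nisGen_sgl_iff _ 0).2 (h.empty U hU))
  · exact h.wg_sqMap S

/-- The homology of a shifted complex. -/
def homologyShiftIso (X : Ch C L) (n a a' : ℤ) (h : n + a = a') :
    HomologicalComplex.homology (X⟦n⟧) a ≅ X.homology a' :=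
  ((HomologicalComplex.homologyFunctor (PSh C L) (ComplexShape.up ℤ) 0).shiftIso n a a' h).app X

lemma mv_zero {Y : Ch C L} (h : IsLocal (NisTest L u) Y) (S : NisSq u)
    (x : (Y.homology 0).obj (op S.X)) (hi : (Y.homology 0).map S.i.op x = 0)
    (hf : (Y.homology 0).map S.f.op x = 0) :
    ∃ b : (Y.homology (-1)).obj (op S.B), ∀ (S' : NisSq u) (φ : S'.Hom S),
      (Y.homology (-1)).map φ.b.op b = 0 → (Y.homology 0).map φ.x.op x = 0 := by
  have h0 := isLocal_G0 Y
  obtain ⟨ξ, rfl⟩ := (h0.homRep_bijective 0 S.X).2 x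
  rw [← h0.homRep_map_comp, h0.homRep_eq_zero_iff] at hi hf
  obtain ⟨ξ', rfl⟩ := cone_contra₂ _ ξ hi
  obtain ⟨β, hβ⟩ := cone_contra₃ _ ((QM _).map (sqMap (rep C L) S) ≫ ξ') (by
    rw [← Functor.map_comp_assoc, sqMap, coneSMap, inr_cone_map, Functor.map_comp_assoc, hf])
  refine ⟨h0.homRep ((QM _).map ((sglShiftIso 1 (-1) 0 (by simp)).inv.app _) ≫ β),
    fun S' φ hb => ?_⟩
  rw [← h0.homRep_map_comp, h0.homRep_eq_zero_iff] at hb ⊢
  rw [← Functor.map_comp_assoc, (sglShiftIso 1 (-1) 0 (by simp)).inv.naturality,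
    Functor.map_comp_assoc, ← comp_zero (f := (QM (G0 C L)).map
      ((sglShiftIso 1 (-1) 0 (by simp)).inv.app ((rep C L).obj S'.B))), cancel_epi] at hb
  have wi : (rep C L).map S'.i ≫ (rep C L).map φ.x = (rep C L).map φ.a ≫ (rep C L).map S.i := by
    simp only [← Functor.map_comp, φ.wi]
  have wj : (rep C L).map S'.j ≫ (rep C L).map φ.y = (rep C L).map φ.b ≫ (rep C L).map S.j := by
    simp only [← Functor.map_comp, φ.wj]
  have e : sqMap (rep C L) S' ≫ coneSMap _ _ _ _ wi = coneSMap _ _ _ _ wj ≫ sqMap (rep C L) S := by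
    simp only [sqMap, coneSMap_comp, ← Functor.map_comp, φ.wg, φ.wf]
  have key : (QM (G0 C L)).map (coneSMap _ _ _ _ wi) ≫ ξ' = 0 := by
    refine (h _ (Or.inr ⟨S', rfl⟩)).precomp_injective _ _ ?_
    rw [← Functor.map_comp_assoc, e, Functor.map_comp_assoc, hβ, ← Functor.map_comp_assoc,
      coneSMap, ← coneδ_naturality, Functor.map_comp_assoc]
    erw [hb]
    rw [comp_zero]
  rw [← Functor.map_comp_assoc, ← inr_cone_map ((sgl 0).map ((rep C L).map S'.i)) _
    ((sgl 0).map ((rep C L).map φ.a)) _ (by simp only [← Functor.map_comp, φ.wi]),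
    Functor.map_comp_assoc]
  erw [key]
  rw [comp_zero]

lemma iso_app_eq_zero_iff {F F' : PSh C L} (e : F ≅ F') {U : C} (a : F.obj (op U)) :
    e.hom.app (op U) a = 0 ↔ a = 0 :=
  map_eq_zero_iff _ (Site_inj e.hom U)

lemma mvSys_of_test {X : Ch C L} (h : IsLocal (NisTest L u) X) :
    MVSys u fun q => X.homology q where
  empty q U hU := ((isLocal_G0 X).orth_rep_iff 0 U).1 (h _ (Or.inl ⟨U, hU, rfl⟩)) q
  mv S p q hpq x hi hf := by
    let e₀ := homologyShiftIso X q 0 q (by simp)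
    let e₁ := homologyShiftIso X q (-1) p (by omega)
    obtain ⟨x, rfl⟩ := Site_surj e₀.hom S.X x
    rw [← Site_nat, iso_app_eq_zero_iff] at hi hf
    obtain ⟨b, hb⟩ := mv_zero (h.shift q) S x hi hf
    refine ⟨e₁.hom.app _ b, fun S' φ hb' => ?_⟩
    rw [← Site_nat, iso_app_eq_zero_iff] at hb' ⊢
    exact hb S' φ hb'

section cells

variable {R : PSh C' L ⥤ PSh C L} [IsExact R] {P : PSh C' L → Prop} (hP : ClosedCl P)
  {ρ : C ⥤ PSh C' L} {e : rep C L ⟶ ρ ⋙ R}
  (he : ∀ U, GoodTerm R P (A' := ρ.obj U) (e.app U))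

lemma mapC_cone_map {X Y X' Y' : Ch C' L} (f : X ⟶ Y) (f' : X' ⟶ Y') (a : X ⟶ X') (b : Y ⟶ Y')
    (w : f ≫ b = a ≫ f') :
    (mapC R).map (CochainComplex.mappingCone.map f f' a b w) ≫
      (CochainComplex.mappingCone.mapHomologicalComplexIso f' R).hom =
    (CochainComplex.mappingCone.mapHomologicalComplexIso f R).hom ≫
      CochainComplex.mappingCone.map _ _ ((mapC R).map a) ((mapC R).map b)
        (by simp only [← Functor.map_comp, w]) := by
  rw [← cancel_epi (CochainComplex.mappingCone.mapHomologicalComplexIso f R).inv,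
    ← cancel_mono (CochainComplex.mappingCone.mapHomologicalComplexIso f' R).inv]
  simp only [Category.assoc, Iso.hom_inv_id, Category.comp_id, Iso.inv_hom_id_assoc]
  ext n : 1
  simp [CochainComplex.mappingCone.ext_from_iff _ (n + 1) n rfl, CochainComplex.mappingCone.map,
    CochainComplex.mappingCone.mapHomologicalComplexIso,
    CochainComplex.mappingCone.mapHomologicalComplexXIso]
  simp only [← R.map_comp]
  simp

lemma sglLift_naturality {U V : C} (φ : V ⟶ U) :
    (sgl 0).map ((rep C L).map φ) ≫ sglLift (R := R) (A' := ρ.obj U) (e.app U) 0 =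
      sglLift (R := R) (A' := ρ.obj V) (e.app V) 0 ≫ (mapC R).map ((sgl 0).map (ρ.map φ)) := by
  have h := (HomologicalComplex.singleMapHomologicalComplex R (ComplexShape.up ℤ) 0).inv.naturality
    (ρ.map φ)
  dsimp at h
  rw [sglLift, sglLift, ← Functor.map_comp_assoc, e.naturality, Category.assoc, ← h,
    Functor.map_comp_assoc]
  rfl

/-- The cell attached to a morphism of `C`. -/
def cellM {U V : C} (φ : V ⟶ U) : FinCell R P (coneS ((rep C L).map φ)) :=
  FinCell.cone hP (FinCell.single hP (he V) 0) (FinCell.single hP (he U) 0) _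
    ((sgl 0).map (ρ.map φ)) (sglLift_naturality φ)

/-- The cell attached to an elementary square. -/
def cellQ (S : NisSq u) : FinCell R P (CochainComplex.mappingCone (sqMap (rep C L) S)) :=
  FinCell.cone hP (cellM hP he S.j) (cellM hP he S.i) _ (sqMap ρ S) (by
    change _ ≫ _ ≫ (CochainComplex.mappingCone.mapHomologicalComplexIso _ R).inv =
      (_ ≫ (CochainComplex.mappingCone.mapHomologicalComplexIso _ R).inv) ≫ _
    rw [← Category.assoc, Iso.comp_inv_eq, Category.assoc, Category.assoc, sqMap, sqMap,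
      coneSMap, coneSMap, mapC_cone_map, Iso.inv_hom_id_assoc,
      ← CochainComplex.mappingCone.map_comp, ← CochainComplex.mappingCone.map_comp]
    congr 1 <;> exact sglLift_naturality _)

variable (R) in
/-- Comparison of the image of a cone with the cone of the image. -/
def coneSCmp {F F' : PSh C' L} (φ : F ⟶ F') : (mapC R).obj (coneS φ) ⟶ coneS (R.map φ) :=
  (CochainComplex.mappingCone.mapHomologicalComplexIso _ R).hom ≫
    CochainComplex.mappingCone.map _ _
      ((HomologicalComplex.singleMapHomologicalComplex R _ 0).hom.app F)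
      ((HomologicalComplex.singleMapHomologicalComplex R _ 0).hom.app F')
      ((HomologicalComplex.singleMapHomologicalComplex R _ 0).hom.naturality φ)

lemma wg_coneSCmp {G : Ch C L → Prop} {F F' : PSh C' L} (φ : F ⟶ F') : WG G (coneSCmp R φ) :=
  (WG.of_isIso _).comp (wg_cone_map _ _ _ _ _ (WG.of_isIso _) (WG.of_isIso _))

lemma coneSCmp_naturality {F₁ F₂ F₁' F₂' : PSh C' L} (φ : F₁ ⟶ F₂) (φ' : F₁' ⟶ F₂')
    (a : F₁ ⟶ F₁') (b : F₂ ⟶ F₂') (w : φ ≫ b = a ≫ φ') :
    (mapC R).map (coneSMap φ φ' a b w) ≫ coneSCmp R φ' =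
      coneSCmp R φ ≫ coneSMap _ _ (R.map a) (R.map b) (by simp only [← Functor.map_comp, w]) := by
  rw [coneSCmp, coneSCmp, coneSMap, coneSMap, ← Category.assoc, mapC_cone_map, Category.assoc,
    Category.assoc, ← CochainComplex.mappingCone.map_comp, ← CochainComplex.mappingCone.map_comp]
  congr 2 <;> exact (HomologicalComplex.singleMapHomologicalComplex R _ 0).hom.naturality _

lemma loc_mapC_test {G : Ch C L → Prop} (h : ∀ K, NisTestR u (ρ ⋙ R) K → Loc G K) (K : Ch C' L)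
    (hK : NisTestR u ρ K) : Loc G ((mapC R).obj K) := by
  rcases hK with ⟨U, hU, rfl⟩ | ⟨S, rfl⟩
  · exact Loc.of_iso ((HomologicalComplex.singleMapHomologicalComplex R _ 0).app _).symm
      (h _ (Or.inl ⟨U, hU, rfl⟩))
  · refine Loc.of_iso (CochainComplex.mappingCone.mapHomologicalComplexIso _ R).symm ?_
    exact (wg_iff_of_sq (coneSCmp_naturality _ _ _ _ _) (wg_coneSCmp _) (wg_coneSCmp _)).2
      (h _ (Or.inr ⟨S, rfl⟩))

include hP he in
theorem exists_test_replacement {κ : Type 1} {V U : κ → C} (φ : ∀ k, V k ⟶ U k) (X : Ch C' L)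
    (hX : ∀ n, P (X.X n)) :
    ∃ (X' : Ch C' L) (j : X ⟶ X'), Mono j ∧ (∀ n, P (X'.X n)) ∧
      WG (fun K => NisTestR u ρ K ∨ ∃ k, K = coneS (ρ.map (φ k))) j ∧
      IsLocal (NisTest L u) ((mapC R).obj X') ∧
      ∀ k, Orth (G0 C L) (coneS ((rep C L).map (φ k))) ((mapC R).obj X') := by
  let T : ({U // IsEmpty (u.obj U)} ⊕ NisSq u) ⊕ κ → Ch C L := fun i => match i with
    | .inl (.inl U) => (sgl 0).obj ((rep C L).obj U.1)
    | .inl (.inr S) => CochainComplex.mappingCone (sqMap (rep C L) S)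
    | .inr k => coneS ((rep C L).map (φ k))
  let c : ∀ i, FinCell R P (T i) := fun i => match i with
    | .inl (.inl U) => FinCell.single hP (he U.1) 0
    | .inl (.inr S) => cellQ hP he S
    | .inr k => cellM hP he (φ k)
  obtain ⟨X', j, hj, hX', hW, h⟩ := exists_replacement hP c X hX
  refine ⟨X', j, hj, hX', hW.trans ?_, ?_, fun k => h (.inr k)⟩
  · rintro _ ⟨(U | S) | k, rfl⟩
    · exact Loc.gen _ (Or.inl (Or.inl ⟨U.1, U.2, rfl⟩))
    · exact Loc.gen _ (Or.inl (Or.inr ⟨S, rfl⟩))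
    · exact Loc.gen _ (Or.inr ⟨k, rfl⟩)
  · rintro _ (⟨U, hU, rfl⟩ | ⟨S, rfl⟩)
    · exact h (.inl (.inl ⟨U, hU⟩))
    · exact h (.inl (.inr S))

end cells

theorem exists_test_replacement_rep {κ : Type 1} {V U : κ → C} (φ : ∀ k, V k ⟶ U k)
    (X : Ch C L) : ∃ (X' : Ch C L) (j : X ⟶ X'), Mono j ∧
      WG (fun K => NisTest L u K ∨ ∃ k, K = coneS ((rep C L).map (φ k))) j ∧
      IsLocal (NisTest L u) X' ∧ ∀ k, Orth (G0 C L) (coneS ((rep C L).map (φ k))) X' := by
  obtain ⟨X', j, hj, -, h⟩ := exists_test_replacement (u := u) (R := 𝟭 (PSh C L)) closedCl_top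
    (ρ := rep C L) (e := 𝟙 _) (fun U => goodTerm_rep U) φ X fun _ => trivial
  exact ⟨X', j, hj, h⟩

/-- Complexes with locally zero homology are built from the test complexes. -/
theorem IsSite.loc_nisTest_iff (hu : IsSite u) (K : Ch C L) :
    Loc (NisTest L u) K ↔ NisGen u K := by
  have key : ∀ K, Loc (NisTest L u) K → NisGen u K := fun K h =>
    (loc_nisGen_iff K).1 (h.trans hu.locExact_rep.loc_of_test)
  refine ⟨key K, fun h => ?_⟩
  obtain ⟨X', j, -, hW, hX', -⟩ := exists_test_replacement_rep (u := u) (κ := PEmpty)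
    (V := fun k => k.elim) (U := fun k => k.elim) (fun k => k.elim) K
  have hW' : WG (NisTest L u) j := hW.trans (by
    rintro K (h | ⟨k, -⟩)
    · exact Loc.gen _ h
    · exact k.elim)
  have h' : NisGen u X' := (loc_nisGen_iff _).1
    ((WG.trans hu.locExact_rep.loc_of_test hW').loc_iff.1 (Loc.gen _ h))
  refine hW'.loc_iff.2 (Loc.acyclic _ ((acyclic_iff_sections X').2 fun q U a => ?_))
  exact bg_minus hu (mvSys_of_test hX') U q (fun p _ => (h' p).over U) q le_rfl a

theorem IsSite.isLocal_nis_iff (hu : IsSite u) (X : Ch C L) :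
    IsLocal (NisGen u) X ↔ IsLocal (NisTest L u) X :=
  ⟨fun h => h.trans hu.locExact_rep.loc_of_test,
    fun h => h.trans fun K hK => (hu.loc_nisTest_iff K).2 hK⟩

lemma IsLocal.nis {X : Ch C L} (h : IsLocal (NGen u) X) : IsLocal (NisGen u) X :=
  fun K hK => h K (Or.inl hK)

/-- The homology of a Nisnevich local complex has the weak Mayer-Vietoris property. -/
theorem IsSite.mvSys (hu : IsSite u) {X : Ch C L} (h : IsLocal (NisGen u) X) :
    MVSys u fun q => X.homology q :=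
  mvSys_of_test ((hu.isLocal_nis_iff X).1 h)

/-- Nisnevich local replacement for presheaves with transfers. -/
theorem IsSite.exists_nis_replacement_tr (hu : IsSite u) {γ : C ⥤ C'} (d : TrData L γ)
    (hd : LocExact u (d.ρ ⋙ rs L γ)) (X : Ch C' L) (hX : ∀ n, d.P (X.X n)) :
    ∃ (X' : Ch C' L) (j : X ⟶ X'), Mono j ∧ (∀ n, d.P (X'.X n)) ∧
      WG (NisGen u) ((mapC (rs L γ)).map j) ∧ IsLocal (NisGen u) ((mapC (rs L γ)).obj X') := by
  obtain ⟨X', j, hj, hX', hW, h, -⟩ := exists_test_replacement (u := u) d.closed d.goodTerm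
    (κ := PEmpty) (V := fun k => k.elim) (U := fun k => k.elim) (fun k => k.elim) X hX
  refine ⟨X', j, hj, hX', WG.map _ ?_ hW, (hu.isLocal_nis_iff _).2 h⟩
  rintro K (h | ⟨k, -⟩)
  · exact loc_mapC_test hd.loc_of_test K h
  · exact k.elim

/-- Nisnevich local replacement. -/
theorem IsSite.exists_nis_replacement (hu : IsSite u) (X : Ch C L) :
    ∃ (X' : Ch C L) (j : X ⟶ X'), Mono j ∧ WG (NisGen u) j ∧ IsLocal (NisGen u) X' := by
  obtain ⟨X', j, hj, hW, h, -⟩ := exists_test_replacement_rep (u := u) (κ := PEmpty)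
    (V := fun k => k.elim) (U := fun k => k.elim) (fun k => k.elim) X
  refine ⟨X', j, hj, hW.trans ?_, (hu.isLocal_nis_iff _).2 h⟩
  rintro K (h | ⟨k, -⟩)
  · exact hu.locExact_rep.loc_of_test K h
  · exact k.elim

end Pool.Agent.KEW
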