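import Pool.Agent.P.MP_6277db_ag.KEW.L1.DM

/-!
Saturation of `WG G`: retracts, two out of three, five lemma, direct sums.
-/

set_option backward.isDefEq.respectTransparency false

noncomputable section

open CategoryTheory Limits Pretriangulated ZeroObject

namespace Pool.Agent.KEW

variable {C : Type 1} [Category.{0} C] {L : Type 1} [CommRing L] {G : Ch C L → Prop}

/-- `Loc G` is closed under retracts. -/
lemma Loc.of_retract {K K' : Ch C L} (i : K ⟶ K') (p : K' ⟶ K) (h : i ≫ p = 𝟙 K)
    (hK : Loc G K') : Loc G K := by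
  let A : Ch C L := ∐ fun _ : ℕ => K'
  let j : ℕ → (K' ⟶ A) := fun n => Sigma.ι (fun _ : ℕ => K') n
  let e : K' ⟶ K' := p ≫ i
  let d : K' ⟶ K' := 𝟙 K' - e
  have hee : e ≫ e = e := by simp [e, reassoc_of% h]
  have hed : e ≫ d = 0 := by simp [d, hee]
  have hde : d ≫ e = 0 := by simp [d, hee]
  have hdd : d ≫ d = d := by
    conv_lhs => enter [2]; rw [show d = 𝟙 K' - e from rfl]
    rw [Preadditive.comp_sub, hde, sub_zero, Category.comp_id]
  have hdp : d ≫ p = 0 := by simp [d, e, h]
  have hs : d + e = 𝟙 K' := by simp [d]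
  let f : A ⟶ A := Sigma.desc fun n => d ≫ j n + e ≫ j (n + 1)
  let r : A ⟶ A := Sigma.desc fun n => match n with
    | 0 => d ≫ j 0
    | n + 1 => d ≫ j (n + 1) + e ≫ j n
  let g : A ⟶ K := Sigma.desc fun n => match n with
    | 0 => p
    | _ + 1 => 0
  have jf : ∀ n, j n ≫ f = d ≫ j n + e ≫ j (n + 1) := fun n => Sigma.ι_desc _ _
  have jr0 : j 0 ≫ r = d ≫ j 0 := Sigma.ι_desc _ _
  have jr : ∀ n, j (n + 1) ≫ r = d ≫ j (n + 1) + e ≫ j n := fun n => Sigma.ι_desc _ _
  have jg0 : j 0 ≫ g = p := Sigma.ι_desc _ _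
  have jg : ∀ n, j (n + 1) ≫ g = 0 := fun n => Sigma.ι_desc _ _
  have hsj : ∀ n, d ≫ j n + e ≫ j n = j n := fun n => by
    rw [← Preadditive.add_comp, hs, Category.id_comp]
  have hext : ∀ {Z : Ch C L} (a b : A ⟶ Z), (∀ n, j n ≫ a = j n ≫ b) → a = b :=
    fun a b hab => Sigma.hom_ext _ _ hab
  have w : f ≫ g = 0 := by
    refine hext _ _ fun n => ?_
    rw [← Category.assoc, jf, Preadditive.add_comp, Category.assoc, Category.assoc, jg, comp_zero,
      comp_zero, add_zero]
    cases n with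
    | zero => rw [jg0, hdp]
    | succ n => rw [jg, comp_zero]
  let sp : (ShortComplex.mk f g w).Splitting :=
    { r := r
      s := i ≫ j 0
      f_r := by
        refine hext _ _ fun n => ?_
        change j n ≫ f ≫ r = j n ≫ 𝟙 A
        rw [← Category.assoc, jf, Preadditive.add_comp, Category.assoc, Category.assoc, jr,
          Category.comp_id]
        cases n with
        | zero =>
          simp only [jr0, Preadditive.comp_add, reassoc_of% hdd, reassoc_of% hed, reassoc_of% hee,
            zero_comp, zero_add, hsj]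
        | succ n =>
          simp only [jr, Preadditive.comp_add, reassoc_of% hdd, reassoc_of% hed, reassoc_of% hee,
            reassoc_of% hde, zero_comp, zero_add, add_zero, hsj]
      s_g := by
        change (i ≫ j 0) ≫ g = 𝟙 K
        rw [Category.assoc, jg0, h]
      id := by
        refine hext _ _ fun n => ?_
        change j n ≫ (r ≫ f + g ≫ i ≫ j 0) = j n ≫ 𝟙 A
        rw [Preadditive.comp_add, Category.comp_id]
        cases n with
        | zero =>
          rw [reassoc_of% jr0, reassoc_of% jg0, jf, ← Category.assoc p i]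
          simp only [Preadditive.comp_add, reassoc_of% hdd, reassoc_of% hde, zero_comp, add_zero]
          exact hsj 0
        | succ n =>
          rw [← Category.assoc, jr, reassoc_of% (jg n), Preadditive.add_comp, Category.assoc,
            Category.assoc, jf, jf]
          simp only [Preadditive.comp_add, reassoc_of% hdd, reassoc_of% hed, reassoc_of% hee,
            reassoc_of% hde, zero_comp, zero_add, add_zero, hsj] }
  have hA : Loc G A := Loc.sum' _ fun _ => hK
  exact Loc.right (ShortComplex.mk f g w) sp.shortExact hA hA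

lemma isZero_QM_iff (K : Ch C L) : IsZero ((QM G).obj K) ↔ Loc G K := by
  refine ⟨fun h => ?_, Loc.isZero⟩
  obtain ⟨X', s, hs, ⟨H⟩⟩ := (map_eq_iff_precomp (G := G) (𝟙 K) 0).1 (h.eq_of_src _ _)
  exact Loc.of_retract (HomologicalComplex.homotopyCofiber.inr s)
    (HomologicalComplex.homotopyCofiber.desc s (𝟙 K) (H.trans (Homotopy.ofEq comp_zero)))
    (HomologicalComplex.homotopyCofiber.inr_desc _ _ _) hs

lemma isIso_QM_iff {X Y : Ch C L} (f : X ⟶ Y) : IsIso ((QM G).map f) ↔ WG G f :=
  (Triangle.isZero₃_iff_isIso₁ _ (coneTriangle_distinguished (G := G) f)).symm.trans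
    (isZero_QM_iff _)

lemma WG.comp {X Y Z : Ch C L} {f : X ⟶ Y} {g : Y ⟶ Z} (hf : WG G f) (hg : WG G g) :
    WG G (f ≫ g) := by
  have := hf.isIso
  have := hg.isIso
  rw [← isIso_QM_iff, Functor.map_comp]
  infer_instance

lemma WG.of_postcomp {X Y Z : Ch C L} {f : X ⟶ Y} {g : Y ⟶ Z} (hg : WG G g)
    (h : WG G (f ≫ g)) : WG G f := by
  have := hg.isIso
  have h' := h.isIso
  rw [Functor.map_comp] at h'
  rw [← isIso_QM_iff]
  exact IsIso.of_isIso_comp_right _ ((QM G).map g)

lemma WG.of_precomp {X Y Z : Ch C L} {f : X ⟶ Y} {g : Y ⟶ Z} (hf : WG G f)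
    (h : WG G (f ≫ g)) : WG G g := by
  have := hf.isIso
  have h' := h.isIso
  rw [Functor.map_comp] at h'
  rw [← isIso_QM_iff]
  exact IsIso.of_isIso_comp_left ((QM G).map f) _

lemma WG.of_isIso {X Y : Ch C L} (f : X ⟶ Y) [IsIso f] : WG G f := WG.of_quasiIso f

/-- In a commutative square with two parallel sides in `W`, the other sides are in `W`
simultaneously. -/
lemma wg_iff_of_sq {X Y X' Y' : Ch C L} {f : X ⟶ Y} {f' : X' ⟶ Y'} {a : X ⟶ X'} {b : Y ⟶ Y'}
    (w : f ≫ b = a ≫ f') (ha : WG G a) (hb : WG G b) : WG G f ↔ WG G f' :=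
  ⟨fun h => ha.of_precomp (w ▸ h.comp hb), fun h => hb.of_postcomp (w ▸ ha.comp h)⟩

lemma wg_shift_iff {X Y : Ch C L} (f : X ⟶ Y) (n : ℤ) : WG G (f⟦n⟧') ↔ WG G f := by
  rw [← isIso_QM_iff, ← isIso_QM_iff]
  exact (NatIso.isIso_map_iff ((QM G).commShiftIso n) f).trans
    (isIso_iff_of_reflects_iso ((QM G).map f) (shiftFunctor (DM G) n))

lemma WG.neg {X Y : Ch C L} {f : X ⟶ Y} (h : WG G f) : WG G (-f) := by
  have := h.isIso
  rw [← isIso_QM_iff, Functor.map_neg]
  exact ⟨-inv ((QM G).map f), by simp, by simp⟩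

/-- `W` is closed under retracts of arrows. -/
lemma WG.of_retract {X Y X' Y' : Ch C L} {f : X ⟶ Y} {f' : X' ⟶ Y'} (a : X ⟶ X') (b : Y ⟶ Y')
    (a' : X' ⟶ X) (b' : Y' ⟶ Y) (ha : a ≫ a' = 𝟙 X) (hb : b ≫ b' = 𝟙 Y) (w : f ≫ b = a ≫ f')
    (w' : f' ≫ b' = a' ≫ f) (h : WG G f') : WG G f := by
  have := h.isIso
  rw [← isIso_QM_iff]
  refine ⟨(QM G).map b ≫ inv ((QM G).map f') ≫ (QM G).map a', ?_, ?_⟩
  · rw [← Functor.map_comp_assoc, w, Functor.map_comp_assoc, IsIso.hom_inv_id_assoc,
      ← Functor.map_comp, ha, CategoryTheory.Functor.map_id]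
  · rw [Category.assoc, Category.assoc, ← Functor.map_comp, ← w', Functor.map_comp,
      IsIso.inv_hom_id_assoc, ← Functor.map_comp, hb, CategoryTheory.Functor.map_id]

/-- The second map of a short exact sequence is in `W` iff the kernel is in `Loc G`. -/
lemma wg_g_iff {S : ShortComplex (Ch C L)} (hS : S.ShortExact) : WG G S.g ↔ Loc G S.X₁ := by
  rw [← isIso_QM_iff, ← isZero_QM_iff]
  exact (Triangle.isZero₁_iff_isIso₂ _ (sesTriangle_distinguished (G := G) hS)).symm

lemma wg_iff_kernel {X Y : Ch C L} (f : X ⟶ Y) [Epi f] : WG G f ↔ Loc G (kernel f) :=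
  wg_g_iff (S := ShortComplex.mk (kernel.ι f) f (by simp))
    { exact := ShortComplex.exact_kernel f }

section five

variable {S₁ S₂ : ShortComplex (Ch C L)} (h₁ : S₁.ShortExact) (h₂ : S₂.ShortExact) (φ : S₁ ⟶ S₂)
include h₁ h₂

/-- The morphism of triangles attached to a morphism of short exact sequences. -/
def sesTriangleMap : sesTriangle G h₁ ⟶ sesTriangle G h₂ :=
  Triangle.homMk _ _ ((QM G).map φ.τ₁) ((QM G).map φ.τ₂) ((QM G).map φ.τ₃)
    (by
      change (QM G).map S₁.f ≫ (QM G).map φ.τ₂ = (QM G).map φ.τ₁ ≫ (QM G).map S₂.f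
      rw [← Functor.map_comp, ← Functor.map_comp, φ.comm₁₂])
    (by
      change (QM G).map S₁.g ≫ (QM G).map φ.τ₃ = (QM G).map φ.τ₂ ≫ (QM G).map S₂.g
      rw [← Functor.map_comp, ← Functor.map_comp, φ.comm₂₃])
    (by
      change (sesδ G h₁ ≫ ((QM G).commShiftIso (1 : ℤ)).hom.app S₁.X₁) ≫
          ((QM G).map φ.τ₁)⟦(1 : ℤ)⟧' =
        (QM G).map φ.τ₃ ≫ sesδ G h₂ ≫ ((QM G).commShiftIso (1 : ℤ)).hom.app S₂.X₁
      rw [Category.assoc, ← Functor.commShiftIso_hom_naturality, sesδ_naturality_assoc])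

lemma wg_τ₁ (a : WG G φ.τ₂) (b : WG G φ.τ₃) : WG G φ.τ₁ :=
  (isIso_QM_iff _).1 (isIso₁_of_isIso₂₃ (sesTriangleMap (G := G) h₁ h₂ φ)
    (sesTriangle_distinguished h₁) (sesTriangle_distinguished h₂) a.isIso b.isIso)

lemma wg_τ₂ (a : WG G φ.τ₁) (b : WG G φ.τ₃) : WG G φ.τ₂ :=
  (isIso_QM_iff _).1 (isIso₂_of_isIso₁₃ (sesTriangleMap (G := G) h₁ h₂ φ)
    (sesTriangle_distinguished h₁) (sesTriangle_distinguished h₂) a.isIso b.isIso)

lemma wg_τ₃ (a : WG G φ.τ₁) (b : WG G φ.τ₂) : WG G φ.τ₃ :=
  (isIso_QM_iff _).1 (isIso₃_of_isIso₁₂ (sesTriangleMap (G := G) h₁ h₂ φ)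
    (sesTriangle_distinguished h₁) (sesTriangle_distinguished h₂) a.isIso b.isIso)

end five

lemma wg_cone_map {X Y X' Y' : Ch C L} (f : X ⟶ Y) (f' : X' ⟶ Y') (a : X ⟶ X') (b : Y ⟶ Y')
    (w : f ≫ b = a ≫ f') (ha : WG G a) (hb : WG G b) :
    WG G (CochainComplex.mappingCone.map f f' a b w) := by
  let φ : coneTriangle G f ⟶ coneTriangle G f' :=
    Triangle.homMk _ _ ((QM G).map a) ((QM G).map b)
      ((QM G).map (CochainComplex.mappingCone.map f f' a b w))
      (by
        change (QM G).map f ≫ (QM G).map b = (QM G).map a ≫ (QM G).map f'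
        rw [← Functor.map_comp, ← Functor.map_comp, w])
      (by
        change (QM G).map (CochainComplex.mappingCone.inr f) ≫
            (QM G).map (CochainComplex.mappingCone.map f f' a b w) =
          (QM G).map b ≫ (QM G).map (CochainComplex.mappingCone.inr f')
        rw [← Functor.map_comp, ← Functor.map_comp, inr_cone_map])
      (by
        change ((QM G).map (coneδ f) ≫ ((QM G).commShiftIso (1 : ℤ)).hom.app X) ≫
            ((QM G).map a)⟦(1 : ℤ)⟧' =
          (QM G).map (CochainComplex.mappingCone.map f f' a b w) ≫ (QM G).map (coneδ f') ≫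
            ((QM G).commShiftIso (1 : ℤ)).hom.app X'
        rw [Category.assoc, ← Functor.commShiftIso_hom_naturality, ← Functor.map_comp_assoc,
          coneδ_naturality f f' a b w, Functor.map_comp_assoc])
  exact (isIso_QM_iff _).1 (isIso₃_of_isIso₁₂ φ (coneTriangle_distinguished f)
    (coneTriangle_distinguished f') ha.isIso hb.isIso)

/-- A short complex of diagrams is exact if it is so objectwise. -/
lemma sat_exact_of_eval {J A : Type*} [Category J] [Category A] [Abelian A]
    (S : ShortComplex (J ⥤ A)) (h : ∀ j, (S.map ((evaluation J A).obj j)).Exact) : S.Exact := by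
  have hP : JointlyReflectIsomorphisms fun j : J => (evaluation J A).obj j :=
    ⟨fun {X Y} f hf => by
      have : ∀ j, IsIso (f.app j) := hf
      exact NatIso.isIso_of_isIso_app f⟩
  exact (hP.exact_iff S).2 h

/-- Direct sums of short exact sequences of complexes are short exact. -/
lemma shortExact_sigma {ι : Type 1} (S : ι → ShortComplex (Ch C L)) (hS : ∀ i, (S i).ShortExact) :
    (ShortComplex.mk (Limits.Sigma.map fun i => (S i).f) (Limits.Sigma.map fun i => (S i).g)
      (by ext1; simp)).ShortExact := by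
  let T : ShortComplex (Discrete ι ⥤ Ch C L) :=
    ShortComplex.mk (X₁ := Discrete.functor fun i => (S i).X₁)
      (X₂ := Discrete.functor fun i => (S i).X₂) (X₃ := Discrete.functor fun i => (S i).X₃)
      (Discrete.natTrans fun i => (S i.as).f) (Discrete.natTrans fun i => (S i.as).g)
      (by ext1; ext1 i; exact (S i.as).zero)
  have hT : T.Exact := sat_exact_of_eval T fun j => (hS j.as).exact
  have h1 : ∀ j, Mono (T.f.app j) := fun j => (hS j.as).mono_f
  have h2 : Mono T.f := NatTrans.mono_of_mono_app _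
  have h3 : ∀ i, Epi (S i).g := fun i => (hS i).epi_g
  exact
    { exact := hT.map colim
      mono_f := inferInstanceAs (Mono (colim.map T.f))
      epi_g := inferInstanceAs (Epi (Limits.Sigma.map fun i => (S i).g)) }

lemma acyclic_sigma {ι : Type 1} (K : ι → Ch C L) (h : ∀ i, (K i).Acyclic) : (∐ K).Acyclic := by
  intro n
  let c := ComplexShape.up ℤ
  let D : ℤ → Discrete ι ⥤ PSh C L := fun m =>
    Discrete.functor K ⋙ HomologicalComplex.eval (PSh C L) c m
  let T : ShortComplex (Discrete ι ⥤ PSh C L) :=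
    ShortComplex.mk (X₁ := D (c.prev n)) (X₂ := D n) (X₃ := D (c.next n))
      (Discrete.natTrans fun i => (K i.as).d (c.prev n) n)
      (Discrete.natTrans fun i => (K i.as).d n (c.next n))
      (by ext1; ext1 i; exact (K i.as).d_comp_d _ _ _)
  have hT : T.Exact := sat_exact_of_eval T fun j => h j.as n
  let cc : ∀ m, Cocone (D m) := fun m =>
    (HomologicalComplex.eval (PSh C L) c m).mapCocone (colimit.cocone (Discrete.functor K))
  have hc : ∀ m, IsColimit (cc m) := fun m =>
    isColimitOfPreserves (HomologicalComplex.eval (PSh C L) c m) (colimit.isColimit _)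
  exact colim.exact_mapShortComplex hT (hc _) (hc _) (hc _) ((∐ K).d (c.prev n) n)
    ((∐ K).d n (c.next n)) (fun j => (colimit.ι (Discrete.functor K) j).comm _ _)
    (fun j => (colimit.ι (Discrete.functor K) j).comm _ _)

/-- `W` is closed under direct sums. -/
lemma WG.sigma {ι : Type 1} {X Y : ι → Ch C L} (f : ∀ i, X i ⟶ Y i) (h : ∀ i, WG G (f i)) :
    WG G (Limits.Sigma.map f) := by
  let M : ι → Ch C L := fun i => CochainComplex.mappingCone (𝟙 (X i))
  let j : ∀ i, X i ⟶ M i ⊞ Y i := fun i =>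
    Limits.biprod.lift (CochainComplex.mappingCone.inr (𝟙 (X i))) (f i)
  have hM : ∀ i, Loc G (M i) := fun i => WG.of_quasiIso (𝟙 (X i))
  have hj : ∀ i, Mono (j i) := fun i => by
    have : Mono (CochainComplex.mappingCone.inr (𝟙 (X i))) := (cone_shortExact (𝟙 (X i))).mono_f
    exact mono_of_mono_fac (Limits.biprod.lift_fst _ _)
  let S : ι → ShortComplex (Ch C L) := fun i =>
    ShortComplex.mk (Limits.biprod.inl : M i ⟶ M i ⊞ Y i) Limits.biprod.snd (by simp)
  have hS : ∀ i, (S i).ShortExact := fun i =>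
    (ShortComplex.Splitting.ofHasBinaryBiproduct (M i) (Y i)).shortExact
  let T : ι → ShortComplex (Ch C L) := fun i =>
    ShortComplex.mk (j i) (cokernel.π (j i)) (by simp)
  have hT : ∀ i, (T i).ShortExact := fun i => { exact := ShortComplex.exact_cokernel (j i) }
  have hq : ∀ i, WG G (S i).g := fun i => (wg_g_iff (hS i)).2 (hM i)
  have hjq : ∀ i, j i ≫ (S i).g = f i := fun i => Limits.biprod.lift_snd _ _
  have hj' : ∀ i, WG G (j i) := fun i => (hq i).of_postcomp (by rw [hjq]; exact h i)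
  have h1 : WG G (Limits.Sigma.map fun i => (T i).f) :=
    (wg_f_iff (shortExact_sigma T hT)).2 (Loc.sum ι _ fun i => (wg_f_iff (hT i)).1 (hj' i))
  have h2 : WG G (Limits.Sigma.map fun i => (S i).g) :=
    (wg_g_iff (shortExact_sigma S hS)).2 (Loc.sum ι _ hM)
  have h3 := h1.comp h2
  rw [Limits.Sigma.map_comp_map] at h3
  have e : f = fun i => (T i).f ≫ (S i).g := funext fun i => (hjq i).symm
  rw [e]
  exact h3

lemma WG.biprod {X Y X' Y' : Ch C L} {f : X ⟶ Y} {f' : X' ⟶ Y'} (h : WG G f) (h' : WG G f') :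
    WG G (biprod.map f f') :=
  wg_τ₂ (S₁ := ShortComplex.mk Limits.biprod.inl Limits.biprod.snd (by simp))
    (S₂ := ShortComplex.mk Limits.biprod.inl Limits.biprod.snd (by simp))
    (ShortComplex.Splitting.ofHasBinaryBiproduct X X').shortExact
    (ShortComplex.Splitting.ofHasBinaryBiproduct Y Y').shortExact
    (ShortComplex.homMk f (Limits.biprod.map f f') f' (by simp) (by simp)) h h'

end Pool.Agent.KEW
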